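import Pool.Agent.H371.SB.Defs

set_option autoImplicit false

namespace Pool.Agent.H371.SB.S45x

open Pool.Agent.H371.SB

/-- the group algebra over the `p`-adic numbers -/
abbrev RR (p : ℕ) [Fact p.Prime] (N : Type) [Group N] : Type := MonoidAlgebra ℚ_[p] N

/-- the scaling factor -/
noncomputable abbrev qq (p : ℕ) [Fact p.Prime] : ℚ_[p] := ((p : ℚ_[p]) ^ 2)⁻¹

section
variable (p : ℕ) [Fact p.Prime] (N : Type) [Group N]

/-- `x - 1` -/
noncomputable def dd (x : N) : RR p N := MonoidAlgebra.of ℚ_[p] N x - 1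

/-- `p^-2 (x - 1)` -/
noncomputable def gen (x : N) : RR p N := qq p • dd p N x

/-- integral augmentation ideal -/
noncomputable def I : Submodule ℤ_[p] (RR p N) := Submodule.span ℤ_[p] (Set.range (dd p N))

/-- scaled integral augmentation ideal -/
noncomputable def J : Submodule ℤ_[p] (RR p N) := Submodule.span ℤ_[p] (Set.range (gen p N))

/-- the order generated by it -/
noncomputable def S : Subalgebra ℤ_[p] (RR p N) := Algebra.adjoin ℤ_[p] (Set.range (gen p N))

theorem p_ne : (p : ℚ_[p]) ≠ 0 := by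
  have := (Fact.out : p.Prime).ne_zero
  exact_mod_cast this

theorem cast_mul_qq : ((p : ℚ_[p]) ^ 2) * qq p = 1 := by
  have := p_ne p
  unfold qq
  field_simp

/-- scaling back -/
theorem pp_gen (x : N) : ((p : RR p N) ^ 2) * gen p N x = dd p N x := by
  unfold gen
  have h : ((p : RR p N) ^ 2) = algebraMap ℚ_[p] (RR p N) ((p : ℚ_[p]) ^ 2) := by
    rw [map_pow, map_natCast]
  rw [h, ← Algebra.smul_def, smul_smul, cast_mul_qq, one_smul]

theorem of_eq (x : N) : MonoidAlgebra.of ℚ_[p] N x = 1 + ((p : RR p N) ^ 2) * gen p N x := by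
  rw [pp_gen, dd]; abel

theorem gen_mem (x : N) : gen p N x ∈ S p N := Algebra.subset_adjoin ⟨x, rfl⟩

theorem p_mem : ((p : RR p N) ^ 2) ∈ S p N := by
  have : ((p : RR p N)) ∈ S p N := by
    exact (S p N).natCast_mem p
  exact pow_mem this 2

theorem of_mem (x : N) : MonoidAlgebra.of ℚ_[p] N x ∈ S p N := by
  rw [of_eq]
  exact add_mem (one_mem _) (mul_mem (p_mem p N) (gen_mem p N x))

theorem p_comm (r : RR p N) : ((p : RR p N) ^ 2) * r = r * ((p : RR p N) ^ 2) := by
  have : Commute ((p : RR p N)) r := Nat.cast_commute p r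
  exact (this.pow_left 2).eq

/-- `S` is closed under multiplication by `p^2`; injectivity of that multiplication -/
theorem p_inj {r s : RR p N} (h : ((p : RR p N) ^ 2) * r = ((p : RR p N) ^ 2) * s) : r = s := by
  have h1 : ((p : RR p N) ^ 2) = algebraMap ℚ_[p] (RR p N) ((p : ℚ_[p]) ^ 2) := by
    rw [map_pow, map_natCast]
  rw [h1, ← Algebra.smul_def, ← Algebra.smul_def] at h
  have h2 := congrArg (fun t => qq p • t) h
  simp only [smul_smul] at h2
  rwa [mul_comm, cast_mul_qq, one_smul, one_smul] at h2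

/-! ### the ideal `I` -/

theorem dd_mem (x : N) : dd p N x ∈ I p N := Submodule.subset_span ⟨x, rfl⟩

theorem dd_mul (x y : N) : dd p N (x * y) = dd p N x + dd p N y + dd p N x * dd p N y := by
  unfold dd
  rw [map_mul]; noncomm_ring

theorem dd_mul' (x y : N) : dd p N x * MonoidAlgebra.of ℚ_[p] N y = dd p N (x * y) - dd p N y := by
  unfold dd
  rw [map_mul]; noncomm_ring

theorem dd_one : dd p N 1 = 0 := by
  unfold dd; rw [map_one]; abel

theorem dd_inv (x : N) : dd p N x⁻¹ = - dd p N x - dd p N x⁻¹ * dd p N x := by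
  have h := dd_mul p N x⁻¹ x
  rw [inv_mul_cancel, dd_one] at h
  have h3 : dd p N x⁻¹ - (- dd p N x - dd p N x⁻¹ * dd p N x) = 0 := by
    rw [h]; abel
  exact sub_eq_zero.1 h3

/-- elements with `x - 1 ∈ Q` -/
noncomputable def Y (Q : Submodule ℤ_[p] (RR p N)) (hQ : (I p N) * (I p N) ≤ Q) : Subgroup N where
  carrier := {x | dd p N x ∈ Q}
  one_mem' := by
    change dd p N 1 ∈ Q
    rw [dd_one]; exact zero_mem _
  mul_mem' := by
    intro a b ha hb
    change dd p N (a * b) ∈ Q
    rw [dd_mul]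
    exact add_mem (add_mem ha hb) (hQ (Submodule.mul_mem_mul (dd_mem p N a) (dd_mem p N b)))
  inv_mem' := by
    intro a ha
    change dd p N a⁻¹ ∈ Q
    rw [dd_inv]
    exact sub_mem (neg_mem ha) (hQ (Submodule.mul_mem_mul (dd_mem p N a⁻¹) (dd_mem p N a)))

theorem I_mul_of (x : N) (r : RR p N) (hr : r ∈ I p N) :
    r * MonoidAlgebra.of ℚ_[p] N x ∈ I p N := by
  unfold I at hr
  induction hr using Submodule.span_induction with
  | mem r hr =>
    obtain ⟨y, rfl⟩ := hr
    rw [dd_mul']
    exact sub_mem (dd_mem p N _) (dd_mem p N _)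
  | zero => rw [zero_mul]; exact zero_mem _
  | add a b _ _ ha hb => rw [add_mul]; exact add_mem ha hb
  | smul c a _ ha => rw [smul_mul_assoc]; exact Submodule.smul_mem _ c ha

theorem II_mul_of (x : N) (r : RR p N) (hr : r ∈ I p N * I p N) :
    r * MonoidAlgebra.of ℚ_[p] N x ∈ I p N * I p N := by
  induction hr using Submodule.mul_induction_on' with
  | mem_mul_mem m hm n hn =>
    rw [mul_assoc]
    exact Submodule.mul_mem_mul hm (I_mul_of p N x n hn)
  | add a _ b _ ha hb => rw [add_mul]; exact add_mem ha hb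

theorem comm_mem (c : N) (hc : c ∈ commutator N) : dd p N c ∈ I p N * I p N := by
  have h : commutator N ≤ Y p N (I p N * I p N) le_rfl := by
    rw [commutator_eq_closure, Subgroup.closure_le]
    rintro _ ⟨x, y, rfl⟩
    rw [commutatorElement_def]
    change dd p N (x * y * x⁻¹ * y⁻¹) ∈ I p N * I p N
    have h1 : dd p N (x * y * x⁻¹ * y⁻¹) = (dd p N x * dd p N y - dd p N y * dd p N x) *
        MonoidAlgebra.of ℚ_[p] N (x⁻¹ * y⁻¹) := by
      have h2 : MonoidAlgebra.of ℚ_[p] N (y * x) * MonoidAlgebra.of ℚ_[p] N (x⁻¹ * y⁻¹) = 1 := by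
        rw [← map_mul, show y * x * (x⁻¹ * y⁻¹) = 1 by group, map_one]
      have h3 : MonoidAlgebra.of ℚ_[p] N (x * y) * MonoidAlgebra.of ℚ_[p] N (x⁻¹ * y⁻¹) =
          MonoidAlgebra.of ℚ_[p] N (x * y * x⁻¹ * y⁻¹) := by
        rw [← map_mul]; congr 1; group
      have h4 : dd p N x * dd p N y - dd p N y * dd p N x =
          MonoidAlgebra.of ℚ_[p] N (x * y) - MonoidAlgebra.of ℚ_[p] N (y * x) := by
        unfold dd
        rw [map_mul, map_mul]; noncomm_ring
      rw [h4, sub_mul, h2, h3, dd]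
    rw [h1]
    refine II_mul_of p N _ _ (sub_mem ?_ ?_)
    · exact Submodule.mul_mem_mul (dd_mem p N x) (dd_mem p N y)
    · exact Submodule.mul_mem_mul (dd_mem p N y) (dd_mem p N x)
  exact h hc

/-! ### scaling -/

theorem smul_I (r : RR p N) (hr : r ∈ I p N) : qq p • r ∈ J p N := by
  unfold I at hr
  induction hr using Submodule.span_induction with
  | mem r hr =>
    obtain ⟨y, rfl⟩ := hr
    exact Submodule.subset_span ⟨y, rfl⟩
  | zero => rw [smul_zero]; exact zero_mem _
  | add a b _ _ ha hb => rw [smul_add]; exact add_mem ha hb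
  | smul c a _ ha => rw [smul_comm]; exact Submodule.smul_mem _ c ha

theorem smul_II (r : RR p N) (hr : r ∈ I p N * I p N) : qq p • qq p • r ∈ J p N * J p N := by
  induction hr using Submodule.mul_induction_on' with
  | mem_mul_mem m hm n hn =>
    have : qq p • qq p • (m * n) = (qq p • m) * (qq p • n) := by
      rw [smul_mul_assoc, mul_smul_comm]
    rw [this]
    exact Submodule.mul_mem_mul (smul_I p N m hm) (smul_I p N n hn)
  | add a _ b _ ha hb => rw [smul_add, smul_add]; exact add_mem ha hb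

theorem J_le : J p N ≤ Subalgebra.toSubmodule (S p N) := by
  unfold J
  rw [Submodule.span_le]
  rintro _ ⟨x, rfl⟩
  exact gen_mem p N x

theorem JJ_le : J p N * J p N ≤ Subalgebra.toSubmodule (S p N) := by
  rw [Submodule.mul_le]
  intro a ha b hb
  have h1 : a ∈ S p N := J_le p N ha
  have h2 : b ∈ S p N := J_le p N hb
  exact (S p N).mul_mem h1 h2

/-- division by `p^4` for elements of the commutator subgroup -/
theorem comm_div (c : N) (hc : c ∈ commutator N) :
    ∃ s ∈ S p N, dd p N c = ((p : RR p N) ^ 2) * (((p : RR p N) ^ 2) * s) := by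
  refine ⟨qq p • qq p • dd p N c, JJ_le p N (smul_II p N _ (comm_mem p N c hc)), ?_⟩
  have h : ((p : RR p N) ^ 2) = algebraMap ℚ_[p] (RR p N) ((p : ℚ_[p]) ^ 2) := by
    rw [map_pow, map_natCast]
  rw [h, ← Algebra.smul_def, ← Algebra.smul_def, smul_smul _ (qq p), cast_mul_qq, one_smul,
    smul_smul, cast_mul_qq, one_smul]

theorem pow_div (g : RR p N) (hg : g ∈ S p N) (m : ℕ) : ∃ s ∈ S p N,
    (1 + ((p : RR p N) ^ 2) * g) ^ m = 1 + ((p : RR p N) ^ 2) * ((m : RR p N) * g) +
      ((p : RR p N) ^ 2) * (((p : RR p N) ^ 2) * s) := by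
  induction m with
  | zero => exact ⟨0, zero_mem _, by simp⟩
  | succ m ih =>
    obtain ⟨s, hs, e⟩ := ih
    have hm : (m : RR p N) ∈ S p N := (S p N).natCast_mem m
    have hp := p_mem p N
    refine ⟨(m : RR p N) * g * g + s * (1 + ((p : RR p N) ^ 2) * g), ?_, ?_⟩
    · exact add_mem (mul_mem (mul_mem hm hg) hg)
        (mul_mem hs (add_mem (one_mem _) (mul_mem hp hg)))
    · rw [pow_succ, e]
      have c1 : (m : RR p N) * g * (((p : RR p N) ^ 2) * g) =
          ((p : RR p N) ^ 2) * ((m : RR p N) * g * g) := by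
        rw [← mul_assoc, ← p_comm, mul_assoc]
      have c2 : ((p : RR p N) ^ 2) * ((m : RR p N) * g) * (1 + ((p : RR p N) ^ 2) * g) =
          ((p : RR p N) ^ 2) * ((m : RR p N) * g) +
          ((p : RR p N) ^ 2) * (((p : RR p N) ^ 2) * ((m : RR p N) * g * g)) := by
        rw [mul_add, mul_one, mul_assoc, c1]
      rw [add_mul, add_mul, one_mul, c2]
      push_cast
      noncomm_ring

theorem pow_div' (y : N) : ∃ s ∈ S p N,
    dd p N (y ^ (p ^ 2)) = ((p : RR p N) ^ 2) * (((p : RR p N) ^ 2) * s) := by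
  obtain ⟨s, hs, e⟩ := pow_div p N (gen p N y) (gen_mem p N y) (p ^ 2)
  refine ⟨gen p N y + s, add_mem (gen_mem p N y) hs, ?_⟩
  unfold dd
  rw [map_pow, of_eq, e]
  push_cast
  noncomm_ring

/-! ### the action -/

/-- the action of an automorphism -/
noncomputable def act (h : MulAut N) : RR p N →ₐ[ℚ_[p]] RR p N :=
  MonoidAlgebra.mapDomainAlgHom ℚ_[p] ℚ_[p] (h.toMonoidHom : N →* N)

theorem act_of (h : MulAut N) (x : N) :
    act p N h (MonoidAlgebra.of ℚ_[p] N x) = MonoidAlgebra.of ℚ_[p] N (h x) := by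
  unfold act
  change MonoidAlgebra.mapDomain _ (MonoidAlgebra.single x (1 : ℚ_[p])) =
      MonoidAlgebra.single (h x) (1 : ℚ_[p])
  rw [MonoidAlgebra.mapDomain_single]
  rfl

theorem act_dd (h : MulAut N) (x : N) : act p N h (dd p N x) = dd p N (h x) := by
  unfold dd; rw [map_sub, act_of, map_one]

theorem act_gen (h : MulAut N) (x : N) : act p N h (gen p N x) = gen p N (h x) := by
  unfold gen; rw [map_smul, act_dd]

theorem act_mem (h : MulAut N) (r : RR p N) (hr : r ∈ S p N) : act p N h r ∈ S p N := by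
  unfold S at hr
  induction hr using Algebra.adjoin_induction with
  | mem r hr => obtain ⟨x, rfl⟩ := hr; rw [act_gen]; exact gen_mem p N _
  | algebraMap c =>
    have : act p N h (algebraMap ℤ_[p] (RR p N) c) = algebraMap ℤ_[p] (RR p N) c := by
      rw [IsScalarTower.algebraMap_apply ℤ_[p] ℚ_[p] (RR p N), AlgHom.commutes]
    rw [this]
    exact (S p N).algebraMap_mem c
  | add a b _ _ ha hb => rw [map_add]; exact add_mem ha hb
  | mul a b _ _ ha hb => rw [map_mul]; exact mul_mem ha hb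

theorem act_one (r : RR p N) : act p N 1 r = r := by
  have : act p N 1 = AlgHom.id ℚ_[p] (RR p N) := by
    refine MonoidAlgebra.algHom_ext (fun x => act_of p N 1 x) (Subsingleton.elim _ _)
  rw [this]; rfl

theorem act_mul (g h : MulAut N) (r : RR p N) : act p N (g * h) r = act p N g (act p N h r) := by
  have : act p N (g * h) = (act p N g).comp (act p N h) := by
    refine MonoidAlgebra.algHom_ext (fun x => ?_) (Subsingleton.elim _ _)
    have e1 := act_of p N (g * h) x
    have e2 := act_of p N h x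
    have e3 := act_of p N g (h x)
    change act p N (g * h) (MonoidAlgebra.of ℚ_[p] N x) =
      act p N g (act p N h (MonoidAlgebra.of ℚ_[p] N x))
    rw [e1, e2, e3]; rfl
  rw [this]; rfl

/-- the congruence -/
theorem act_cong (h : MulAut N) (hh : TrivAb (p ^ 2) h) (r : RR p N) (hr : r ∈ S p N) :
    ∃ s ∈ S p N, act p N h r - r = ((p : RR p N) ^ 2) * s := by
  unfold S at hr
  induction hr using Algebra.adjoin_induction with
  | mem r hr =>
    obtain ⟨x, rfl⟩ := hr
    obtain ⟨y, hy⟩ := hh x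
    have hc : (x * y ^ (p ^ 2))⁻¹ * h x ∈ commutator N := by
      rw [← Abelianization.ker_of, MonoidHom.mem_ker, map_mul, map_inv, hy, inv_mul_cancel]
    obtain ⟨c, hc0, hc⟩ : ∃ c ∈ commutator N, h x = x * (y ^ (p ^ 2) * c) :=
      ⟨_, hc, by group⟩
    obtain ⟨s1, hs1, e1⟩ := comm_div p N c hc0
    obtain ⟨s2, hs2, e2⟩ := pow_div' p N y
    refine ⟨MonoidAlgebra.of ℚ_[p] N x * (s2 + s1 + s2 * dd p N c), ?_, ?_⟩
    · have h1 : dd p N c ∈ S p N := by
        unfold dd; exact sub_mem (of_mem p N c) (one_mem _)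
      exact mul_mem (of_mem p N x) (add_mem (add_mem hs2 hs1) (mul_mem hs2 h1))
    · apply p_inj
      rw [act_gen, mul_sub, pp_gen, pp_gen, hc]
      have e3 : dd p N (x * (y ^ (p ^ 2) * c)) - dd p N x =
          MonoidAlgebra.of ℚ_[p] N x * dd p N (y ^ (p ^ 2) * c) := by
        unfold dd; rw [map_mul]; noncomm_ring
      rw [e3, dd_mul, e2]
      have e4 : ((p : RR p N) ^ 2) * (((p : RR p N) ^ 2) * s2) + dd p N c +
          ((p : RR p N) ^ 2) * (((p : RR p N) ^ 2) * s2) * dd p N c =
          ((p : RR p N) ^ 2) * (((p : RR p N) ^ 2) * (s2 + s1 + s2 * dd p N c)) := by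
        conv_lhs => rw [e1]
        conv_rhs => rw [e1]
        noncomm_ring
      rw [e4, ← mul_assoc, ← p_comm, mul_assoc, ← mul_assoc (MonoidAlgebra.of ℚ_[p] N x), ← p_comm,
        mul_assoc]
  | algebraMap c =>
    refine ⟨0, zero_mem _, ?_⟩
    have : act p N h (algebraMap ℤ_[p] (RR p N) c) = algebraMap ℤ_[p] (RR p N) c := by
      rw [IsScalarTower.algebraMap_apply ℤ_[p] ℚ_[p] (RR p N), AlgHom.commutes]
    rw [this, sub_self, mul_zero]
  | add a b _ _ ha hb =>
    obtain ⟨s, hs, e⟩ := ha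
    obtain ⟨t, ht, e'⟩ := hb
    refine ⟨s + t, add_mem hs ht, ?_⟩
    rw [map_add, mul_add, ← e, ← e']; abel
  | mul a b ha0 hb0 ha hb =>
    obtain ⟨s, hs, e⟩ := ha
    obtain ⟨t, ht, e'⟩ := hb
    refine ⟨s * act p N h b + a * t, add_mem (mul_mem hs (act_mem p N h b hb0)) (mul_mem ha0 ht), ?_⟩
    have : act p N h (a * b) - a * b = (act p N h a - a) * act p N h b +
        a * (act p N h b - b) := by
      rw [map_mul]; noncomm_ring
    rw [this, e, e', mul_add, ← mul_assoc a, ← p_comm]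
    noncomm_ring

/-! ### the augmentation ideal -/

theorem dd_aug (x : N) : dd p N x ∈ aug ℚ_[p] N := Submodule.subset_span ⟨x, rfl⟩

theorem aug_mul (r s : RR p N) (hr : r ∈ aug ℚ_[p] N) : r * s ∈ aug ℚ_[p] N := by
  induction s using MonoidAlgebra.induction_on with
  | of y =>
    unfold aug at hr
    induction hr using Submodule.span_induction with
    | mem r hr =>
      obtain ⟨x, rfl⟩ := hr
      have := dd_mul' p N x y
      unfold dd at this
      rw [this]
      exact sub_mem (dd_aug p N _) (dd_aug p N _)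
    | zero => rw [zero_mul]; exact zero_mem _
    | add a b _ _ ha hb => rw [add_mul]; exact add_mem ha hb
    | smul c a _ ha => rw [smul_mul_assoc]; exact Submodule.smul_mem _ c ha
  | add a b ha hb => rw [mul_add]; exact add_mem ha hb
  | smul c a ha => rw [mul_smul_comm]; exact Submodule.smul_mem _ c ha

theorem mul_aug (r s : RR p N) (hr : r ∈ aug ℚ_[p] N) : s * r ∈ aug ℚ_[p] N := by
  induction s using MonoidAlgebra.induction_on with
  | of y =>
    unfold aug at hr
    induction hr using Submodule.span_induction with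
    | mem r hr =>
      obtain ⟨x, rfl⟩ := hr
      have : MonoidAlgebra.of ℚ_[p] N y * (MonoidAlgebra.of ℚ_[p] N x - 1) =
          dd p N (y * x) - dd p N y := by
        unfold dd; rw [map_mul]; noncomm_ring
      change MonoidAlgebra.of ℚ_[p] N y * (MonoidAlgebra.of ℚ_[p] N x - 1) ∈ _
      rw [this]
      exact sub_mem (dd_aug p N _) (dd_aug p N _)
    | zero => rw [mul_zero]; exact zero_mem _
    | add a b _ _ ha hb => rw [mul_add]; exact add_mem ha hb
    | smul c a _ ha => rw [mul_smul_comm]; exact Submodule.smul_mem _ c ha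
  | add a b ha hb => rw [add_mul]; exact add_mem ha hb
  | smul c a ha => rw [smul_mul_assoc]; exact Submodule.smul_mem _ c ha

theorem augp_mul (n : ℕ) (r s : RR p N) (hr : r ∈ aug ℚ_[p] N ^ (n + 1)) :
    r * s ∈ aug ℚ_[p] N ^ (n + 1) := by
  rw [pow_succ] at hr ⊢
  induction hr using Submodule.mul_induction_on' with
  | mem_mul_mem a ha b hb =>
    rw [mul_assoc]
    exact Submodule.mul_mem_mul ha (aug_mul p N b s hb)
  | add a _ b _ ha hb => rw [add_mul]; exact add_mem ha hb

theorem mul_augp (n : ℕ) (r s : RR p N) (hr : r ∈ aug ℚ_[p] N ^ (n + 1)) :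
    s * r ∈ aug ℚ_[p] N ^ (n + 1) := by
  rw [pow_succ'] at hr ⊢
  induction hr using Submodule.mul_induction_on' with
  | mem_mul_mem a ha b hb =>
    rw [← mul_assoc]
    exact Submodule.mul_mem_mul (mul_aug p N a s ha) hb
  | add a _ b _ ha hb => rw [mul_add]; exact add_mem ha hb

theorem augp_anti (n m : ℕ) (h : n + 1 ≤ m) (r : RR p N) (hr : r ∈ aug ℚ_[p] N ^ m) :
    r ∈ aug ℚ_[p] N ^ (n + 1) := by
  obtain ⟨k, rfl⟩ := Nat.exists_eq_add_of_le h
  rw [pow_add] at hr
  induction hr using Submodule.mul_induction_on' with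
  | mem_mul_mem a ha b hb => exact augp_mul p N n a b ha
  | add a _ b _ ha hb => exact add_mem ha hb

theorem J_aug (r : RR p N) (hr : r ∈ J p N) : r ∈ aug ℚ_[p] N := by
  unfold J at hr
  induction hr using Submodule.span_induction with
  | mem r hr =>
    obtain ⟨x, rfl⟩ := hr
    exact Submodule.smul_mem _ _ (dd_aug p N x)
  | zero => exact zero_mem _
  | add a b _ _ ha hb => exact add_mem ha hb
  | smul c a _ ha =>
    have := Submodule.smul_mem (aug ℚ_[p] N) (algebraMap ℤ_[p] ℚ_[p] c) ha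
    rwa [algebraMap_smul] at this

theorem Jp_aug (n : ℕ) (r : RR p N) (hr : r ∈ J p N ^ n) : r ∈ aug ℚ_[p] N ^ n := by
  induction n generalizing r with
  | zero =>
    rw [pow_zero] at hr ⊢
    obtain ⟨c, rfl⟩ := Submodule.mem_one.1 hr
    exact Submodule.mem_one.2 ⟨algebraMap ℤ_[p] ℚ_[p] c, by
      rw [← IsScalarTower.algebraMap_apply]⟩
  | succ n ih =>
    rw [pow_succ] at hr ⊢
    induction hr using Submodule.mul_induction_on' with
    | mem_mul_mem a ha b hb => exact Submodule.mul_mem_mul (ih a ha) (J_aug p N b hb)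
    | add a _ b _ ha hb => exact add_mem ha hb

/-- tails -/
noncomputable def U (n : ℕ) : Submodule ℤ_[p] (RR p N) := ⨆ j : ℕ, J p N ^ (n + j)

theorem J_le_U (n m : ℕ) (h : n ≤ m) : J p N ^ m ≤ U p N n := by
  obtain ⟨k, rfl⟩ := Nat.exists_eq_add_of_le h
  exact le_iSup (fun j => J p N ^ (n + j)) k

theorem U_anti (n m : ℕ) (h : n ≤ m) : U p N m ≤ U p N n :=
  iSup_le fun j => J_le_U p N n (m + j) (by omega)

theorem U_mul (n m : ℕ) : U p N n * U p N m ≤ U p N (n + m) := by
  unfold U
  rw [Submodule.iSup_mul]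
  refine iSup_le fun i => ?_
  rw [Submodule.mul_iSup]
  refine iSup_le fun j => ?_
  rw [← pow_add]
  exact J_le_U p N (n + m) _ (by omega)

theorem U_aug (n : ℕ) (r : RR p N) (hr : r ∈ U p N (n + 1)) : r ∈ aug ℚ_[p] N ^ (n + 1) := by
  have h : U p N (n + 1) ≤ (aug ℚ_[p] N ^ (n + 1)).restrictScalars ℤ_[p] := by
    refine iSup_le fun j => ?_
    intro s hs
    exact augp_anti p N n _ (by omega) s (Jp_aug p N _ s hs)
  exact h hr

theorem step (F : Submodule ℤ_[p] (RR p N)) (h1 : F ≤ J p N) (h2 : J p N ≤ F ⊔ J p N * J p N)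
    (n : ℕ) : J p N ^ (n + 1) ≤ F ^ (n + 1) ⊔ U p N (n + 2) := by
  have h2' : J p N ≤ F ⊔ U p N 2 := by
    refine h2.trans (sup_le_sup le_rfl ?_)
    rw [← pow_two]
    exact J_le_U p N 2 2 le_rfl
  have hF : F ≤ U p N 1 := h1.trans (by
    have := J_le_U p N 1 1 le_rfl
    rwa [pow_one] at this)
  induction n with
  | zero => rw [zero_add, pow_one, pow_one]; exact h2'
  | succ n ih =>
    have hFn : F ^ (n + 1) ≤ U p N (n + 1) :=
      (pow_le_pow_left' h1 (n + 1)).trans (J_le_U p N _ _ le_rfl)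
    rw [pow_succ (J p N)]
    refine (mul_le_mul' ih h2').trans ?_
    rw [Submodule.sup_mul, Submodule.mul_sup, Submodule.mul_sup]
    refine sup_le (sup_le ?_ ?_) (sup_le ?_ ?_)
    · rw [← pow_succ]; exact le_sup_left
    · refine le_trans ?_ le_sup_right
      exact (mul_le_mul' hFn le_rfl).trans (U_mul p N (n + 1) 2)
    · refine le_trans ?_ le_sup_right
      exact (mul_le_mul' le_rfl hF).trans (U_mul p N (n + 2) 1)
    · refine le_trans ?_ le_sup_right
      exact (U_mul p N (n + 2) 2).trans (U_anti p N _ _ (by omega))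

theorem gen_step (X : Set N)
    (hX : Subgroup.closure (Abelianization.of '' X : Set (Abelianization N)) = ⊤) :
    J p N ≤ Submodule.span ℤ_[p] (gen p N '' X) ⊔ J p N * J p N := by
  have hY : Y p N (Submodule.span ℤ_[p] (dd p N '' X) ⊔ I p N * I p N) le_sup_right = ⊤ := by
    rw [eq_top_iff]
    intro y _
    have h1 : commutator N ≤
        Y p N (Submodule.span ℤ_[p] (dd p N '' X) ⊔ I p N * I p N) le_sup_right := by
      intro c hc
      exact (le_sup_right : I p N * I p N ≤ _) (comm_mem p N c hc)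
    have h2 : Subgroup.closure X ≤
        Y p N (Submodule.span ℤ_[p] (dd p N '' X) ⊔ I p N * I p N) le_sup_right := by
      rw [Subgroup.closure_le]
      intro x hx
      exact (le_sup_left : Submodule.span ℤ_[p] (dd p N '' X) ≤ _)
        (Submodule.subset_span ⟨x, hx, rfl⟩)
    have h3 : (Abelianization.of y) ∈ (Subgroup.closure X).map Abelianization.of := by
      rw [MonoidHom.map_closure, hX]; exact Subgroup.mem_top _
    obtain ⟨z, hz, hzy⟩ := h3
    have h4 : z⁻¹ * y ∈ commutator N := by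
      rw [← Abelianization.ker_of, MonoidHom.mem_ker, map_mul, map_inv, hzy, inv_mul_cancel]
    have := mul_mem (h2 hz) (h1 h4)
    rwa [mul_inv_cancel_left] at this
  conv_lhs => unfold J
  rw [Submodule.span_le]
  rintro _ ⟨y, rfl⟩
  have hy : dd p N y ∈ Submodule.span ℤ_[p] (dd p N '' X) ⊔ I p N * I p N := by
    have : y ∈ Y p N (Submodule.span ℤ_[p] (dd p N '' X) ⊔ I p N * I p N) le_sup_right := by
      rw [hY]; exact Subgroup.mem_top _
    exact this
  obtain ⟨f, hf, r, hr, hfr⟩ := Submodule.mem_sup.1 hy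
  have e : gen p N y = qq p • f + qq p • r := by
    unfold gen; rw [← hfr, smul_add]
  rw [SetLike.mem_coe, e]
  refine Submodule.add_mem_sup ?_ ?_
  · clear hfr e
    induction hf using Submodule.span_induction with
    | mem f hf =>
      obtain ⟨x, hx, rfl⟩ := hf
      exact Submodule.subset_span ⟨x, hx, rfl⟩
    | zero => rw [smul_zero]; exact zero_mem _
    | add a b _ _ ha hb => rw [smul_add]; exact add_mem ha hb
    | smul c a _ ha => rw [smul_comm]; exact Submodule.smul_mem _ c ha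
  · have h5 : qq p • r = ((p : ℤ_[p]) ^ 2) • (qq p • qq p • r) := by
      rw [← algebraMap_smul ℚ_[p] ((p : ℤ_[p]) ^ 2), map_pow, map_natCast, smul_smul,
        cast_mul_qq, one_smul]
    rw [h5]
    exact Submodule.smul_mem _ _ (smul_II p N r hr)

theorem exists_fg [Group.FG (Abelianization N)] (K : ℕ) : ∃ L : Submodule ℤ_[p] (RR p N),
    L.FG ∧ L ≤ Subalgebra.toSubmodule (S p N) ∧
    Subalgebra.toSubmodule (S p N) ≤ L ⊔ (aug ℚ_[p] N ^ (K + 1)).restrictScalars ℤ_[p] := by
  classical
  obtain ⟨T, hT⟩ := (Group.fg_def (G := Abelianization N)).1 inferInstance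
  set X : Set N := (fun a : Abelianization N => (QuotientGroup.mk_surjective a).choose) '' (T : Set _)
    with hXdef
  have hXf : X.Finite := (Finset.finite_toSet T).image _
  have hX : Subgroup.closure (Abelianization.of '' X : Set (Abelianization N)) = ⊤ := by
    rw [hXdef, Set.image_image]
    have : (fun a : Abelianization N =>
        Abelianization.of (QuotientGroup.mk_surjective a).choose) = id := by
      funext a
      exact (QuotientGroup.mk_surjective a).choose_spec
    rw [this, Set.image_id, hT]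
  set F : Submodule ℤ_[p] (RR p N) := Submodule.span ℤ_[p] (gen p N '' X) with hF
  set A : Submodule ℤ_[p] (RR p N) := (aug ℚ_[p] N ^ (K + 1)).restrictScalars ℤ_[p] with hA
  have hFJ : F ≤ J p N := Submodule.span_mono (by rintro _ ⟨x, _, rfl⟩; exact ⟨x, rfl⟩)
  have hst := step p N F hFJ (gen_step p N X hX)
  have hFfg : F.FG := Submodule.fg_span (hXf.image _)
  set L : Submodule ℤ_[p] (RR p N) := ⨆ j ∈ Finset.range (K + 1), F ^ j with hL
  have hFS : ∀ j, F ^ j ≤ Subalgebra.toSubmodule (S p N) := by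
    intro j
    induction j with
    | zero =>
      intro r hr
      obtain ⟨c, rfl⟩ := Submodule.mem_one.1 hr
      exact (S p N).algebraMap_mem c
    | succ j ih =>
      rw [pow_succ, Submodule.mul_le]
      intro a ha b hb
      exact (S p N).mul_mem (ih ha) (J_le p N (hFJ hb))
  -- all powers of `F`
  have hFL : ∀ j, F ^ j ≤ L ⊔ A := by
    intro j
    by_cases hj : j < K + 1
    · refine le_trans ?_ le_sup_left
      exact le_iSup₂_of_le j (Finset.mem_range.2 hj) le_rfl
    · refine le_trans ?_ le_sup_right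
      intro r hr
      have h1 : r ∈ J p N ^ j := (pow_le_pow_left' hFJ j : F ^ j ≤ J p N ^ j) hr
      exact augp_anti p N K j (by omega) r (Jp_aug p N j r h1)
  have hS' : Subalgebra.toSubmodule (Algebra.adjoin ℤ_[p] (gen p N '' X)) ≤ L ⊔ A := by
    rw [Algebra.adjoin_eq_span, Submodule.span_le]
    intro w hw
    have : ∃ j, w ∈ F ^ j := by
      induction hw using Submonoid.closure_induction with
      | mem w hw => exact ⟨1, by rw [pow_one]; exact Submodule.subset_span hw⟩
      | one => exact ⟨0, by rw [pow_zero]; exact Submodule.one_le.1 le_rfl⟩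
      | mul a b _ _ ha hb =>
        obtain ⟨i, hi⟩ := ha
        obtain ⟨j, hj⟩ := hb
        exact ⟨i + j, by rw [pow_add]; exact Submodule.mul_mem_mul hi hj⟩
    obtain ⟨j, hj⟩ := this
    exact hFL j hj
  have hFpS : ∀ j, F ^ j ≤ Subalgebra.toSubmodule (Algebra.adjoin ℤ_[p] (gen p N '' X)) := by
    intro j
    induction j with
    | zero =>
      intro r hr
      obtain ⟨c, rfl⟩ := Submodule.mem_one.1 hr
      exact Subalgebra.algebraMap_mem _ c
    | succ j ih =>
      rw [pow_succ, Submodule.mul_le]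
      intro a ha b hb
      refine Subalgebra.mul_mem _ (ih ha) ?_
      have : F ≤ Subalgebra.toSubmodule (Algebra.adjoin ℤ_[p] (gen p N '' X)) :=
        Submodule.span_le.2 Algebra.subset_adjoin
      exact this hb
  have hU : ∀ n, U p N 1 ≤
      Subalgebra.toSubmodule (Algebra.adjoin ℤ_[p] (gen p N '' X)) ⊔ U p N (n + 1) := by
    intro n
    induction n with
    | zero => exact le_sup_right
    | succ n ih =>
      refine ih.trans (sup_le le_sup_left ?_)
      refine iSup_le fun j => ?_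
      rcases Nat.eq_zero_or_pos j with rfl | hj
      · rw [add_zero]
        exact (hst n).trans (sup_le_sup (hFpS _) le_rfl)
      · exact (J_le_U p N (n + 1 + 1) (n + 1 + j) (by omega)).trans le_sup_right
  refine ⟨L, Submodule.fg_biSup _ _ (fun j _ => hFfg.pow j), ?_, ?_⟩
  · exact iSup₂_le fun j _ => hFS j
  · have hQ : Subalgebra.toSubmodule (S p N) ≤
        Subalgebra.toSubmodule (Algebra.adjoin ℤ_[p] (gen p N '' X)) ⊔ A := by
      intro r hr
      have hr' : r ∈ Algebra.adjoin ℤ_[p] (Set.range (gen p N)) := hr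
      induction hr' using Algebra.adjoin_induction with
      | mem r hr' =>
        obtain ⟨y, rfl⟩ := hr'
        have h1 : gen p N y ∈ U p N 1 := by
          have h2 : gen p N y ∈ J p N ^ 1 := by
            rw [pow_one]; exact Submodule.subset_span ⟨y, rfl⟩
          exact J_le_U p N 1 1 le_rfl h2
        obtain ⟨s, hs, t, ht, e⟩ := Submodule.mem_sup.1 (hU K h1)
        rw [← e]
        exact Submodule.add_mem_sup hs (U_aug p N K t ht)
      | algebraMap c =>
        exact (le_sup_left : Subalgebra.toSubmodule (Algebra.adjoin ℤ_[p] (gen p N '' X)) ≤ _)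
          (Subalgebra.algebraMap_mem _ c)
      | add a b ha0 hb0 ha hb => exact add_mem (ha ha0) (hb hb0)
      | mul a b ha0 hb0 ha hb =>
        obtain ⟨s, hs, t, ht, e⟩ := Submodule.mem_sup.1 (ha ha0)
        obtain ⟨s', hs', t', ht', e'⟩ := Submodule.mem_sup.1 (hb hb0)
        have e2 : a * b = s * s' + (t * (s' + t') + s * t') := by
          rw [← e, ← e']; noncomm_ring
        rw [e2]
        refine Submodule.add_mem_sup (Subalgebra.mul_mem _ hs hs') ?_
        have h1 : t * (s' + t') ∈ aug ℚ_[p] N ^ (K + 1) := augp_mul p N K t _ ht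
        have h2 : s * t' ∈ aug ℚ_[p] N ^ (K + 1) := mul_augp p N K t' _ ht'
        exact add_mem h1 h2
    refine hQ.trans (sup_le hS' le_sup_right)


/-! ### the representation -/

section main
variable (W : Submodule ℚ_[p] (RR p N))

/-- the action on the quotient -/
noncomputable def qact (hW : ∀ (h : MulAut N) (r : RR p N), r ∈ W → act p N h r ∈ W) :
    MulAut N →* Module.End ℤ_[p] (RR p N ⧸ W.restrictScalars ℤ_[p]) where
  toFun h := Submodule.mapQ _ _ ((act p N h).toLinearMap.restrictScalars ℤ_[p])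
    (fun r hr => hW h r hr)
  map_one' := by
    apply Submodule.linearMap_qext
    refine LinearMap.ext fun r => ?_
    change Submodule.Quotient.mk (act p N 1 r) = Submodule.Quotient.mk r
    rw [act_one]
  map_mul' g h := by
    apply Submodule.linearMap_qext
    refine LinearMap.ext fun r => ?_
    change Submodule.Quotient.mk (act p N (g * h) r) =
      Submodule.Quotient.mk (act p N g (act p N h r))
    rw [act_mul]

theorem qact_mk (hW : ∀ (h : MulAut N) (r : RR p N), r ∈ W → act p N h r ∈ W) (h : MulAut N)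
    (r : RR p N) : qact p N W hW h ((W.restrictScalars ℤ_[p]).mkQ r) =
      (W.restrictScalars ℤ_[p]).mkQ (act p N h r) := rfl

/-- the lattice -/
noncomputable def MM : Submodule ℤ_[p] (RR p N ⧸ W.restrictScalars ℤ_[p]) :=
  (Subalgebra.toSubmodule (S p N)).map (W.restrictScalars ℤ_[p]).mkQ

theorem qact_MM (hW : ∀ (h : MulAut N) (r : RR p N), r ∈ W → act p N h r ∈ W) (h : MulAut N)
    (m : RR p N ⧸ W.restrictScalars ℤ_[p]) (hm : m ∈ MM p N W) :
    qact p N W hW h m ∈ MM p N W := by
  obtain ⟨r, hr, rfl⟩ := Submodule.mem_map.1 hm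
  rw [qact_mk]
  exact Submodule.mem_map.2 ⟨_, act_mem p N h r hr, rfl⟩

/-- the action on the lattice -/
noncomputable def lact (hW : ∀ (h : MulAut N) (r : RR p N), r ∈ W → act p N h r ∈ W) :
    MulAut N →* Module.End ℤ_[p] (MM p N W) where
  toFun h := (qact p N W hW h).restrict (qact_MM p N W hW h)
  map_one' := by
    ext1 m
    apply Subtype.ext
    rw [LinearMap.coe_restrict_apply, map_one]; rfl
  map_mul' g h := by
    ext1 m
    apply Subtype.ext
    rw [LinearMap.coe_restrict_apply, map_mul]; rfl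

theorem lact_coe (hW : ∀ (h : MulAut N) (r : RR p N), r ∈ W → act p N h r ∈ W) (h : MulAut N)
    (m : MM p N W) : ((lact p N W hW h m : MM p N W) : RR p N ⧸ W.restrictScalars ℤ_[p]) =
      qact p N W hW h m := rfl

theorem MM_finite [Group.FG (Abelianization N)] (K : ℕ) (hA : aug ℚ_[p] N ^ (K + 1) ≤ W) :
    Module.Finite ℤ_[p] (MM p N W) := by
  rw [Module.Finite.iff_fg]
  obtain ⟨L, hL, h1, h2⟩ := exists_fg p N K
  have : MM p N W = L.map (W.restrictScalars ℤ_[p]).mkQ := by
    apply le_antisymm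
    · unfold MM
      refine (Submodule.map_mono h2).trans ?_
      rw [Submodule.map_sup]
      refine sup_le le_rfl ?_
      rintro _ ⟨r, hr, rfl⟩
      have h3 : r ∈ W.restrictScalars ℤ_[p] := hA hr
      rw [(Submodule.Quotient.mk_eq_zero _).2 h3 |> fun h => (h : (W.restrictScalars ℤ_[p]).mkQ r = 0)]
      exact zero_mem _
    · exact Submodule.map_mono h1
  rw [this]
  exact hL.map _

theorem W_div (c : ℤ_[p]) (hc : c ≠ 0) (r : RR p N) (h : c • r ∈ W) : r ∈ W := by
  have h1 : algebraMap ℤ_[p] ℚ_[p] c ≠ 0 := by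
    rw [ne_eq, FaithfulSMul.algebraMap_eq_zero_iff]; exact hc
  have h2 := W.smul_mem (algebraMap ℤ_[p] ℚ_[p] c)⁻¹ h
  rwa [← algebraMap_smul ℚ_[p] c r, smul_smul, inv_mul_cancel₀ h1, one_smul] at h2

theorem MM_tf : Module.IsTorsionFree ℤ_[p] (MM p N W) := by
  refine ⟨fun c hc => ?_⟩
  have hc0 : c ≠ 0 := IsRegular.ne_zero hc
  intro m n hmn
  have hmn' : c • m = c • n := hmn
  have h1 : c • (m - n) = 0 := by rw [smul_sub, hmn', sub_self]
  obtain ⟨r, hr, e⟩ := Submodule.mem_map.1 (m - n).2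
  have h2 : c • (W.restrictScalars ℤ_[p]).mkQ r = 0 := by
    rw [e]; exact congrArg Subtype.val h1
  rw [← map_smul] at h2
  have h3 : c • r ∈ W := (Submodule.Quotient.mk_eq_zero _).1 h2
  have h4 : r ∈ W.restrictScalars ℤ_[p] := W_div p N W c hc0 r h3
  have h5 : (W.restrictScalars ℤ_[p]).mkQ r = 0 := (Submodule.Quotient.mk_eq_zero _).2 h4
  rw [e] at h5
  exact sub_eq_zero.1 (Subtype.ext h5)

theorem main [Group.FG (Abelianization N)] (K : ℕ) (hA : aug ℚ_[p] N ^ (K + 1) ≤ W)
    (hW : ∀ (h : MulAut N) (r : RR p N), r ∈ W → act p N h r ∈ W) :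
    ∃ (B : Type) (_ : Ring B) (_ : Algebra ℤ_[p] B) (_ : Module.Free ℤ_[p] B)
      (_ : Module.Finite ℤ_[p] B) (ψ : MulAut N →* Bˣ),
      (∀ h : MulAut N, TrivAb (p ^ 2) h → ∃ b : B, (ψ h : B) = 1 + (p : B) ^ 2 * b) ∧
      (∀ h : MulAut N, (∀ r : RR p N, act p N h r - r ∈ W) → ψ h = 1) ∧
      ∀ h : MulAut N, ψ h = 1 → ∀ x : N,
        MonoidAlgebra.of ℚ_[p] N (h x) - MonoidAlgebra.of ℚ_[p] N x ∈ W := by
  have := MM_finite p N W K hA
  have := MM_tf p N W
  have : Module.Free ℤ_[p] (MM p N W) := Module.free_of_finite_type_torsion_free'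
  refine ⟨Module.End ℤ_[p] (MM p N W), inferInstance, inferInstance, inferInstance, inferInstance,
    (lact p N W hW).toHomUnits, ?_, ?_, ?_⟩
  · intro h hh
    let b := Module.Free.chooseBasis ℤ_[p] (MM p N W)
    have key : ∀ m : MM p N W, ∃ m' : MM p N W, lact p N W hW h m = m + (p : ℤ_[p]) ^ 2 • m' := by
      intro m
      obtain ⟨r, hr, e⟩ := Submodule.mem_map.1 m.2
      obtain ⟨s, hs, e2⟩ := act_cong p N h hh r hr
      refine ⟨⟨(W.restrictScalars ℤ_[p]).mkQ s, Submodule.mem_map.2 ⟨s, hs, rfl⟩⟩, ?_⟩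
      apply Subtype.ext
      rw [lact_coe]
      change _ = (m : RR p N ⧸ W.restrictScalars ℤ_[p]) +
        (p : ℤ_[p]) ^ 2 • (W.restrictScalars ℤ_[p]).mkQ s
      rw [← e, qact_mk, ← map_smul, ← map_add]
      congr 1
      have e3 : (p : ℤ_[p]) ^ 2 • s = (p : RR p N) ^ 2 * s := by
        rw [Algebra.smul_def, map_pow, map_natCast]
      rw [e3, ← e2]; abel
    choose f hf using key
    refine ⟨b.constr ℤ_[p] (fun i => f (b i)), ?_⟩
    apply b.ext
    intro i
    rw [LinearMap.add_apply, Module.End.mul_apply, Module.Basis.constr_basis]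
    have e4 : ((p : Module.End ℤ_[p] (MM p N W)) ^ 2) (f (b i)) = (p : ℤ_[p]) ^ 2 • f (b i) := by
      have e5 : ((p : Module.End ℤ_[p] (MM p N W)) ^ 2) =
          algebraMap ℤ_[p] (Module.End ℤ_[p] (MM p N W)) ((p : ℤ_[p]) ^ 2) := by
        rw [map_pow, map_natCast]
      rw [e5, Module.algebraMap_end_apply]
    rw [e4]
    exact hf (b i)
  · intro h hh
    apply Units.ext
    change lact p N W hW h = 1
    ext1 m
    apply Subtype.ext
    rw [lact_coe]
    obtain ⟨r, hr, e⟩ := Submodule.mem_map.1 m.2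
    change _ = (m : RR p N ⧸ W.restrictScalars ℤ_[p])
    rw [← e, qact_mk]
    exact (Submodule.Quotient.eq _).2 (hh r)
  · intro h hh x
    have h1 : lact p N W hW h = 1 := congrArg Units.val hh
    have hm : (W.restrictScalars ℤ_[p]).mkQ (gen p N x) ∈ MM p N W :=
      Submodule.mem_map.2 ⟨_, gen_mem p N x, rfl⟩
    have h2 : ((lact p N W hW h ⟨_, hm⟩ : MM p N W) : RR p N ⧸ W.restrictScalars ℤ_[p]) =
        (W.restrictScalars ℤ_[p]).mkQ (gen p N x) := by
      rw [h1]; rfl
    rw [lact_coe] at h2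
    change qact p N W hW h ((W.restrictScalars ℤ_[p]).mkQ (gen p N x)) = _ at h2
    rw [qact_mk, act_gen] at h2
    have h3 : gen p N (h x) - gen p N x ∈ W := (Submodule.Quotient.eq _).1 h2
    have h4 := W.smul_mem ((p : ℚ_[p]) ^ 2) h3
    unfold gen at h4
    rw [← smul_sub, smul_smul, cast_mul_qq, one_smul] at h4
    unfold dd at h4
    rwa [sub_sub_sub_cancel_right] at h4

end main

theorem act_aug (h : MulAut N) (r : RR p N) (hr : r ∈ aug ℚ_[p] N) :
    act p N h r ∈ aug ℚ_[p] N := by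
  unfold aug at hr
  induction hr using Submodule.span_induction with
  | mem r hr =>
    obtain ⟨x, rfl⟩ := hr
    have := act_dd p N h x
    unfold dd at this
    rw [this]
    exact dd_aug p N (h x)
  | zero => rw [map_zero]; exact zero_mem _
  | add a b _ _ ha hb => rw [map_add]; exact add_mem ha hb
  | smul c a _ ha => rw [map_smul]; exact Submodule.smul_mem _ c ha

theorem act_augp (n : ℕ) (h : MulAut N) (r : RR p N) (hr : r ∈ aug ℚ_[p] N ^ n) :
    act p N h r ∈ aug ℚ_[p] N ^ n := by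
  induction n generalizing r with
  | zero =>
    rw [pow_zero] at hr ⊢
    obtain ⟨c, rfl⟩ := Submodule.mem_one.1 hr
    rw [AlgHom.commutes]
    exact Submodule.mem_one.2 ⟨c, rfl⟩
  | succ n ih =>
    rw [pow_succ] at hr ⊢
    induction hr using Submodule.mul_induction_on' with
    | mem_mul_mem a ha b hb => rw [map_mul]; exact Submodule.mul_mem_mul (ih a ha) (act_aug p N h b hb)
    | add a _ b _ ha hb => rw [map_add]; exact add_mem ha hb

theorem act_cm (h : MulAut N) (r : RR p N) (hr : r ∈ cm ℚ_[p] N) :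
    act p N h r ∈ cm ℚ_[p] N := by
  unfold cm at hr
  induction hr using Submodule.span_induction with
  | mem r hr =>
    obtain ⟨⟨a, b⟩, rfl⟩ := hr
    change act p N h (a * b - b * a) ∈ _
    rw [map_sub, map_mul, map_mul]
    exact Submodule.subset_span ⟨(act p N h a, act p N h b), rfl⟩
  | zero => rw [map_zero]; exact zero_mem _
  | add a b _ _ ha hb => rw [map_add]; exact add_mem ha hb
  | smul c a _ ha => rw [map_smul]; exact Submodule.smul_mem _ c ha

theorem conj_cm (y : N) (r : RR p N) : act p N (MulAut.conj y) r - r ∈ cm ℚ_[p] N := by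
  induction r using MonoidAlgebra.induction_on with
  | of x =>
    change act p N (MulAut.conj y) (MonoidAlgebra.of ℚ_[p] N x) - MonoidAlgebra.of ℚ_[p] N x ∈ _
    rw [act_of, MulAut.conj_apply]
    have : MonoidAlgebra.of ℚ_[p] N (y * x * y⁻¹) - MonoidAlgebra.of ℚ_[p] N x =
        MonoidAlgebra.of ℚ_[p] N (y * x) * MonoidAlgebra.of ℚ_[p] N y⁻¹ -
        MonoidAlgebra.of ℚ_[p] N y⁻¹ * MonoidAlgebra.of ℚ_[p] N (y * x) := by
      rw [← map_mul, ← map_mul, inv_mul_cancel_left]
    rw [this]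
    exact Submodule.subset_span ⟨(_, _), rfl⟩
  | add a b ha hb =>
    rw [map_add]
    have : act p N (MulAut.conj y) a + act p N (MulAut.conj y) b - (a + b) =
      (act p N (MulAut.conj y) a - a) + (act p N (MulAut.conj y) b - b) := by abel
    rw [this]; exact add_mem ha hb
  | smul c a ha => rw [map_smul, ← smul_sub]; exact Submodule.smul_mem _ c ha

end

end Pool.Agent.H371.SB.S45x

namespace Pool.Agent.H371.SB

open S45x

/-! ## TASK SB-4 : lattices in the group algebra modulo powers of the augmentation ideal -/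

theorem exists_rep (p : ℕ) [Fact p.Prime] (N : Type) [Group N] [Group.FG (Abelianization N)]
    (K : ℕ) :
    ∃ (B : Type) (_ : Ring B) (_ : Algebra ℤ_[p] B) (_ : Module.Free ℤ_[p] B)
      (_ : Module.Finite ℤ_[p] B) (ψ : MulAut N →* Bˣ),
      (∀ h : MulAut N, TrivAb (p ^ 2) h → ∃ b : B, (ψ h : B) = 1 + (p : B) ^ 2 * b) ∧
      ∀ h : MulAut N, ψ h = 1 → ∀ x : N,
        MonoidAlgebra.of ℚ_[p] N (h x) - MonoidAlgebra.of ℚ_[p] N x ∈ (aug ℚ_[p] N) ^ (K + 1) := by
  obtain ⟨B, i1, i2, i3, i4, ψ, h1, _, h3⟩ := main p N (aug ℚ_[p] N ^ (K + 1)) K le_rfl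
    (fun h r hr => act_augp p N _ h r hr)
  exact ⟨B, i1, i2, i3, i4, ψ, h1, h3⟩

/-! ## TASK SB-5 : the same for outer automorphisms -/

theorem exists_rep_out (p : ℕ) [Fact p.Prime] (N : Type) [Group N] [Group.FG (Abelianization N)]
    (K : ℕ) :
    ∃ (B : Type) (_ : Ring B) (_ : Algebra ℤ_[p] B) (_ : Module.Free ℤ_[p] B)
      (_ : Module.Finite ℤ_[p] B) (ψ : MulAut N →* Bˣ),
      (∀ h : MulAut N, TrivAb (p ^ 2) h → ∃ b : B, (ψ h : B) = 1 + (p : B) ^ 2 * b) ∧
      (∀ y : N, ψ (MulAut.conj y) = 1) ∧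
      ∀ h : MulAut N, ψ h = 1 → ∀ x : N,
        MonoidAlgebra.of ℚ_[p] N (h x) - MonoidAlgebra.of ℚ_[p] N x ∈
          (aug ℚ_[p] N) ^ (K + 1) ⊔ cm ℚ_[p] N := by
  obtain ⟨B, i1, i2, i3, i4, ψ, h1, h2, h3⟩ := main p N (aug ℚ_[p] N ^ (K + 1) ⊔ cm ℚ_[p] N) K
    le_sup_left (by
      intro h r hr
      obtain ⟨a, ha, b, hb, rfl⟩ := Submodule.mem_sup.1 hr
      rw [map_add]
      exact Submodule.add_mem_sup (act_augp p N _ h a ha) (act_cm p N h b hb))
  exact ⟨B, i1, i2, i3, i4, ψ, h1, fun y => h2 _ fun r =>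
    (le_sup_right : cm ℚ_[p] N ≤ _) (conj_cm p N y r), h3⟩

end Pool.Agent.H371.SB
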