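import Pool.Agent.H371.SA.Defs

/-!
Definitions for the second part: groups which are residually `p`-adic analytic over a fixed base.
-/

set_option autoImplicit false

namespace Pool.Agent.H371.SB

open Pool.Agent.H371.SA

/-- `G` maps to a group `P` of units of a `p`-adic order which contains a congruence subgroup; on
`P` there is a virtual continuous character `f` with `f 1 = c` which vanishes at all nontrivial
elements of `p`-power order; and the points of `G` are separated by homomorphisms `ψ` to unit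
groups of `p`-adic orders such that `ψ h` is congruent to `1` modulo `p ^ 2` whenever the image of
`h` in `P` is congruent to `1` modulo a suitable power of `p`. -/
def GR (p : ℕ) [Fact p.Prime] (c : ℕ) (G : Type) [Group G] : Prop :=
  ∃ (A : Type) (_ : Ring A) (_ : Algebra ℤ_[p] A) (_ : Module.Free ℤ_[p] A)
    (_ : Module.Finite ℤ_[p] A) (P : Subgroup Aˣ) (k : ℕ) (φ : G →* P) (f : P → ℤ_[p]),
    2 < p ^ k ∧ (∀ u : Aˣ, (∃ a : A, (u : A) = 1 + (p : A) ^ k * a) → u ∈ P) ∧
    f ∈ AC p P ∧ f 1 = c ∧
    (∀ t : P, t ≠ 1 → ∀ a : ℕ, t ^ (p ^ a) = 1 → f t = 0) ∧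
    ∀ g : G, g ≠ 1 → ∃ (l : ℕ) (B : Type) (_ : Ring B) (_ : Algebra ℤ_[p] B)
      (_ : Module.Free ℤ_[p] B) (_ : Module.Finite ℤ_[p] B) (ψ : G →* Bˣ),
      (∀ h : G, (∃ a : A, ((φ h : Aˣ) : A) = 1 + (p : A) ^ l * a) →
        ∃ b : B, (ψ h : B) = 1 + (p : B) ^ 2 * b) ∧ ψ g ≠ 1

/-- `h` acts trivially on the abelianization modulo `m`-th powers -/
def TrivAb {N : Type} [Group N] (m : ℕ) (h : MulAut N) : Prop :=
  ∀ x : N, ∃ y : N, Abelianization.of (h x) = Abelianization.of (x * y ^ m)

/-- the augmentation ideal -/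
noncomputable def aug (k : Type) [Field k] (N : Type) [Group N] :
    Submodule k (MonoidAlgebra k N) :=
  Submodule.span k (Set.range fun x : N => MonoidAlgebra.of k N x - 1)

/-- the span of the commutators -/
noncomputable def cm (k : Type) [Field k] (N : Type) [Group N] :
    Submodule k (MonoidAlgebra k N) :=
  Submodule.span k (Set.range fun a : MonoidAlgebra k N × MonoidAlgebra k N =>
    a.1 * a.2 - a.2 * a.1)

/-- residually torsion-free nilpotent groups -/
def RTFN (N : Type) [Group N] : Prop :=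
  ∀ x : N, x ≠ 1 → ∃ (L : Subgroup N) (_ : L.Normal), x ∉ L ∧ Group.IsNilpotent (N ⧸ L) ∧
    ∀ (y : N ⧸ L) (m : ℕ), m ≠ 0 → y ^ m = 1 → y = 1

/-- the outer automorphism group -/
def innS (N : Type) [Group N] : Subgroup (MulAut N) := (MulAut.conj : N →* MulAut N).range

instance (N : Type) [Group N] : (innS N).Normal := by
  constructor
  rintro _ ⟨y, rfl⟩ g
  exact ⟨g y, by ext x; simp [MulAut.mul_apply]⟩

end Pool.Agent.H371.SB
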