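import Pool.Agent.H371.SB.Defs
import Pool.Agent.H371.SA.TP

/-! TASK SB-7: finite subgroups of `Aut(F_n)`. -/

set_option autoImplicit false

namespace Pool.Agent.H371.SB

open Pool.Agent.H371.SA

namespace T7x

variable (K p r : ℕ)

/-- the index set of the generators -/
abbrev Ix := (Fin K × {a : ZMod p // a ≠ 0}) ⊕ Fin r

/-- the wreath product -/
abbrev W := SemidirectProduct (Fin K → Multiplicative (ZMod p)) (Equiv.Perm (Fin K)) (Px.act K)

/-- the generator of a point, trivial at the base points -/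
noncomputable def Y (x : Fin K × ZMod p) : FreeGroup (Ix K p r) :=
  if h : x.2 = 0 then 1 else FreeGroup.of (Sum.inl (x.1, ⟨x.2, h⟩))

/-- the action of the wreath product on the points -/
def mv (w : W K p) (x : Fin K × ZMod p) : Fin K × ZMod p :=
  (w.right x.1, x.2 + (w.left (w.right x.1)).toAdd)

theorem mv_one (x : Fin K × ZMod p) : mv K p 1 x = x := by
  simp [mv]

theorem mv_mul (w w' : W K p) (x : Fin K × ZMod p) :
    mv K p (w * w') x = mv K p w (mv K p w' x) := by
  refine Prod.ext ?_ ?_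
  · simp [mv]
  · simp only [mv, SemidirectProduct.mul_right, SemidirectProduct.mul_left, Equiv.Perm.mul_apply]
    change x.2 + ((w.left (w.right (w'.right x.1))) *
      (w'.left (w.right⁻¹ (w.right (w'.right x.1))))).toAdd = _
    rw [toAdd_mul, show w.right⁻¹ (w.right (w'.right x.1)) = w'.right x.1 from
      w.right.symm_apply_apply _]
    ring

theorem Y_zero (i : Fin K) : Y K p r (i, 0) = 1 := by
  simp [Y]

theorem Y_ne (i : Fin K) (a : ZMod p) (h : a ≠ 0) :
    Y K p r (i, a) = FreeGroup.of (Sum.inl (i, ⟨a, h⟩)) := by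
  simp [Y, h]

/-- the endomorphism of the free group -/
noncomputable def ph (w : W K p) : FreeGroup (Ix K p r) →* FreeGroup (Ix K p r) :=
  FreeGroup.lift (Sum.elim
    (fun s => Y K p r (mv K p w (s.1, s.2.1)) * (Y K p r (mv K p w (s.1, 0)))⁻¹)
    (fun j => FreeGroup.of (Sum.inr j)))

theorem ph_inl (w : W K p) (i : Fin K) (a : {a : ZMod p // a ≠ 0}) :
    ph K p r w (FreeGroup.of (Sum.inl (i, a))) =
      Y K p r (mv K p w (i, a.1)) * (Y K p r (mv K p w (i, 0)))⁻¹ := by
  simp [ph]

theorem ph_inr (w : W K p) (j : Fin r) :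
    ph K p r w (FreeGroup.of (Sum.inr j)) = FreeGroup.of (Sum.inr j) := by
  simp [ph]

theorem ph_Y (w : W K p) (x : Fin K × ZMod p) :
    ph K p r w (Y K p r x) = Y K p r (mv K p w x) * (Y K p r (mv K p w (x.1, 0)))⁻¹ := by
  obtain ⟨i, a⟩ := x
  by_cases h : a = 0
  · subst h
    rw [Y_zero, map_one, mul_inv_cancel]
  · rw [Y_ne K p r i a h, ph_inl]

theorem mv_fst (w : W K p) (i : Fin K) (a : ZMod p) : (mv K p w (i, a)).1 = w.right i := rfl

theorem ph_mul (w w' : W K p) : ph K p r (w * w') = (ph K p r w).comp (ph K p r w') := by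
  ext s
  rcases s with ⟨i, a⟩ | j
  · rw [MonoidHom.comp_apply, ph_inl, ph_inl, map_mul, map_inv, ph_Y, ph_Y, mv_mul, mv_mul,
      mv_fst, mv_fst]
    group
  · rw [MonoidHom.comp_apply, ph_inr, ph_inr, ph_inr]

theorem ph_one : ph K p r 1 = MonoidHom.id _ := by
  ext s
  rcases s with ⟨i, a⟩ | j
  · rw [ph_inl, mv_one, mv_one, Y_zero, inv_one, mul_one, Y_ne K p r i a.1 a.2]
    rfl
  · rw [ph_inr]; rfl

/-- the action of the wreath product -/
noncomputable def Ph : W K p →* MulAut (FreeGroup (Ix K p r)) where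
  toFun w := MonoidHom.toMulEquiv (ph K p r w) (ph K p r w⁻¹)
    (by rw [← ph_mul, inv_mul_cancel, ph_one]) (by rw [← ph_mul, mul_inv_cancel, ph_one])
  map_one' := by
    ext x
    change ph K p r 1 x = x
    rw [ph_one]; rfl
  map_mul' w w' := by
    ext x
    change ph K p r (w * w') x = ph K p r w (ph K p r w' x)
    rw [ph_mul]; rfl

theorem Ph_apply (w : W K p) (x : FreeGroup (Ix K p r)) : Ph K p r w x = ph K p r w x := rfl

open Classical in
/-- the exponent of a generator -/
noncomputable def ch (s : Ix K p r) : FreeGroup (Ix K p r) →* Multiplicative ℤ :=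
  FreeGroup.lift (fun t => if t = s then Multiplicative.ofAdd 1 else 1)

open Classical in
theorem ch_Y (i : Fin K) (a : ZMod p) (h : a ≠ 0) (x : Fin K × ZMod p) :
    ch K p r (Sum.inl (i, ⟨a, h⟩)) (Y K p r x) =
      if x = (i, a) then Multiplicative.ofAdd 1 else 1 := by
  obtain ⟨j, b⟩ := x
  by_cases hb : b = 0
  · subst hb
    rw [Y_zero, map_one, if_neg]
    intro h1
    exact h (Prod.mk.inj h1).2.symm
  · rw [Y_ne K p r j b hb]
    simp only [ch, FreeGroup.lift_apply_of, Sum.inl.injEq, Prod.mk.injEq, Subtype.mk.injEq]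

theorem Ph_trivial (hp : 2 ≤ p) (w : W K p)
    (hw : ∀ x, Abelianization.of (Ph K p r w x) = Abelianization.of x) : w = 1 := by
  classical
  have : Fact (1 < p) := ⟨hp⟩
  have key : ∀ (i : Fin K) (a : ZMod p), a ≠ 0 → mv K p w (i, a) = (i, a) := by
    intro i a ha
    have h1 := congrArg (Abelianization.lift (ch K p r (Sum.inl (i, ⟨a, ha⟩))))
      (hw (Y K p r (i, a)))
    rw [Abelianization.lift_apply_of, Abelianization.lift_apply_of, Ph_apply, ph_Y, map_mul,
      map_inv, ch_Y, ch_Y, ch_Y, if_pos rfl] at h1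
    by_contra hne
    rw [if_neg hne] at h1
    split_ifs at h1
    · have h2 := congrArg Multiplicative.toAdd h1
      simp at h2
    · have h2 := congrArg Multiplicative.toAdd h1
      simp at h2
  have h1 : w.right = 1 := by
    ext i
    have := congrArg Prod.fst (key i 1 one_ne_zero)
    rw [mv_fst] at this
    rw [this]; rfl
  refine SemidirectProduct.ext ?_ h1
  funext i
  have := congrArg Prod.snd (key i 1 one_ne_zero)
  simp only [mv, h1, Equiv.Perm.coe_one, id_eq, add_eq_left] at this
  exact toAdd_eq_zero.1 this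

end T7x

theorem exists_finite_aut (p n K : ℕ) (hp : 2 ≤ p) (h : K * (p - 1) ≤ n) :
    ∃ H : Subgroup (MulAut (FreeGroup (Fin n))), Finite H ∧
      Nat.card H = p ^ K * K.factorial ∧
      ∀ h ∈ H, (∀ x, Abelianization.of (h x) = Abelianization.of x) → h = 1 := by
  classical
  have : NeZero p := ⟨by omega⟩
  obtain ⟨r, rfl⟩ := Nat.exists_eq_add_of_le h
  have hcard : Fintype.card (T7x.Ix K p r) = Fintype.card (Fin (K * (p - 1) + r)) := by
    rw [Fintype.card_sum, Fintype.card_prod, Fintype.card_fin, Fintype.card_fin, Fintype.card_fin]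
    congr 2
    rw [Fintype.card_subtype_compl, ZMod.card, Fintype.card_subtype_eq]
  let e : T7x.Ix K p r ≃ Fin (K * (p - 1) + r) := Fintype.equivOfCardEq hcard
  let E : FreeGroup (T7x.Ix K p r) ≃* FreeGroup (Fin (K * (p - 1) + r)) :=
    FreeGroup.freeGroupCongr e
  let F : T7x.W K p →* MulAut (FreeGroup (Fin (K * (p - 1) + r))) :=
    (MulAut.congr E : _ →* _).comp (T7x.Ph K p r)
  have hFa : ∀ w x, F w x = E (T7x.Ph K p r w (E.symm x)) := fun _ _ => rfl
  have key : ∀ w, (∀ x, Abelianization.of (F w x) = Abelianization.of x) → w = 1 := by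
    intro w hw
    refine T7x.Ph_trivial K p r hp w ?_
    intro x
    have h1 := congrArg (Abelianization.map E.symm.toMonoidHom) (hw (E x))
    rw [Abelianization.map_of, Abelianization.map_of, hFa] at h1
    simpa using h1
  have hF : Function.Injective F := by
    rw [injective_iff_map_eq_one]
    intro w hw
    refine key w ?_
    intro x
    rw [hw]; rfl
  have : Finite (T7x.W K p) := Finite.of_equiv _ (SemidirectProduct.equivProd).symm
  refine ⟨F.range, Finite.of_surjective F.rangeRestrict F.rangeRestrict_surjective, ?_, ?_⟩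
  · rw [← Nat.card_congr (Equiv.ofBijective F.rangeRestrict
      ⟨F.rangeRestrict_injective_iff.2 hF, F.rangeRestrict_surjective⟩), Px.card_wr]
    rw [Nat.card_congr Multiplicative.toAdd, Nat.card_zmod]
  · rintro _ ⟨w, rfl⟩ hw
    rw [key w hw, map_one]

end Pool.Agent.H371.SB
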