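import Pool.Agent.H371.SB.Defs
import Pool.Graph.R_pool_sql_team_b88adf34.H9Lau.Magnus

/-!
TASK SB-9: free groups are residually torsion-free nilpotent, through the coefficients
`cf w` (for words `w` without equal neighbours) of the Magnus type expansion of the library.
-/

set_option autoImplicit false

namespace Pool.Agent.H371.SB

namespace SB9x

open Pool.Agent.H9Lau

variable {α : Type}

theorem cf_congr_left {v : List α} (hv : v.IsChain (· ≠ ·)) {a b c : FreeGroup α}
    (h : ∀ u : List α, u.IsChain (· ≠ ·) → u.length ≤ v.length → cf u a = cf u b) :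
    cf v (a * c) = cf v (b * c) := by
  rw [cf_mul v hv, cf_mul v hv]
  apply Finset.sum_congr rfl
  intro i _
  rw [h (v.take i) (hv.take i) (by rw [List.length_take]; exact min_le_right _ _)]

theorem cf_one {v : List α} (hne : v ≠ []) : cf v (1 : FreeGroup α) = 0 := by
  rw [cf, FreeGroup.one_eq_mk, rho_one]
  simp [dl, hne]

/-- the elements with vanishing coefficients of degree `1, ..., k - 1` -/
def S (α : Type) (k : ℕ) : Set (FreeGroup α) :=
  {g | ∀ v : List α, v.IsChain (· ≠ ·) → v ≠ [] → v.length < k → cf v g = 0}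

theorem mul_inv_mem {k : ℕ} {a b : FreeGroup α}
    (h : ∀ v : List α, v.IsChain (· ≠ ·) → v.length < k → cf v a = cf v b) :
    a * b⁻¹ ∈ S α k := by
  intro v hv hne hk
  rw [cf_congr_left hv (b := b) (fun u hu hl => h u hu (lt_of_le_of_lt hl hk)), mul_inv_cancel,
    cf_one hne]

theorem cf_mul_left {k : ℕ} {g : FreeGroup α} (hg : g ∈ S α k) (h : FreeGroup α) {v : List α}
    (hv : v.IsChain (· ≠ ·)) (hne : v ≠ []) (hk : v.length ≤ k) :
    cf v (g * h) = cf v g + cf v h := by
  apply cf_add1 v hv hne g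
  intro i hi hil
  apply hg (v.take i) (hv.take i)
  · intro h0
    rw [List.take_eq_nil_iff] at h0
    rcases h0 with h0 | h0
    · omega
    · exact hne h0
  · rw [List.length_take]
    omega

theorem cf_mul_right {k : ℕ} {g : FreeGroup α} (hg : g ∈ S α k) (h : FreeGroup α) {v : List α}
    (hv : v.IsChain (· ≠ ·)) (hne : v ≠ []) (hk : v.length ≤ k) :
    cf v (h * g) = cf v h + cf v g := by
  apply cf_add2 v hv hne g
  intro i hi hil
  apply hg (v.drop i) (hv.drop i)
  · intro h0
    rw [List.drop_eq_nil_iff] at h0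
    omega
  · rw [List.length_drop]
    omega

theorem comm_mem {k : ℕ} {g : FreeGroup α} (hg : g ∈ S α k) (h : FreeGroup α) :
    g * h * g⁻¹ * h⁻¹ ∈ S α (k + 1) := by
  have e : g * h * g⁻¹ * h⁻¹ = (g * h) * (h * g)⁻¹ := by group
  rw [e]
  apply mul_inv_mem
  intro v hv hk
  by_cases hne : v = []
  · subst hne; rw [cf_nil, cf_nil]
  · rw [cf_mul_left hg h hv hne (by omega), cf_mul_right hg h hv hne (by omega), add_comm]

/-- the subgroup -/
def SS (α : Type) (k : ℕ) : Subgroup (FreeGroup α) where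
  carrier := S α k
  one_mem' := fun v _ hne _ => cf_one hne
  mul_mem' := by
    intro a b ha hb v hv hne hk
    rw [cf_mul_left ha b hv hne hk.le, ha v hv hne hk, hb v hv hne hk, add_zero]
  inv_mem' := by
    intro a ha
    have := mul_inv_mem (k := k) (a := 1) (b := a) (by
      intro v hv hk
      by_cases hne : v = []
      · subst hne; rw [cf_nil, cf_nil]
      · rw [cf_one hne, ha v hv hne hk])
    simpa using this

theorem mem_SS {k : ℕ} {g : FreeGroup α} : g ∈ SS α k ↔ g ∈ S α k := Iff.rfl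

theorem SS_anti {k l : ℕ} (h : k ≤ l) : SS α l ≤ SS α k :=
  fun _ hg v hv hne hk => hg v hv hne (by omega)

instance SS_normal (k : ℕ) : (SS α k).Normal := by
  constructor
  intro g hg h
  have h1 : g * h * g⁻¹ * h⁻¹ ∈ SS α k := SS_anti (Nat.le_succ k) (comm_mem hg h)
  have h2 := (SS α k).mul_mem ((SS α k).inv_mem h1) hg
  have e : (g * h * g⁻¹ * h⁻¹)⁻¹ * g = h * g * h⁻¹ := by group
  rwa [e] at h2

theorem SS_one : SS α 1 = ⊤ := by
  rw [eq_top_iff]
  intro g _ v _ hne hk
  exact absurd (List.length_eq_zero_iff.1 (by omega)) hne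

theorem SS_root {k r m : ℕ} (hm : m ≠ 0) {g : FreeGroup α} (hg : g ^ m ∈ SS α (r + 1))
    (hk : k ≤ r) : g ∈ SS α (k + 1) := by
  induction k with
  | zero => rw [Nat.zero_add, SS_one]; trivial
  | succ k ih =>
    have h1 := ih (by omega)
    intro v hv hne hlt
    have h2 : ∀ j : ℕ, cf v (g ^ j) = j * cf v g := by
      intro j
      induction j with
      | zero => rw [pow_zero, cf_one hne]; simp
      | succ j ihj =>
        rw [pow_succ', cf_mul_left h1 (g ^ j) hv hne (by omega), ihj]
        push_cast; ring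
    have h3 : cf v (g ^ m) = 0 := hg v hv hne (by omega)
    rw [h2 m] at h3
    rcases mul_eq_zero.1 h3 with h4 | h4
    · exact absurd (by exact_mod_cast h4) hm
    · exact h4

theorem nilp (r : ℕ) : Group.IsNilpotent (FreeGroup α ⧸ SS α (r + 1)) := by
  rw [Subgroup.nilpotent_iff_finite_descending_central_series]
  refine ⟨r, fun k => (SS α (k + 1)).map (QuotientGroup.mk' (SS α (r + 1))), ⟨?_, ?_⟩, ?_⟩
  · simp only [Nat.zero_add]
    rw [SS_one, Subgroup.map_top_of_surjective _ (QuotientGroup.mk'_surjective _)]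
  · rintro x n ⟨g, hg, rfl⟩ y
    obtain ⟨h, rfl⟩ := QuotientGroup.mk'_surjective _ y
    exact ⟨g * h * g⁻¹ * h⁻¹, comm_mem hg h, by simp [commutatorElement_def]⟩
  · rw [eq_bot_iff]
    rintro _ ⟨g, hg, rfl⟩
    rw [Subgroup.mem_bot]
    exact (QuotientGroup.eq_one_iff g).2 hg

end SB9x

open SB9x Pool.Agent.H9Lau in
theorem free_rtfn (n : ℕ) : RTFN (FreeGroup (Fin n)) := by
  intro x hx
  obtain ⟨w, hw, hne, hcf⟩ := cf_sep x hx
  refine ⟨SS (Fin n) (w.length + 1), inferInstance, ?_, nilp _, ?_⟩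
  · intro h
    exact hcf (h w hw hne (Nat.lt_succ_self _))
  · intro y m hm hy
    obtain ⟨g, rfl⟩ := QuotientGroup.mk_surjective y
    rw [← QuotientGroup.mk_pow] at hy
    rw [QuotientGroup.eq_one_iff] at hy ⊢
    exact SS_root hm hy le_rfl

end Pool.Agent.H371.SB
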