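import Pool.Agent.H371.SB.U11
import Pool.Agent.H371.SB.U7
import Pool.Agent.H371.SB.U9

/-!
Final forms: the dimension formula, automorphism groups of quotients of free groups, outer
automorphism groups of free groups.
-/

set_option autoImplicit false

namespace Pool.Agent.H371.SB

open Filter Topology
open Pool.Agent.H371.SA
open Pool.Agent.H80R2.BC (L2 GMat vdim kerA Coef act)
open Pool.Agent.W656.VA

/-- the dimension of the kernel of right multiplication, by an explicit formula -/
noncomputable def kd {G : Type} [Group G] [DecidableEq G] {k n : ℕ}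
    (A : Matrix (Fin k) (Fin n) (G →₀ ℂ)) : ℝ :=
  ∑ j : Fin k,
      (1 - Metric.infDist
          (lp.single 2 (j, (1 : G)) (1 : ℂ) : lp (fun _ : Fin k × G => ℂ) 2)
          {x : lp (fun _ : Fin k × G => ℂ) 2 | ∀ i : Fin n, ∀ g : G,
              ∑ j' : Fin k, (A j' i).sum (fun h c => x (j', g * h⁻¹) * c) = 0} ^ 2)

theorem CR.kd_int {G : Type} [Group G] [DecidableEq G] {d : ℕ} (hG : CR G d) (k n : ℕ)
    (A : Matrix (Fin k) (Fin n) (G →₀ ℂ)) : ∃ z : ℤ, (d : ℝ) * kd A = z := by
  let A' : GMat (Fin n) (Fin k) G := fun i j => (A j i).equivMapDomain (Equiv.inv G)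
  obtain ⟨z, hz⟩ := CR.main hG _ (val_of A' (R := ⊤) fun _ _ _ => Subring.mem_top _)
  refine ⟨z, ?_⟩
  rw [← hz]
  have hS : ({x : lp (fun _ : Fin k × G => ℂ) 2 | ∀ i : Fin n, ∀ g : G,
      ∑ j' : Fin k, (A j' i).sum (fun h c => x (j', g * h⁻¹) * c) = 0} :
      Set (lp (fun _ : Fin k × G => ℂ) 2)) = (kerA A' : Set (L2 (Fin k × G))) := by
    ext x
    change _ ↔ ∀ i g, act A' x i g = 0
    refine forall_congr' fun i => forall_congr' fun g => ?_
    have : act A' x i g = ∑ j' : Fin k, (A j' i).sum (fun h c => x (j', g * h⁻¹) * c) := by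
      unfold act
      refine Finset.sum_congr rfl fun j _ => ?_
      change ((A j i).equivMapDomain (Equiv.inv G)).sum _ = _
      rw [Finsupp.sum_equivMapDomain, Finsupp.sum, Finsupp.sum]
      refine Finset.sum_congr rfl fun h _ => ?_
      rw [mul_comm]
      rfl
    rw [this]
  have hv : vdim (kerA A') = kd A := by
    unfold vdim SB.kd
    rw [hS]
    refine Finset.sum_congr rfl fun j _ => ?_
    have e : Pool.Agent.H80R2.BC.dl G j =
        (lp.single 2 (j, (1 : G)) (1 : ℂ) : lp (fun _ : Fin k × G => ℂ) 2) := by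
      unfold Pool.Agent.H80R2.BC.dl
      congr 1
      exact Subsingleton.elim _ _
    rw [e]
  rw [← hv]

/-! ### quotients of free groups -/

/-- the action on a characteristic quotient -/
noncomputable def quoAut {N : Type} [Group N] (V : Subgroup N) [V.Characteristic] :
    MulAut N →* MulAut (N ⧸ V) :=
  MonoidHom.mk' (fun h => QuotientGroup.congr V V h
    (Subgroup.characteristic_iff_map_eq.1 inferInstance h)) (by
    intro g h
    ext x
    obtain ⟨y, rfl⟩ := QuotientGroup.mk_surjective x
    rfl)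

theorem quoAut_mk {N : Type} [Group N] (V : Subgroup N) [V.Characteristic] (h : MulAut N) (x : N) :
    quoAut V h (x : N ⧸ V) = ((h x : N) : N ⧸ V) := rfl

theorem ab_quo_inj {N : Type} [Group N] (V : Subgroup N) [V.Normal] (hV : V ≤ commutator N)
    (x y : N) (h : Abelianization.of (x : N ⧸ V) = Abelianization.of (y : N ⧸ V)) :
    Abelianization.of x = Abelianization.of y := by
  have h1 : Abelianization.of ((x⁻¹ * y : N) : N ⧸ V) = 1 := by
    rw [QuotientGroup.mk_mul, QuotientGroup.mk_inv, map_mul, map_inv, h, inv_mul_cancel]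
  have h2 : ((x⁻¹ * y : N) : N ⧸ V) ∈ commutator (N ⧸ V) := by
    rw [← Abelianization.ker_of]
    exact h1
  have h3 : (commutator N).map (QuotientGroup.mk' V) = commutator (N ⧸ V) := by
    rw [commutator_def, commutator_def, Subgroup.map_commutator,
      Subgroup.map_top_of_surjective _ (QuotientGroup.mk'_surjective V)]
  rw [← h3] at h2
  obtain ⟨c, hc, hc2⟩ := h2
  have h4 : c⁻¹ * (x⁻¹ * y) ∈ V := QuotientGroup.eq.1 hc2
  have h5 : x⁻¹ * y ∈ commutator N := by
    have := mul_mem hc (hV h4)
    rwa [mul_inv_cancel_left] at this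
  have h6 : Abelianization.of (x⁻¹ * y) = 1 := by
    rw [← Abelianization.ker_of] at h5
    exact h5
  rw [map_mul, map_inv, inv_mul_eq_one] at h6
  exact h6

/-- the abelianization of the quotient -/
noncomputable def abQuo {N : Type} [Group N] (V : Subgroup N) [V.Normal] (hV : V ≤ commutator N) :
    Abelianization N ≃* Abelianization (N ⧸ V) :=
  MulEquiv.ofBijective (Abelianization.map (QuotientGroup.mk' V)) (by
    constructor
    · intro a b hab
      obtain ⟨x, rfl⟩ := QuotientGroup.mk_surjective (s := commutator N) a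
      obtain ⟨y, rfl⟩ := QuotientGroup.mk_surjective (s := commutator N) b
      exact ab_quo_inj V hV x y hab
    · intro a
      obtain ⟨x, rfl⟩ := QuotientGroup.mk_surjective (s := commutator (N ⧸ V)) a
      obtain ⟨y, rfl⟩ := QuotientGroup.mk_surjective x
      exact ⟨Abelianization.of y, rfl⟩)

theorem card_map {A B : Type} [Group A] [Group B] (f : A →* B) (H : Subgroup A)
    (h : ∀ x ∈ H, f x = 1 → x = 1) : Nat.card (H.map f) = Nat.card H := by
  have hinj : Function.Injective (f.comp H.subtype) := by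
    rw [injective_iff_map_eq_one]
    intro x hx
    exact Subtype.ext (h x x.2 hx)
  have : H.map f = (f.comp H.subtype).range := by
    rw [MonoidHom.range_comp, Subgroup.range_subtype]
  rw [this]
  exact (Nat.card_congr (MonoidHom.ofInjective hinj).toEquiv).symm

theorem cc_dvd_aut (p n : ℕ) [Fact p.Prime] (d : ℕ)
    (hd : ∀ H : Subgroup (MulAut (FreeGroup (Fin n))), Finite H → Nat.card H ∣ d) :
    cc p n ∣ d := by
  obtain ⟨H, hH, hc, hf⟩ := exists_finite_aut p n (n / (p - 1)) (Fact.out : p.Prime).two_le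
    (Nat.div_mul_le_self _ _)
  rw [cc, ← hc]
  exact hd H hH

theorem cc_dvd_quo (p n : ℕ) [Fact p.Prime] (V : Subgroup (FreeGroup (Fin n))) [V.Characteristic]
    (hV : V ≤ commutator (FreeGroup (Fin n))) (d : ℕ)
    (hd : ∀ H : Subgroup (MulAut (FreeGroup (Fin n) ⧸ V)), Finite H → Nat.card H ∣ d) :
    cc p n ∣ d := by
  obtain ⟨H, hH, hc, hf⟩ := exists_finite_aut p n (n / (p - 1)) (Fact.out : p.Prime).two_le
    (Nat.div_mul_le_self _ _)
  have h1 : Nat.card (H.map (quoAut V)) = Nat.card H := by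
    refine card_map _ _ fun h hh h1 => ?_
    apply hf _ hh
    intro x
    apply ab_quo_inj V hV
    rw [← quoAut_mk, h1]
    rfl
  rw [cc, ← hc, ← h1]
  apply hd
  exact Set.Finite.image _ (Set.toFinite (H : Set (MulAut (FreeGroup (Fin n)))))

theorem cc_dvd_out (p n : ℕ) [Fact p.Prime] (d : ℕ)
    (hd : ∀ H : Subgroup (MulAut (FreeGroup (Fin n)) ⧸ innS (FreeGroup (Fin n))), Finite H →
      Nat.card H ∣ d) : cc p n ∣ d := by
  obtain ⟨H, hH, hc, hf⟩ := exists_finite_aut p n (n / (p - 1)) (Fact.out : p.Prime).two_le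
    (Nat.div_mul_le_self _ _)
  have h1 : Nat.card (H.map (QuotientGroup.mk' (innS (FreeGroup (Fin n))))) = Nat.card H := by
    refine card_map _ _ fun h hh h1 => ?_
    apply hf _ hh
    intro x
    have h2 : h ∈ innS (FreeGroup (Fin n)) := (QuotientGroup.eq_one_iff _).1 h1
    obtain ⟨y, hy⟩ := h2
    rw [← hy]
    change Abelianization.of (y * x * y⁻¹) = Abelianization.of x
    rw [map_mul, map_mul, map_inv, mul_comm (Abelianization.of y), mul_inv_cancel_right]
  rw [cc, ← hc, ← h1]
  apply hd
  exact Set.Finite.image _ (Set.toFinite (H : Set (MulAut (FreeGroup (Fin n)))))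

/-- explicit denominators -/
def MinkE (n d : ℕ) : Prop :=
  ∀ p : ℕ, p.Prime → p ^ (n / (p - 1)) * (n / (p - 1)).factorial ∣ d

theorem CR.of_local {G : Type} [Group G] {n d : ℕ} (hd : 0 < d) (hm : MinkE n d)
    (h : ∀ (p : ℕ) [Fact p.Prime], GR p (cc p n) G) : CR G d :=
  ⟨hd, fun p hp => ⟨cc p n, h p, 1, (Fact.out : p.Prime).one_lt.ne' ∘ Nat.dvd_one.1,
    by rw [one_mul]; exact hm p hp.out⟩⟩

end Pool.Agent.H371.SB
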