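import Pool.Agent.H371.SB.Defs
import Pool.Agent.H371.SA.TS

/-!
TASK SB-0: the local theorem for groups with separating families.
-/

set_option autoImplicit false

namespace Pool.Agent.H371.SB

open Filter Topology
open Pool.Agent.H371.SA
open Pool.Agent.H80R2.BC (L2 GMat vdim kerA Coef act)
open Pool.Agent.W656.VA

namespace S0x

/-- congruence subgroups -/
def Cong (p : ℕ) (A : Type) [Ring A] (l : ℕ) : Subgroup Aˣ where
  carrier := {u | ∃ a : A, (u : A) = 1 + (p : A) ^ l * a}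
  one_mem' := ⟨0, by simp⟩
  mul_mem' := by
    rintro u v ⟨a, ha⟩ ⟨b, hb⟩
    refine ⟨a + b + a * ((p : A) ^ l * b), ?_⟩
    have hc : (p : A) ^ l * a * ((p : A) ^ l * b) = (p : A) ^ l * (a * ((p : A) ^ l * b)) := by
      rw [mul_assoc]
    rw [Units.val_mul, ha, hb, add_mul, mul_add, mul_add, one_mul, mul_one, hc]
    simp only [mul_add, one_mul]
    abel
  inv_mem' := by
    rintro u ⟨a, ha⟩
    refine ⟨-(a * (u⁻¹ : Aˣ)), ?_⟩
    have h1 : ((u : A) - 1) * ((u⁻¹ : Aˣ) : A) = (p : A) ^ l * (a * (u⁻¹ : Aˣ)) := by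
      rw [ha, add_sub_cancel_left, mul_assoc]
    rw [sub_mul, Units.mul_inv, one_mul] at h1
    rw [mul_neg, ← h1]
    abel

theorem mem_cong {p : ℕ} {A : Type} [Ring A] {l : ℕ} {u : Aˣ} :
    u ∈ Cong p A l ↔ ∃ a : A, (u : A) = 1 + (p : A) ^ l * a := Iff.rfl

instance cong_normal (p : ℕ) (A : Type) [Ring A] (l : ℕ) : (Cong p A l).Normal := by
  constructor
  rintro u ⟨a, ha⟩ g
  refine ⟨(g : A) * a * ((g⁻¹ : Aˣ) : A), ?_⟩
  have h6 : Commute ((p : A) ^ l) (g : A) := by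
    rw [← Nat.cast_pow]
    exact Nat.cast_commute _ _
  rw [Units.val_mul, Units.val_mul, ha, mul_add, mul_one, add_mul, Units.mul_inv, ← mul_assoc,
    ← h6.eq]
  simp only [mul_assoc]

theorem cong_mono {p : ℕ} {A : Type} [Ring A] {l m : ℕ} (h : l ≤ m) : Cong p A m ≤ Cong p A l := by
  rintro u ⟨a, ha⟩
  refine ⟨(p : A) ^ (m - l) * a, ?_⟩
  rw [← mul_assoc, ← pow_add, Nat.add_sub_cancel' h, ha]

theorem cong_pow {p : ℕ} {A : Type} [Ring A] {l : ℕ} (hl : 1 ≤ l) {u : Aˣ} (h : u ∈ Cong p A l) :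
    u ^ p ∈ Cong p A (l + 1) := by
  obtain ⟨a, ha⟩ := h
  -- the geometric sum is congruent to `p`
  have h1 : ∀ n : ℕ, ∃ c : A, ∑ i ∈ Finset.range n, (u : A) ^ i = n + (p : A) ^ l * c := by
    intro n
    have h2 : ∀ i : ℕ, ∃ c : A, (u : A) ^ i = 1 + (p : A) ^ l * c := by
      intro i
      have := (Cong p A l).pow_mem ⟨a, ha⟩ i
      obtain ⟨c, hc⟩ := this
      exact ⟨c, by rw [← hc, Units.val_pow_eq_pow_val]⟩
    choose c hc using h2
    refine ⟨∑ i ∈ Finset.range n, c i, ?_⟩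
    rw [Finset.mul_sum, Finset.sum_congr rfl fun i _ => hc i, Finset.sum_add_distrib]
    simp
  obtain ⟨c, hc⟩ := h1 p
  refine ⟨(1 + (p : A) ^ (l - 1) * c) * a, ?_⟩
  have h3 := geom_sum_mul (u : A) p
  have h4 : (u : A) - 1 = (p : A) ^ l * a := by rw [ha]; abel
  rw [hc, h4] at h3
  have h7 : (u : A) ^ p = 1 + ((p : A) + (p : A) ^ l * c) * ((p : A) ^ l * a) := by
    rw [h3]; abel
  rw [Units.val_pow_eq_pow_val, h7]
  have h5 : (p : A) + (p : A) ^ l * c = (p : A) * (1 + (p : A) ^ (l - 1) * c) := by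
    rw [mul_add, mul_one, ← mul_assoc, ← pow_succ', Nat.sub_add_cancel hl]
  rw [h5, pow_succ', mul_assoc, mul_assoc]
  congr 2
  rw [← mul_assoc, ← mul_assoc]
  congr 1
  have h6 : Commute ((p : A) ^ l) (1 + (p : A) ^ (l - 1) * c) := by
    rw [← Nat.cast_pow]
    exact Nat.cast_commute _ _
  exact h6.eq.symm

theorem cong_pow_pow {p : ℕ} {A : Type} [Ring A] {l : ℕ} (hl : 1 ≤ l) {u : Aˣ}
    (h : u ∈ Cong p A l) (j : ℕ) : u ^ (p ^ j) ∈ Cong p A (l + j) := by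
  induction j with
  | zero => simpa using h
  | succ j ih =>
    rw [pow_succ, pow_mul]
    exact cong_pow (l := l + j) (by omega) ih

/-- the normalized rank of the cokernel over a finite quotient -/
noncomputable def rk (p : ℕ) [Fact p.Prime] {G : Type} [Group G] {ι κ : Type} [Fintype ι]
    [Fintype κ] (B : κ → ι → (G →₀ ℤ)) {Q : Type} [Group Q] (g : G →* Q) : ℝ :=
  (Module.finrank ℤ_[p] ((κ → MonoidAlgebra ℤ_[p] Q) ⧸
      LinearMap.range (Matrix.vecMulLinear (Matrix.of fun (i : ι) (k : κ) =>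
        (B k i).sum fun h z => MonoidAlgebra.single (g h)⁻¹ (z : ℤ_[p])))) : ℝ) / Nat.card Q

/-- the case of a pro-`p` image: approximation by one finite quotient -/
theorem lim_rank {p : ℕ} [Fact p.Prime] {G : Type} [Group G] {A : Type} [Ring A]
    [Algebra ℤ_[p] A] [Module.Free ℤ_[p] A] [Module.Finite ℤ_[p] A] (P : Subgroup Aˣ) (k : ℕ)
    (φ : G →* P) (f : P → ℤ_[p]) (c : ℕ) (hk : 2 < p ^ k)
    (hP : ∀ u : Aˣ, (∃ a : A, (u : A) = 1 + (p : A) ^ k * a) → u ∈ P)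
    (hf : f ∈ AC p P) (hf1 : f 1 = c)
    (hf0 : ∀ t : P, t ≠ 1 → ∀ a : ℕ, t ^ (p ^ a) = 1 → f t = 0)
    (hpp : ∀ x : P, ∃ a : ℕ, ((x : Aˣ) ^ (p ^ a)) ∈ Cong p A k)
    {ι κ : Type} [Fintype ι] [Fintype κ] (B : κ → ι → (G →₀ ℤ)) (S : Finset G)
    (hS : ∀ s ∈ S, φ s ≠ 1) (ε : ℝ) (hε : 0 < ε) :
    ∃ (Q : Type) (_ : Group Q) (_ : Finite Q) (g : G →* Q) (z : ℤ), (∀ s ∈ S, g s ≠ 1) ∧
      |(c : ℝ) * rk p B g - z| < ε := by
  classical
  obtain ⟨T, hT, d, ⟨C⟩⟩ := exists_tower p A P k hk hP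
  obtain ⟨u, hu⟩ : ∃ u, (T.U 0).index = p ^ u := by
    have h1 : IsPGroup p (P ⧸ T.U 0) := by
      intro q
      obtain ⟨x, rfl⟩ := QuotientGroup.mk_surjective q
      obtain ⟨a, ha⟩ := hpp x
      refine ⟨a, ?_⟩
      rw [← QuotientGroup.mk_pow, QuotientGroup.eq_one_iff, hT, add_zero]
      rw [SubgroupClass.coe_pow]
      exact ha
    exact IsPGroup.iff_card.1 h1
  have hp : ∀ n, ∃ m, Nat.card (T.Q n) = p ^ m := by
    intro n
    refine ⟨n * d + u, ?_⟩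
    have hle : T.U n ≤ T.U 0 := by
      induction n with
      | zero => exact le_rfl
      | succ n ih => exact (T.anti n).trans ih
    have h1 : (T.N n).index = (T.U 0).index := by
      refine Subgroup.index_map_eq _ (QuotientGroup.mk'_surjective _) ?_
      rw [QuotientGroup.ker_mk']
      exact hle
    rw [← Subgroup.card_mul_index (T.N n), h1, hu, C.card_N, pow_add]
  obtain ⟨n₀, hn₀⟩ := near_torsion p A P k hk hP f hf hf0 u u
  let M : Matrix ι κ (Lam ℤ_[p] T) := fun i j =>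
    (B j i).sum fun h z => (z : ℤ_[p]) • Lam.of ℤ_[p] T (φ h)⁻¹
  obtain ⟨E, _, _, s, b, z, σ, hσ, hlim⟩ := exists_module p T (reg_of_coord p T C) M
  have hM : ∀ n, M.map (Lam.proj ℤ_[p] T n) = Matrix.of fun (i : ι) (k : κ) =>
      (B k i).sum fun h z => MonoidAlgebra.single
        (((QuotientGroup.mk' (T.U n)).comp φ) h)⁻¹ (z : ℤ_[p]) := by
    intro n
    refine Matrix.ext fun i j => ?_
    change Lam.proj ℤ_[p] T n ((B j i).sum fun h z => (z : ℤ_[p]) • Lam.of ℤ_[p] T (φ h)⁻¹) = _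
    rw [Finsupp.sum, map_sum]
    change _ = (B j i).sum fun h z => MonoidAlgebra.single
        (((QuotientGroup.mk' (T.U n)).comp φ) h)⁻¹ (z : ℤ_[p])
    rw [Finsupp.sum]
    refine Finset.sum_congr rfl fun h _ => ?_
    rw [map_smul]
    change (((B j i) h : ℤ) : ℤ_[p]) • MonoidAlgebra.single (((φ h)⁻¹ : P) : T.Q n) (1 : ℤ_[p]) = _
    rw [MonoidAlgebra.smul_single, smul_eq_mul, mul_one]
    rfl
  have htr : ((p : ℤ) ^ u) ∣ (c : ℤ) * s := by
    refine trace_main b u hu hp f (Sx.AC_le_VC hT hf) (c : ℤ) (by rw [hf1]; simp) ⟨n₀, ?_⟩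
    intro g hg hg2
    refine hn₀ g ?_ ?_
    · intro h
      apply hg
      rw [hT]
      simpa using h
    · obtain ⟨a, ha⟩ := (hT n₀ _).1 hg2
      refine ⟨(p : A) ^ k * a, ?_⟩
      rw [ha, add_comm k n₀, pow_add, mul_assoc]
  obtain ⟨e, he⟩ := htr
  have hpu : ((p : ℝ) ^ u) ≠ 0 := pow_ne_zero _ (by exact_mod_cast (Fact.out : p.Prime).ne_zero)
  have he' : (c : ℝ) * s = (p : ℝ) ^ u * e := by exact_mod_cast he
  have hlim2 : Tendsto (fun n => (c : ℝ) * rk p B ((QuotientGroup.mk' (T.U n)).comp φ)) atTop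
      (𝓝 ((c * z + σ * e : ℤ) : ℝ)) := by
    have h1 := hlim.const_mul ((c : ℝ) / (p : ℝ) ^ u)
    have h2 : (c : ℝ) / (p : ℝ) ^ u * ((z : ℝ) * (T.U 0).index + σ * s) =
        ((c * z + σ * e : ℤ) : ℝ) := by
      rw [hu]
      push_cast
      field_simp
      linear_combination (σ : ℝ) * he'
    rw [h2] at h1
    refine h1.congr fun n => ?_
    rw [rk, hM n, hu]
    push_cast
    field_simp
  have h1 : ∀ᶠ n in atTop, ∀ s ∈ S, ((QuotientGroup.mk' (T.U n)).comp φ) s ≠ 1 := by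
    rw [Filter.eventually_all_finset]
    intro s hs
    filter_upwards [Sx.sep C (φ s) (hS s hs)] with n hn h2
    exact hn ((QuotientGroup.eq_one_iff _).1 h2)
  have h2 : ∀ᶠ n in atTop, |(c : ℝ) * rk p B ((QuotientGroup.mk' (T.U n)).comp φ) -
      ((c * z + σ * e : ℤ) : ℝ)| < ε := by
    have := (Metric.tendsto_nhds.1 hlim2) ε hε
    simpa [Real.dist_eq] using this
  obtain ⟨n, hn1, hn2⟩ := (h1.and h2).exists
  exact ⟨T.Q n, inferInstance, inferInstance, (QuotientGroup.mk' (T.U n)).comp φ, _, hn1, hn2⟩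

/-- finitely many points are separated by one homomorphism -/
theorem sep_fin {p : ℕ} [Fact p.Prime] {G : Type} [Group G] {A : Type} [Ring A]
    {P : Subgroup Aˣ} (φ : G →* P)
    (hsep : ∀ g : G, g ≠ 1 → ∃ (l : ℕ) (B : Type) (_ : Ring B) (_ : Algebra ℤ_[p] B)
      (_ : Module.Free ℤ_[p] B) (_ : Module.Finite ℤ_[p] B) (ψ : G →* Bˣ),
      (∀ h : G, (∃ a : A, ((φ h : Aˣ) : A) = 1 + (p : A) ^ l * a) →
        ∃ b : B, (ψ h : B) = 1 + (p : B) ^ 2 * b) ∧ ψ g ≠ 1)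
    (S : Finset G) (hS : ∀ s ∈ S, s ≠ 1) :
    ∃ (l : ℕ) (B : Type) (_ : Ring B) (_ : Algebra ℤ_[p] B)
      (_ : Module.Free ℤ_[p] B) (_ : Module.Finite ℤ_[p] B) (ψ : G →* Bˣ),
      (∀ h : G, (∃ a : A, ((φ h : Aˣ) : A) = 1 + (p : A) ^ l * a) →
        ∃ b : B, (ψ h : B) = 1 + (p : B) ^ 2 * b) ∧ ∀ s ∈ S, ψ s ≠ 1 := by
  classical
  induction S using Finset.induction_on with
  | empty =>
    exact ⟨0, ℤ_[p], inferInstance, inferInstance, inferInstance, inferInstance, 1,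
      fun h _ => ⟨0, by simp⟩, by simp⟩
  | insert s S _ ih =>
    obtain ⟨l₁, B₁, _, _, _, _, ψ₁, h₁, h₁'⟩ := ih fun t ht => hS t (Finset.mem_insert_of_mem ht)
    obtain ⟨l₂, B₂, _, _, _, _, ψ₂, h₂, h₂'⟩ := hsep s (hS s (Finset.mem_insert_self _ _))
    refine ⟨max l₁ l₂, B₁ × B₂, inferInstance, inferInstance, inferInstance, inferInstance,
      (MulEquiv.prodUnits.symm : B₁ˣ × B₂ˣ ≃* (B₁ × B₂)ˣ).toMonoidHom.comp (ψ₁.prod ψ₂), ?_, ?_⟩
    · intro h hh
      obtain ⟨b₁, hb₁⟩ := h₁ h (cong_mono (le_max_left l₁ l₂) hh)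
      obtain ⟨b₂, hb₂⟩ := h₂ h (cong_mono (le_max_right l₁ l₂) hh)
      refine ⟨(b₁, b₂), Prod.ext ?_ ?_⟩
      · change (ψ₁ h : B₁) = _
        rw [hb₁]; rfl
      · change (ψ₂ h : B₂) = _
        rw [hb₂]; rfl
    · intro t ht h
      have e1 : ψ₁ t = 1 := by
        have := congrArg (fun u : (B₁ × B₂)ˣ => (u : B₁ × B₂).1) h
        exact Units.ext this
      have e2 : ψ₂ t = 1 := by
        have := congrArg (fun u : (B₁ × B₂)ˣ => (u : B₁ × B₂).2) h
        exact Units.ext this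
      rcases Finset.mem_insert.1 ht with rfl | ht
      · exact h₂' e2
      · exact h₁' t ht e1

/-- enlarging the order -/
theorem step {p : ℕ} [Fact p.Prime] {H : Type} [Group H] {A : Type} [Ring A]
    [Algebra ℤ_[p] A] [Module.Free ℤ_[p] A] [Module.Finite ℤ_[p] A] (P : Subgroup Aˣ) (k : ℕ)
    (φ : H →* P) (f : P → ℤ_[p]) (c : ℕ) (hk : 2 < p ^ k)
    (hP : ∀ u : Aˣ, (∃ a : A, (u : A) = 1 + (p : A) ^ k * a) → u ∈ P)
    (hf : f ∈ AC p P) (hf1 : f 1 = c)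
    (hf0 : ∀ t : P, t ≠ 1 → ∀ a : ℕ, t ^ (p ^ a) = 1 → f t = 0)
    (hpp : ∀ h : H, ∃ a : ℕ, ((φ h : Aˣ) ^ (p ^ a)) ∈ Cong p A k)
    {B : Type} [Ring B] [Algebra ℤ_[p] B] [Module.Free ℤ_[p] B] [Module.Finite ℤ_[p] B]
    (l : ℕ) (ψ : H →* Bˣ)
    (hψ : ∀ h : H, (∃ a : A, ((φ h : Aˣ) : A) = 1 + (p : A) ^ l * a) →
        ∃ b : B, (ψ h : B) = 1 + (p : B) ^ 2 * b)
    {ι κ : Type} [Fintype ι] [Fintype κ] (X : κ → ι → (H →₀ ℤ)) (S : Finset H)
    (hS : ∀ s ∈ S, ψ s ≠ 1) (ε : ℝ) (hε : 0 < ε) :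
    ∃ (Q : Type) (_ : Group Q) (_ : Finite Q) (g : H →* Q) (z : ℤ), (∀ s ∈ S, g s ≠ 1) ∧
      |(c : ℝ) * rk p X g - z| < ε := by
  classical
  have hk1 : 1 ≤ k := by
    rcases Nat.eq_zero_or_pos k with rfl | h
    · simp at hk
    · exact h
  set L := max k l with hL
  set K := max L 2 with hK
  have hp1 : 1 < p := (Fact.out : p.Prime).one_lt
  have hK2 : 2 < p ^ K := lt_of_lt_of_le hk (Nat.pow_le_pow_right hp1.le
    ((le_max_left k l).trans (le_max_left L 2)))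
  let e1 : (A × B)ˣ →* Aˣ := Units.map (MonoidHom.fst A B)
  let e2 : (A × B)ˣ →* Bˣ := Units.map (MonoidHom.snd A B)
  let V : Subgroup (A × B)ˣ := (Cong p A L).comap e1 ⊓ (Cong p B 2).comap e2
  have hVmem : ∀ u, u ∈ V ↔ e1 u ∈ Cong p A L ∧ e2 u ∈ Cong p B 2 := fun u => Iff.rfl
  let Φ : H →* (A × B)ˣ :=
    (MulEquiv.prodUnits.symm : Aˣ × Bˣ ≃* (A × B)ˣ).toMonoidHom.comp
      ((P.subtype.comp φ).prod ψ)
  have hΦ1 : ∀ h, e1 (Φ h) = (φ h : Aˣ) := fun h => Units.ext rfl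
  have hΦ2 : ∀ h, e2 (Φ h) = ψ h := fun h => Units.ext rfl
  let P' : Subgroup (A × B)ˣ := (((QuotientGroup.mk' V).comp Φ).range).comap (QuotientGroup.mk' V)
  have hP'mem : ∀ u : (A × B)ˣ, u ∈ P' ↔ ∃ h, (Φ h)⁻¹ * u ∈ V := by
    intro u
    constructor
    · rintro ⟨h, hh⟩
      exact ⟨h, QuotientGroup.eq.1 hh⟩
    · rintro ⟨h, hh⟩
      exact ⟨h, QuotientGroup.eq.2 hh⟩
  have hP' : ∀ u : (A × B)ˣ, (∃ a : A × B, (u : A × B) = 1 + (p : A × B) ^ K * a) → u ∈ P' := by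
    rintro u ⟨a, ha⟩
    rw [hP'mem]
    refine ⟨1, ?_⟩
    rw [map_one, inv_one, one_mul, hVmem]
    rw [← Nat.cast_pow] at ha
    constructor
    · refine cong_mono (le_max_left L 2) ⟨a.1, ?_⟩
      change (u : A × B).1 = _
      rw [ha, Prod.fst_add, Prod.fst_one, Prod.fst_mul, Prod.fst_natCast, Nat.cast_pow]
    · refine cong_mono (le_max_right L 2) ⟨a.2, ?_⟩
      change (u : A × B).2 = _
      rw [ha, Prod.snd_add, Prod.snd_one, Prod.snd_mul, Prod.snd_natCast, Nat.cast_pow]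
  have hPV : ∀ u : (A × B)ˣ, u ∈ V → e1 u ∈ P := fun u hu =>
    hP _ (cong_mono (le_max_left k l) ((hVmem u).1 hu).1)
  have hπ : ∀ u ∈ P', Units.map ((RingHom.fst A B : A × B →+* A) : A × B →* A) u ∈ P := by
    intro u hu
    obtain ⟨h, hh⟩ := (hP'mem u).1 hu
    have h1 : u = Φ h * ((Φ h)⁻¹ * u) := by group
    change e1 u ∈ P
    rw [h1, map_mul, hΦ1]
    exact P.mul_mem (φ h).2 (hPV _ hh)
  let f' : P' → ℤ_[p] := fun u => f ⟨Units.map ((RingHom.fst A B : A × B →+* A) : A × B →* A) u,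
    hπ u u.2⟩
  let Φ' : H →* P' := Φ.codRestrict P' (fun h => (hP'mem _).2 ⟨h, by
    rw [inv_mul_cancel]; exact one_mem V⟩)
  refine lim_rank P' K Φ' f' c hK2 hP' (AC.comap p P' P (RingHom.fst A B) hπ hf) ?_ ?_ ?_ X S ?_
    ε hε
  · change f ⟨Units.map _ ((1 : P') : (A × B)ˣ), _⟩ = _
    rw [← hf1]
    congr 1
  · intro t ht a hta
    by_cases hx : (⟨Units.map ((RingHom.fst A B : A × B →+* A) : A × B →* A) t, hπ t t.2⟩ : P) = 1
    · exfalso
      apply ht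
      obtain ⟨h, hh⟩ := (hP'mem t).1 t.2
      have h1 : e1 t = 1 := congrArg (fun w : P => (w : Aˣ)) hx
      -- the image of `h` is congruent to one
      have h2 : (φ h : Aˣ) ∈ Cong p A l := by
        have h3 := ((hVmem _).1 hh).1
        rw [map_mul, map_inv, h1, mul_one, hΦ1] at h3
        have h4 := (Cong p A L).inv_mem h3
        rw [inv_inv] at h4
        exact cong_mono (le_max_right k l) h4
      have h3 : e2 t ∈ Cong p B 2 := by
        have h4 := ((hVmem _).1 hh).2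
        have h5 : e2 t = ψ h * (e2 ((Φ h)⁻¹ * t)) := by
          rw [map_mul, map_inv, hΦ2]; group
        rw [h5]
        exact (Cong p B 2).mul_mem (hψ h h2) h4
      obtain ⟨b, hb⟩ := h3
      have h4 : ((e2 t : Bˣ) : B) = 1 := by
        refine torsion_free p B 2 ?_ _ b hb (p ^ a) (pow_pos (by omega) a) ?_
        · nlinarith
        · have h5 : (t : (A × B)ˣ) ^ (p ^ a) = 1 := by
            rw [← SubgroupClass.coe_pow, hta]; rfl
          rw [← Units.val_pow_eq_pow_val, ← map_pow, h5, map_one, Units.val_one]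
      apply Subtype.ext
      apply Units.ext
      exact Prod.ext (congrArg (fun w : Aˣ => (w : A)) h1) h4
    · apply hf0 _ hx a
      apply Subtype.ext
      change (e1 (t : (A × B)ˣ)) ^ (p ^ a) = 1
      rw [← map_pow, ← SubgroupClass.coe_pow, hta]
      exact map_one _
  · intro x
    obtain ⟨h, hh⟩ := (hP'mem x).1 x.2
    obtain ⟨a, ha⟩ := hpp h
    have h1 : (φ h : Aˣ) ^ (p ^ (a + L)) ∈ Cong p A L := by
      rw [pow_add, pow_mul]
      exact cong_mono (by omega) (cong_pow_pow hk1 ha L)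
    have h2 : Φ h ^ (p ^ (a + L)) ∈ V := by
      rw [hVmem]
      constructor
      · rw [map_pow, hΦ1]; exact h1
      · rw [map_pow, hΦ2, ← map_pow]
        apply hψ
        rw [map_pow, SubgroupClass.coe_pow]
        exact cong_mono (le_max_right k l) h1
    have h3 : (x : (A × B)ˣ) ^ (p ^ (a + L)) ∈ V := by
      have h4 : ((x : (A × B)ˣ) : (A × B)ˣ ⧸ V) = ((Φ h : (A × B)ˣ) : (A × B)ˣ ⧸ V) :=
        (QuotientGroup.eq.2 hh).symm
      rw [← QuotientGroup.eq_one_iff, QuotientGroup.mk_pow, h4, ← QuotientGroup.mk_pow,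
        QuotientGroup.eq_one_iff]
      exact h2
    refine ⟨a + L + K, ?_⟩
    rw [pow_add, pow_mul]
    set y := (x : (A × B)ˣ) ^ (p ^ (a + L)) with hy
    obtain ⟨h4, h5⟩ := (hVmem y).1 h3
    have hL1 : 1 ≤ L := hk1.trans (le_max_left k l)
    obtain ⟨a1, ha1⟩ := cong_mono (show K ≤ L + K by omega) (cong_pow_pow hL1 h4 K)
    obtain ⟨b1, hb1⟩ := cong_mono (show K ≤ 2 + K by omega)
      (cong_pow_pow (l := 2) (by norm_num) h5 K)
    refine ⟨(a1, b1), ?_⟩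
    rw [← map_pow] at ha1 hb1
    rw [← Nat.cast_pow]
    refine Prod.ext ?_ ?_
    · rw [Prod.fst_add, Prod.fst_one, Prod.fst_mul, Prod.fst_natCast, Nat.cast_pow]
      exact ha1
    · rw [Prod.snd_add, Prod.snd_one, Prod.snd_mul, Prod.snd_natCast, Nat.cast_pow]
      exact hb1
  · intro s hs h
    apply hS s hs
    have h1 : Φ s = 1 := congrArg (fun w : P' => (w : (A × B)ˣ)) h
    rw [← hΦ2, h1, map_one]

/-- the case of a countable group with pro-`p` image -/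
theorem countable_case {p : ℕ} [Fact p.Prime] {H : Type} [Group H] [Countable H] {A : Type}
    [Ring A] [Algebra ℤ_[p] A] [Module.Free ℤ_[p] A] [Module.Finite ℤ_[p] A] (P : Subgroup Aˣ)
    (k : ℕ) (φ : H →* P) (f : P → ℤ_[p]) (c : ℕ) (hk : 2 < p ^ k)
    (hP : ∀ u : Aˣ, (∃ a : A, (u : A) = 1 + (p : A) ^ k * a) → u ∈ P)
    (hf : f ∈ AC p P) (hf1 : f 1 = c)
    (hf0 : ∀ t : P, t ≠ 1 → ∀ a : ℕ, t ^ (p ^ a) = 1 → f t = 0)
    (hpp : ∀ h : H, ∃ a : ℕ, ((φ h : Aˣ) ^ (p ^ a)) ∈ Cong p A k)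
    (hsep : ∀ g : H, g ≠ 1 → ∃ (l : ℕ) (B : Type) (_ : Ring B) (_ : Algebra ℤ_[p] B)
      (_ : Module.Free ℤ_[p] B) (_ : Module.Finite ℤ_[p] B) (ψ : H →* Bˣ),
      (∀ h : H, (∃ a : A, ((φ h : Aˣ) : A) = 1 + (p : A) ^ l * a) →
        ∃ b : B, (ψ h : B) = 1 + (p : B) ^ 2 * b) ∧ ψ g ≠ 1)
    {ι κ : Type} [Fintype ι] [Fintype κ] (X : κ → ι → (H →₀ ℤ)) :
    ∃ z : ℤ, (c : ℝ) *
      vdim (kerA (fun k i => (X k i).mapRange (Int.cast : ℤ → ℂ) Int.cast_zero)) = z := by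
  classical
  obtain ⟨e, he⟩ := exists_surjective_nat H
  have key : ∀ j : ℕ, ∃ (Q : Type) (_ : Group Q) (_ : Finite Q) (g : H →* Q) (z : ℤ),
      (∀ s ∈ ((Finset.range j).image e).erase 1, g s ≠ 1) ∧
      |(c : ℝ) * rk p X g - z| < 1 / ((j : ℝ) + 1) := by
    intro j
    obtain ⟨l, B, _, _, _, _, ψ, h1, h2⟩ := sep_fin φ hsep (((Finset.range j).image e).erase 1)
      (fun s hs => (Finset.mem_erase.1 hs).1)
    exact step P k φ f c hk hP hf hf1 hf0 hpp l ψ h1 X _ h2 _ (by positivity)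
  choose Q iQ fQ g z hg hz using key
  have happ := approx (G := H) Q g
    (by
      intro x hx
      obtain ⟨i, rfl⟩ := he x
      filter_upwards [eventually_gt_atTop i] with n hn
      exact hg n _ (Finset.mem_erase.2 ⟨hx, Finset.mem_image.2 ⟨i, Finset.mem_range.2 hn, rfl⟩⟩))
    X p (fun n => Matrix.of fun (i : ι) (k : κ) =>
        (X k i).sum fun h z => MonoidAlgebra.single (g n h)⁻¹ (z : ℤ_[p]))
    (fun n i k => rfl)
  set D : ℝ := (Fintype.card κ : ℝ) - Fintype.card ι +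
    vdim (kerA (fun k i => (X k i).mapRange (Int.cast : ℤ → ℂ) Int.cast_zero)) with hD
  have h1 : Tendsto (fun n => (c : ℝ) * rk p X (g n)) atTop (𝓝 (c * D)) := happ.const_mul _
  have h2 : Tendsto (fun n => (z n : ℝ) - (c : ℝ) * rk p X (g n)) atTop (𝓝 0) := by
    refine squeeze_zero_norm (a := fun n : ℕ => 1 / ((n : ℝ) + 1)) (fun n => ?_)
      tendsto_one_div_add_atTop_nhds_zero_nat
    rw [Real.norm_eq_abs, abs_sub_comm]
    exact (hz n).le
  have h3 : Tendsto (fun n => (z n : ℝ)) atTop (𝓝 (c * D)) := by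
    have := h2.add h1
    simpa using this
  have h4 : (c * D : ℝ) ∈ Set.range (Int.cast : ℤ → ℝ) :=
    Int.isClosedEmbedding_coe_real.isClosed_range.mem_of_tendsto h3
      (Eventually.of_forall fun n => ⟨z n, rfl⟩)
  obtain ⟨w, hw⟩ := h4
  refine ⟨w - (c : ℤ) * (Fintype.card κ - Fintype.card ι), ?_⟩
  push_cast
  rw [hw, hD]
  ring

/-- the subgroup given by a Sylow subgroup of the finite quotient -/
theorem exists_sylow {p : ℕ} [Fact p.Prime] {G : Type} [Group G] {A : Type} [Ring A]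
    [Algebra ℤ_[p] A] [Module.Free ℤ_[p] A] [Module.Finite ℤ_[p] A] (P : Subgroup Aˣ)
    (k : ℕ) (φ : G →* P) (hk : 2 < p ^ k)
    (hP : ∀ u : Aˣ, (∃ a : A, (u : A) = 1 + (p : A) ^ k * a) → u ∈ P) :
    ∃ G₁ : Subgroup G, ¬ p ∣ G₁.index ∧
      ∀ h ∈ G₁, ∃ a : ℕ, ((φ h : Aˣ) ^ (p ^ a)) ∈ Cong p A k := by
  classical
  obtain ⟨T, hT, -⟩ := exists_tower p A P k hk hP
  let φ' : G →* (P ⧸ T.U 0) := (QuotientGroup.mk' (T.U 0)).comp φ
  let S : Sylow p φ'.range := default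
  let S' : Subgroup (P ⧸ T.U 0) := (S : Subgroup φ'.range).map φ'.range.subtype
  have hS' : IsPGroup p S' := S.2.map _
  refine ⟨S'.comap φ', ?_, ?_⟩
  · have h1 : (S'.comap φ').index = (S : Subgroup φ'.range).index := by
      have h2 : (S'.comap φ').index = S'.relIndex φ'.range := Subgroup.index_comap _ _
      rw [h2, Subgroup.relIndex]
      congr 1
      exact Subgroup.comap_map_eq_self_of_injective φ'.range.subtype_injective _
    rw [h1]
    exact S.not_dvd_index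
  · intro h hh
    obtain ⟨a, ha⟩ := hS' ⟨φ' h, hh⟩
    refine ⟨a, ?_⟩
    have h1 : (φ' h) ^ (p ^ a) = 1 := by
      have := congrArg (fun w : S' => (w : P ⧸ T.U 0)) ha
      exact this
    have h2 : (φ h) ^ (p ^ a) ∈ T.U 0 := by
      rw [← QuotientGroup.eq_one_iff, QuotientGroup.mk_pow]
      exact h1
    have h3 := (hT 0 _).1 h2
    rw [add_zero, SubgroupClass.coe_pow] at h3
    exact h3

end S0x

open S0x in
theorem GR.local (p : ℕ) [Fact p.Prime] (c : ℕ) (G : Type) [Group G] (hG : GR p c G) (v : ℝ)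
    (hv : Val (Int.castRingHom ℂ).range G v) :
    ∃ q : ℕ, ¬ p ∣ q ∧ ∃ z : ℤ, (q : ℝ) * c * v = z := by
  classical
  obtain ⟨A, _, _, _, _, P, k, φ, f, hk, hP, hf, hf1, hf0, hsep⟩ := hG
  obtain ⟨m, n, X, hX, rfl⟩ := hv
  -- reduction to a finitely generated group
  let s : Finset G := Finset.univ.biUnion fun k : Fin n => Finset.univ.biUnion fun i : Fin m =>
    (X k i).support
  let H : Subgroup G := Subgroup.closure (s : Set G)
  have hs : ∀ k i, ∀ x ∈ (X k i).support, x ∈ H := by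
    intro k i x hx
    apply Subgroup.subset_closure
    simp only [s, Finset.coe_biUnion, Finset.coe_univ, Set.mem_iUnion, Finset.mem_coe]
    exact ⟨k, trivial, i, trivial, hx⟩
  have hcount : Countable H := by
    have h1 : Function.Surjective (FreeGroup.mk (α := {x : G // x ∈ (s : Set G)})) :=
      Quot.mk_surjective
    have h1' : Countable (List ({x : G // x ∈ (s : Set G)} × Bool)) := inferInstance
    have h2 : Countable (FreeGroup {x : G // x ∈ (s : Set G)}) := h1.countable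
    have h3 : H = (FreeGroup.lift (fun x : {x : G // x ∈ (s : Set G)} => (x : G))).range :=
      FreeGroup.closure_eq_range _
    rw [h3]
    exact (MonoidHom.rangeRestrict_surjective _).countable
  let Y : GMat (Fin n) (Fin m) H := fun k i => (X k i).comapDomain H.subtype
    H.subtype_injective.injOn
  have hYX : Pool.Agent.H80R2.BC.push H.subtype Y = X := by
    funext k i
    change Finsupp.mapDomain _ _ = _
    rw [Finsupp.mapDomain_comapDomain _ H.subtype_injective]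
    intro x hx
    exact ⟨⟨x, hs k i x hx⟩, rfl⟩
  have hdim : vdim (kerA X) = vdim (kerA Y) := by
    rw [← hYX]
    exact vdim_push H.subtype H.subtype_injective Y
  obtain ⟨G₁, hG₁, hpp⟩ := exists_sylow P k (φ.comp H.subtype) hk hP
  have hfin : G₁.index ≠ 0 := fun h => hG₁ (h ▸ dvd_zero p)
  have : G₁.FiniteIndex := ⟨hfin⟩
  have : Fintype (H ⧸ G₁) := Fintype.ofFinite _
  obtain ⟨Z, hZ⟩ := Sx.exists_int (Pool.Agent.TH107.AT.res G₁ Y) (by
    intro k i x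
    exact hX _ _ _)
  obtain ⟨z, hz⟩ := countable_case (H := G₁) P k ((φ.comp H.subtype).comp G₁.subtype) f c hk hP hf
    hf1 hf0 (fun h => hpp h h.2) (by
      intro g hg
      have hg' : ((g : H) : G) ≠ 1 := by
        intro h
        exact hg (Subtype.ext (Subtype.ext h))
      obtain ⟨l, B, i1, i2, i3, i4, ψ, h1, h2⟩ := hsep _ hg'
      exact ⟨l, B, i1, i2, i3, i4, (ψ.comp H.subtype).comp G₁.subtype, fun h hh => h1 _ hh, h2⟩)
    Z
  rw [hZ, Pool.Agent.TH107.AT.vdim_res] at hz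
  refine ⟨Fintype.card (H ⧸ G₁), ?_, z, ?_⟩
  · rw [← Nat.card_eq_fintype_card]
    exact hG₁
  · rw [hdim, ← hz]
    ring

end Pool.Agent.H371.SB
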