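import Pool.Agent.H371.SB.Defs
import Pool.Agent.H371.SA.TQ

/-! TASK SB-1: the class `GR` is closed under products and subgroups. -/

set_option autoImplicit false

namespace Pool.Agent.H371.SB

open Pool.Agent.H371.SA

theorem GR.sub (p : ℕ) [Fact p.Prime] (c : ℕ) (G H : Type) [Group G] [Group H] (f : H →* G)
    (hf : Function.Injective f) (hG : GR p c G) : GR p c H := by
  obtain ⟨A, iR, iA, iF, iM, P, k, φ, χ, hk, hP, hχ, hc, h0, hs⟩ := hG
  refine ⟨A, iR, iA, iF, iM, P, k, φ.comp f, χ, hk, hP, hχ, hc, h0, ?_⟩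
  intro h hh
  obtain ⟨l, B, jR, jA, jF, jM, ψ, h1, h2⟩ := hs (f h) (fun e => hh (hf (by rw [e, map_one])))
  exact ⟨l, B, jR, jA, jF, jM, ψ.comp f, fun x hx => h1 (f x) hx, h2⟩

theorem GR.prod (p : ℕ) [Fact p.Prime] (c c' : ℕ) (G H : Type) [Group G] [Group H]
    (hG : GR p c G) (hH : GR p c' H) : GR p (c * c') (G × H) := by
  obtain ⟨A, iR, iA, iF, iM, P, k, φ, f, hk, hP, hf, hc, h0, hs⟩ := hG
  obtain ⟨A', iR', iA', iF', iM', P', k', φ', f', hk', hP', hf', hc', h0', hs'⟩ := hH
  have hp1 : 1 ≤ p := (Fact.out : p.Prime).pos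
  let P'' : Subgroup (A × A')ˣ :=
    (P.comap (Units.map (RingHom.fst A A' : A × A' →* A))) ⊓
      (P'.comap (Units.map (RingHom.snd A A' : A × A' →* A')))
  have hπ : ∀ u ∈ P'', Units.map (RingHom.fst A A' : A × A' →* A) u ∈ P := fun u hu => hu.1
  have hπ' : ∀ u ∈ P'', Units.map (RingHom.snd A A' : A × A' →* A') u ∈ P' := fun u hu => hu.2
  let Φ : G × H →* P'' :=
    { toFun := fun x => ⟨MulEquiv.prodUnits.symm ((φ x.1 : Aˣ), (φ' x.2 : A'ˣ)), by
        constructor
        · change Units.map (RingHom.fst A A' : A × A' →* A) _ ∈ P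
          have : Units.map (RingHom.fst A A' : A × A' →* A)
            (MulEquiv.prodUnits.symm ((φ x.1 : Aˣ), (φ' x.2 : A'ˣ))) = (φ x.1 : Aˣ) := by
            apply Units.ext; rfl
          rw [this]; exact (φ x.1).2
        · change Units.map (RingHom.snd A A' : A × A' →* A') _ ∈ P'
          have : Units.map (RingHom.snd A A' : A × A' →* A')
            (MulEquiv.prodUnits.symm ((φ x.1 : Aˣ), (φ' x.2 : A'ˣ))) = (φ' x.2 : A'ˣ) := by
            apply Units.ext; rfl
          rw [this]; exact (φ' x.2).2⟩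
      map_one' := by
        apply Subtype.ext
        apply Units.ext
        simp
      map_mul' := by
        intro x y
        apply Subtype.ext
        apply Units.ext
        simp
        rfl }
  refine ⟨A × A', inferInstance, inferInstance, inferInstance, inferInstance, P'', max k k', Φ,
    (fun u : P'' => f ⟨Units.map (RingHom.fst A A' : A × A' →* A) u, hπ u u.2⟩) *
    (fun u : P'' => f' ⟨Units.map (RingHom.snd A A' : A × A' →* A') u, hπ' u u.2⟩),
    ?_, ?_, ?_, ?_, ?_, ?_⟩
  · exact lt_of_lt_of_le hk (Nat.pow_le_pow_right hp1 (le_max_left _ _))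
  · rintro u ⟨a, ha⟩
    constructor
    · apply hP
      refine ⟨(p : A) ^ (max k k' - k) * a.1, ?_⟩
      have h1 := congrArg Prod.fst ha
      rw [← mul_assoc, ← pow_add, Nat.add_sub_cancel' (le_max_left k k')]
      simpa using h1
    · apply hP'
      refine ⟨(p : A') ^ (max k k' - k') * a.2, ?_⟩
      have h1 := congrArg Prod.snd ha
      rw [← mul_assoc, ← pow_add, Nat.add_sub_cancel' (le_max_right k k')]
      simpa using h1
  · exact AC.mul p P'' (AC.comap p P'' P (RingHom.fst A A') hπ hf)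
      (AC.comap p P'' P' (RingHom.snd A A') hπ' hf')
  · rw [Pi.mul_apply]
    have e1 : (⟨Units.map (RingHom.fst A A' : A × A' →* A) ((1 : P'') : (A × A')ˣ),
      hπ _ (1 : P'').2⟩ : P) = 1 := by
      apply Subtype.ext; exact map_one _
    have e2 : (⟨Units.map (RingHom.snd A A' : A × A' →* A') ((1 : P'') : (A × A')ˣ),
      hπ' _ (1 : P'').2⟩ : P') = 1 := by
      apply Subtype.ext; exact map_one _
    rw [e1, e2, hc, hc', Nat.cast_mul]
  · intro t ht a hta
    rw [Pi.mul_apply]
    have h1 : (⟨Units.map (RingHom.fst A A' : A × A' →* A) (t : (A × A')ˣ), hπ _ t.2⟩ : P) ^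
        (p ^ a) = 1 := by
      apply Subtype.ext
      have : ((t ^ (p ^ a) : P'') : (A × A')ˣ) = 1 := congrArg Subtype.val hta
      have h3 := congrArg (Units.map (RingHom.fst A A' : A × A' →* A)) this
      rw [map_one, Subgroup.coe_pow, map_pow] at h3
      exact h3
    have h2 : (⟨Units.map (RingHom.snd A A' : A × A' →* A') (t : (A × A')ˣ), hπ' _ t.2⟩ : P') ^
        (p ^ a) = 1 := by
      apply Subtype.ext
      have : ((t ^ (p ^ a) : P'') : (A × A')ˣ) = 1 := congrArg Subtype.val hta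
      have h3 := congrArg (Units.map (RingHom.snd A A' : A × A' →* A')) this
      rw [map_one, Subgroup.coe_pow, map_pow] at h3
      exact h3
    by_cases ht1 : (⟨Units.map (RingHom.fst A A' : A × A' →* A) (t : (A × A')ˣ), hπ _ t.2⟩ : P) = 1
    · by_cases ht2 :
        (⟨Units.map (RingHom.snd A A' : A × A' →* A') (t : (A × A')ˣ), hπ' _ t.2⟩ : P') = 1
      · exfalso
        apply ht
        apply Subtype.ext
        apply Units.ext
        apply Prod.ext
        · exact congrArg (fun u : P => ((u : Aˣ) : A)) ht1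
        · exact congrArg (fun u : P' => ((u : A'ˣ) : A')) ht2
      · rw [h0' _ ht2 a h2, mul_zero]
    · rw [h0 _ ht1 a h1, zero_mul]
  · rintro ⟨g, h⟩ hgh
    by_cases hg : g = 1
    · have hh : h ≠ 1 := fun hh => hgh (by rw [hg, hh]; rfl)
      obtain ⟨l, B, jR, jA, jF, jM, ψ, h1, h2⟩ := hs' h hh
      refine ⟨l, B, jR, jA, jF, jM, ψ.comp (MonoidHom.snd G H), ?_, h2⟩
      rintro x ⟨a, ha⟩
      apply h1 x.2
      refine ⟨a.2, ?_⟩
      have h3 := congrArg Prod.snd ha
      have h4 : ((Φ x : (A × A')ˣ) : A × A').2 = ((φ' x.2 : A'ˣ) : A') := rfl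
      rw [← h4]
      simpa using h3
    · obtain ⟨l, B, jR, jA, jF, jM, ψ, h1, h2⟩ := hs g hg
      refine ⟨l, B, jR, jA, jF, jM, ψ.comp (MonoidHom.fst G H), ?_, h2⟩
      rintro x ⟨a, ha⟩
      apply h1 x.1
      refine ⟨a.1, ?_⟩
      have h3 := congrArg Prod.fst ha
      have h4 : ((Φ x : (A × A')ˣ) : A × A').1 = ((φ x.1 : Aˣ) : A) := rfl
      rw [← h4]
      simpa using h3

end Pool.Agent.H371.SB
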