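import Pool.Agent.H371.SB.Defs

/-!
# SB-10: class functions on free groups detect outer automorphisms

If `h` is an automorphism of a free group such that `h x - x` lies in `I^(K+1) + [R,R]` for all
`K` and `x`, then `h` is inner.  The class functions used here are the coefficients of the traces
of the representations `x_i ↦ 1 + X * M_i` with `M_i * M_i = 0`.
-/

set_option autoImplicit false

namespace Pool.Agent.H371.SB.SB10x

open Polynomial

variable {k : Type} [Field k] {ι : Type}

section Rep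

variable {m : Type} [Fintype m] [DecidableEq m]

lemma XC_mul (M N : Matrix m m k) :
    (X * C M : (Matrix m m k)[X]) * (X * C N) = X ^ 2 * C (M * N) := by
  rw [mul_assoc, ← mul_assoc (C M), ← X_mul (p := C M), map_mul, pow_two]
  simp only [mul_assoc]

/-- the unit `1 + X M` -/
noncomputable def unitOf (M : Matrix m m k) (hM : M * M = 0) : ((Matrix m m k)[X])ˣ where
  val := 1 + X * C M
  inv := 1 - X * C M
  val_inv := by
    have h := XC_mul M M
    rw [hM, map_zero, mul_zero] at h
    rw [mul_sub, mul_one, add_mul, one_mul, h, add_zero, add_sub_cancel_right]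
  inv_val := by
    have h := XC_mul M M
    rw [hM, map_zero, mul_zero] at h
    rw [mul_add, mul_one, sub_mul, one_mul, h, sub_zero, sub_add_cancel]

/-- the representation `x_i ↦ 1 + X M_i` -/
noncomputable def rho (M : ι → Matrix m m k) (hM : ∀ i, M i * M i = 0) :
    FreeGroup ι →* ((Matrix m m k)[X])ˣ :=
  FreeGroup.lift fun i => unitOf (M i) (hM i)

lemma rho_zpow (M : ι → Matrix m m k) (hM : ∀ i, M i * M i = 0) (i : ι) (e : ℤ) :
    (rho M hM (FreeGroup.of i ^ e) : (Matrix m m k)[X]) = 1 + X * C (e • M i) := by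
  have h := XC_mul (M i) (M i)
  rw [hM, map_zero, mul_zero] at h
  have hz : ∀ n : ℤ, (X * C (n • M i) : (Matrix m m k)[X]) = n • (X * C (M i)) := by
    intro n
    rw [map_zsmul, mul_smul_comm]
  have hof : rho M hM (FreeGroup.of i) = unitOf (M i) (hM i) := by
    simp [rho]
  induction e using Int.induction_on with
  | zero => simp
  | succ n ih =>
    rw [zpow_add_one, map_mul, Units.val_mul, ih, hof]
    change (1 + X * C ((n : ℤ) • M i)) * (1 + X * C (M i)) = _
    rw [hz, hz, add_mul, one_mul, smul_mul_assoc, mul_add, mul_one, h, add_zero, add_smul,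
      one_smul]
    abel
  | pred n ih =>
    rw [zpow_sub_one, map_mul, Units.val_mul, ih, map_inv, hof]
    change (1 + X * C (-(n : ℤ) • M i)) * (1 - X * C (M i)) = _
    rw [hz, hz, add_mul, one_mul, smul_mul_assoc, mul_sub, mul_one, h, sub_zero, sub_smul,
      one_smul]
    abel

/-- the product of the syllables -/
def ev (L : List (ι × ℤ)) : FreeGroup ι := (L.map fun p => FreeGroup.of p.1 ^ p.2).prod

lemma ev_nil : ev ([] : List (ι × ℤ)) = 1 := rfl

lemma ev_cons (p : ι × ℤ) (L : List (ι × ℤ)) : ev (p :: L) = FreeGroup.of p.1 ^ p.2 * ev L := rfl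

lemma ev_append (L L' : List (ι × ℤ)) : ev (L ++ L') = ev L * ev L' := by
  simp [ev, List.prod_append]

lemma rho_ev (M : ι → Matrix m m k) (hM : ∀ i, M i * M i = 0) (L : List (ι × ℤ)) :
    (rho M hM (ev L) : (Matrix m m k)[X]) =
      (L.map fun p => 1 + X * C (p.2 • M p.1)).prod := by
  induction L with
  | nil => simp [ev]
  | cons p L ih => rw [ev_cons, map_mul, Units.val_mul, ih, rho_zpow, List.map_cons, List.prod_cons]

lemma natDegree_lin (N : Matrix m m k) : (1 + X * C N : (Matrix m m k)[X]).natDegree ≤ 1 := by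
  refine (natDegree_add_le _ _).trans (max_le (by simp) ?_)
  refine natDegree_mul_le.trans ?_
  have h1 := natDegree_X_le (R := Matrix m m k)
  have h2 := natDegree_C N
  omega

lemma coeff_lin (N : Matrix m m k) : (1 + X * C N : (Matrix m m k)[X]).coeff 1 = N := by
  rw [coeff_add, coeff_one, coeff_X_mul, coeff_C_zero]
  simp

lemma coeff_ev_length (M : ι → Matrix m m k) (hM : ∀ i, M i * M i = 0) (L : List (ι × ℤ)) :
    (rho M hM (ev L) : (Matrix m m k)[X]).coeff L.length =
      (L.map fun p => p.2 • M p.1).prod := by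
  rw [rho_ev]
  have h := coeff_list_prod_of_natDegree_le
    (L.map fun p => (1 + X * C (p.2 • M p.1) : (Matrix m m k)[X])) 1 (by
      intro q hq
      obtain ⟨p, -, rfl⟩ := List.mem_map.1 hq
      exact natDegree_lin _)
  rw [List.length_map, mul_one] at h
  rw [h, List.map_map]
  congr 1
  refine List.map_congr_left fun p _ => ?_
  exact coeff_lin _

lemma natDegree_ev (M : ι → Matrix m m k) (hM : ∀ i, M i * M i = 0) (L : List (ι × ℤ)) :
    (rho M hM (ev L) : (Matrix m m k)[X]).natDegree ≤ L.length := by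
  induction L with
  | nil => simp [ev]
  | cons p L ih =>
    rw [ev_cons, map_mul, Units.val_mul, rho_zpow]
    refine natDegree_mul_le.trans ?_
    have := natDegree_lin (k := k) (p.2 • M p.1)
    rw [List.length_cons]
    omega

lemma coeff_ev_lt (M : ι → Matrix m m k) (hM : ∀ i, M i * M i = 0) (L : List (ι × ℤ)) (j : ℕ)
    (hj : L.length < j) : (rho M hM (ev L) : (Matrix m m k)[X]).coeff j = 0 :=
  coeff_eq_zero_of_natDegree_lt ((natDegree_ev M hM L).trans_lt hj)

lemma trace_coeff_mul_comm (p q : (Matrix m m k)[X]) (j : ℕ) :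
    ((p * q).coeff j).trace = ((q * p).coeff j).trace := by
  rw [coeff_mul, coeff_mul, Matrix.trace_sum, Matrix.trace_sum,
    ← Finset.Nat.sum_antidiagonal_swap]
  refine Finset.sum_congr rfl fun x _ => ?_
  exact Matrix.trace_mul_comm _ _

lemma coeff_zero_rho (M : ι → Matrix m m k) (hM : ∀ i, M i * M i = 0) (x : FreeGroup ι) :
    (rho M hM x : (Matrix m m k)[X]).coeff 0 = 1 := by
  have h : ((Units.map (constantCoeff : (Matrix m m k)[X] →+* Matrix m m k).toMonoidHom).comp
      (rho M hM)) = 1 := by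
    ext i : 1
    simp only [rho, MonoidHom.comp_apply, FreeGroup.lift_apply_of, MonoidHom.one_apply]
    ext1
    change constantCoeff (1 + X * C (M i)) = 1
    rw [map_add, map_mul, map_one]
    simp
  have h2 := congrArg (fun f => ((f x : (Matrix m m k)ˣ) : Matrix m m k)) h
  exact h2

/-- the algebra homomorphism -/
noncomputable def Rh (M : ι → Matrix m m k) (hM : ∀ i, M i * M i = 0) :
    MonoidAlgebra k (FreeGroup ι) →ₐ[k] (Matrix m m k)[X] :=
  MonoidAlgebra.lift k _ _ ((Units.coeHom _).comp (rho M hM))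

lemma Rh_of (M : ι → Matrix m m k) (hM : ∀ i, M i * M i = 0) (x : FreeGroup ι) :
    Rh M hM (MonoidAlgebra.of k _ x) = rho M hM x := by
  simp [Rh]

/-- the functional -/
noncomputable def Tr (M : ι → Matrix m m k) (hM : ∀ i, M i * M i = 0) (j : ℕ) :
    MonoidAlgebra k (FreeGroup ι) →ₗ[k] k :=
  (Matrix.traceLinearMap m k k) ∘ₗ ((lcoeff (Matrix m m k) j).restrictScalars k) ∘ₗ
    (Rh M hM).toLinearMap

lemma Tr_apply (M : ι → Matrix m m k) (hM : ∀ i, M i * M i = 0) (j : ℕ)
    (a : MonoidAlgebra k (FreeGroup ι)) : Tr M hM j a = ((Rh M hM a).coeff j).trace := rfl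

lemma cm_le (M : ι → Matrix m m k) (hM : ∀ i, M i * M i = 0) (j : ℕ) :
    cm k (FreeGroup ι) ≤ LinearMap.ker (Tr M hM j) := by
  rw [cm, Submodule.span_le]
  rintro _ ⟨⟨a, b⟩, rfl⟩
  rw [SetLike.mem_coe, LinearMap.mem_ker, map_sub, Tr_apply, Tr_apply, map_mul, map_mul,
    trace_coeff_mul_comm, sub_self]

lemma aug_pow_coeff (M : ι → Matrix m m k) (hM : ∀ i, M i * M i = 0) (K : ℕ) :
    ∀ a ∈ (aug k (FreeGroup ι)) ^ K, ∀ i < K, (Rh M hM a).coeff i = 0 := by
  have h1 : ∀ a ∈ aug k (FreeGroup ι), (Rh M hM a).coeff 0 = 0 := by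
    intro a ha
    refine Submodule.span_induction (p := fun a _ => (Rh M hM a).coeff 0 = 0) ?_ ?_ ?_ ?_ ha
    · rintro _ ⟨x, rfl⟩
      rw [map_sub, Rh_of, map_one, coeff_sub, coeff_zero_rho]
      simp
    · simp
    · intro a b _ _ ha hb
      rw [map_add, coeff_add, ha, hb, add_zero]
    · intro c a _ ha
      rw [map_smul, coeff_smul, ha, smul_zero]
  induction K with
  | zero => intro a _ i hi; omega
  | succ K ih =>
    intro a ha i hi
    rw [pow_succ] at ha
    refine Submodule.mul_induction_on (C := fun a => (Rh M hM a).coeff i = 0) ha ?_ ?_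
    · intro a ha b hb
      rw [map_mul, coeff_mul]
      refine Finset.sum_eq_zero fun x hx => ?_
      rw [Finset.HasAntidiagonal.mem_antidiagonal] at hx
      by_cases h0 : x.2 = 0
      · rw [h0, h1 b hb, mul_zero]
      · rw [ih a ha x.1 (by omega), zero_mul]
    · intro a b ha hb
      rw [map_add, coeff_add, ha, hb, add_zero]

lemma trace_eq (M : ι → Matrix m m k) (hM : ∀ i, M i * M i = 0) (h : MulAut (FreeGroup ι))
    (hh : ∀ (K : ℕ) (x : FreeGroup ι),
      MonoidAlgebra.of k _ (h x) - MonoidAlgebra.of k _ x ∈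
        (aug k (FreeGroup ι)) ^ (K + 1) ⊔ cm k (FreeGroup ι)) (j : ℕ) (x : FreeGroup ι) :
    ((rho M hM (h x) : (Matrix m m k)[X]).coeff j).trace =
      ((rho M hM x : (Matrix m m k)[X]).coeff j).trace := by
  have h1 : (aug k (FreeGroup ι)) ^ (j + 1) ≤ LinearMap.ker (Tr M hM j) := by
    intro a ha
    rw [LinearMap.mem_ker, Tr_apply, aug_pow_coeff M hM (j + 1) a ha j (by omega)]
    simp
  have h2 := sup_le h1 (cm_le M hM j) (hh j x)
  rw [LinearMap.mem_ker, map_sub, Tr_apply, Tr_apply, Rh_of, Rh_of, sub_eq_zero] at h2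
  exact h2

end Rep

/-! ### exponent sums -/

/-- exponent sums with weights -/
noncomputable def es (c : ι → k) : FreeGroup ι →* Multiplicative k :=
  FreeGroup.lift fun i => Multiplicative.ofAdd (c i)

noncomputable def dn (c : ι → k) : FreeGroup ι →* DualNumber k where
  toFun x := 1 + TrivSqZeroExt.inr (es c x).toAdd
  map_one' := by simp
  map_mul' x y := by
    rw [map_mul, toAdd_mul, TrivSqZeroExt.inr_add, add_mul, mul_add, mul_add, one_mul, one_mul,
      mul_one, TrivSqZeroExt.inr_mul_inr, add_zero]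
    abel

/-- the algebra homomorphism -/
noncomputable def Dh (c : ι → k) : MonoidAlgebra k (FreeGroup ι) →ₐ[k] DualNumber k :=
  MonoidAlgebra.lift k _ _ (dn c)

lemma Dh_of (c : ι → k) (x : FreeGroup ι) :
    Dh c (MonoidAlgebra.of k _ x) = 1 + TrivSqZeroExt.inr (es c x).toAdd := by
  simp [Dh, dn]

lemma es_eq (c : ι → k) (h : MulAut (FreeGroup ι))
    (hh : ∀ (K : ℕ) (x : FreeGroup ι),
      MonoidAlgebra.of k _ (h x) - MonoidAlgebra.of k _ x ∈
        (aug k (FreeGroup ι)) ^ (K + 1) ⊔ cm k (FreeGroup ι)) (x : FreeGroup ι) :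
    es c (h x) = es c x := by
  have h0 : ∀ a ∈ aug k (FreeGroup ι), (Dh c a).fst = 0 := by
    intro a ha
    refine Submodule.span_induction (p := fun a _ => (Dh c a).fst = 0) ?_ ?_ ?_ ?_ ha
    · rintro _ ⟨x, rfl⟩
      rw [map_sub, Dh_of, map_one]
      simp
    · simp
    · intro a b _ _ ha hb
      rw [map_add, TrivSqZeroExt.fst_add, ha, hb, add_zero]
    · intro c a _ ha
      rw [map_smul, TrivSqZeroExt.fst_smul, ha, smul_zero]
  have h1 : (aug k (FreeGroup ι)) ^ (1 + 1) ≤ LinearMap.ker (Dh c).toLinearMap := by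
    rw [pow_succ, pow_one, Submodule.mul_le]
    intro a ha b hb
    rw [LinearMap.mem_ker, AlgHom.toLinearMap_apply, map_mul]
    ext
    · rw [TrivSqZeroExt.fst_mul, h0 a ha]; simp
    · rw [TrivSqZeroExt.snd_mul, h0 a ha, h0 b hb]; simp
  have h2 : cm k (FreeGroup ι) ≤ LinearMap.ker (Dh c).toLinearMap := by
    rw [cm, Submodule.span_le]
    rintro _ ⟨⟨a, b⟩, rfl⟩
    rw [SetLike.mem_coe, LinearMap.mem_ker, AlgHom.toLinearMap_apply, map_sub, map_mul, map_mul,
      mul_comm, sub_self]
  have h3 := sup_le h1 h2 (hh 1 x)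
  rw [LinearMap.mem_ker, AlgHom.toLinearMap_apply, map_sub, Dh_of, Dh_of, sub_eq_zero] at h3
  have h4 := congrArg TrivSqZeroExt.snd h3
  simpa using h4

/-! ### the key lemma -/

/-- cyclically alternating lists of syllables -/
def Cyc (W : List (ι × ℤ)) : Prop := (W ++ W.take 1).IsChain (fun p q => p.1 ≠ q.1)

/-- the letter at a cyclic position -/
def idx (W : List (ι × ℤ)) [NeZero W.length] (s : ZMod W.length) : ι :=
  (W[s.val]'(ZMod.val_lt s)).1

lemma idx_ne (W : List (ι × ℤ)) [NeZero W.length] (hW : Cyc W) (h2 : 2 ≤ W.length)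
    (s : ZMod W.length) : idx W s ≠ idx W (s + 1) := by
  have hlt := ZMod.val_lt s
  have hlen : (W ++ W.take 1).length = W.length + 1 := by
    rw [List.length_append, List.length_take]; omega
  have h := List.isChain_iff_getElem.1 hW s.val (by omega)
  rw [List.getElem_append_left hlt] at h
  have hval : (s + 1).val = (s.val + 1) % W.length := by
    rw [ZMod.val_add, ZMod.val_one_eq_one_mod, Nat.add_mod_mod]
  by_cases hs : s.val + 1 < W.length
  · rw [List.getElem_append_left hs] at h
    rw [Nat.mod_eq_of_lt hs] at hval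
    simp only [idx, hval]
    exact h
  · have hs' : s.val + 1 = W.length := by omega
    rw [List.getElem_append_right (by omega)] at h
    have h0 : (s + 1).val = 0 := by rw [hval, hs', Nat.mod_self]
    simp only [idx, h0]
    have h3 : (W.take 1)[s.val + 1 - W.length]'(by
        rw [List.length_take]; omega) = W[0]'(by omega) := by
      simp [hs']
    rw [h3] at h
    exact h

open Classical in
/-- the matrices over `ℕ` -/
noncomputable def NN (W : List (ι × ℤ)) [NeZero W.length] (i : ι) :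
    Matrix (ZMod W.length) (ZMod W.length) ℕ :=
  Matrix.of fun s t => if t = s + 1 ∧ idx W s = i then 1 else 0

lemma NN_sq (W : List (ι × ℤ)) [NeZero W.length] (hW : Cyc W) (h2 : 2 ≤ W.length) (i : ι) :
    NN W i * NN W i = 0 := by
  ext s t
  rw [Matrix.mul_apply, Matrix.zero_apply]
  refine Finset.sum_eq_zero fun u _ => ?_
  simp only [NN, Matrix.of_apply]
  by_cases h1 : u = s + 1 ∧ idx W s = i
  · have h3 : ¬ (t = u + 1 ∧ idx W u = i) := by
      rintro ⟨-, h4⟩
      apply idx_ne W hW h2 s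
      rw [h1.2, ← h1.1, h4]
    rw [if_neg h3, mul_zero]
  · rw [if_neg h1, zero_mul]

lemma one_le_entry (W : List (ι × ℤ)) [NeZero W.length] (t : ℕ) (ht : t ≤ W.length) :
    1 ≤ ((W.take t).map fun p => NN W p.1).prod 0 (t : ZMod W.length) := by
  induction t with
  | zero => simp
  | succ t ih =>
    have ht' : t < W.length := by omega
    rw [List.take_add_one, List.getElem?_eq_getElem ht', Option.toList_some, List.map_append,
      List.prod_append, Matrix.mul_apply]
    refine le_trans ?_ (Finset.single_le_sum (f := fun u : ZMod W.length =>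
      ((W.take t).map fun p => NN W p.1).prod 0 u *
        (([W[t]].map fun p => NN W p.1).prod) u ((t + 1 : ℕ) : ZMod W.length))
      (fun _ _ => Nat.zero_le _) (Finset.mem_univ (t : ZMod W.length)))
    refine le_trans (ih (by omega)) (Nat.le_mul_of_pos_right _ ?_)
    simp only [List.map_cons, List.map_nil, List.prod_cons, List.prod_nil, mul_one, NN,
      Matrix.of_apply]
    rw [if_pos]
    · exact Nat.one_pos
    · refine ⟨by push_cast; rfl, ?_⟩
      have hv : ((t : ℕ) : ZMod W.length).val = t := ZMod.val_natCast_of_lt ht'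
      simp only [idx, hv]

lemma prod_smul_list {m : Type} [Fintype m] [DecidableEq m] (M : ι → Matrix m m k)
    (L : List (ι × ℤ)) :
    (L.map fun p => p.2 • M p.1).prod = (L.map fun p => p.2).prod • (L.map fun p => M p.1).prod := by
  induction L with
  | nil => simp
  | cons p L ih =>
    simp only [List.map_cons, List.prod_cons, ih, smul_mul_smul_comm]

theorem key [CharZero k] (W : List (ι × ℤ)) (hW : Cyc W) (h2 : 2 ≤ W.length)
    (h0 : ∀ p ∈ W, p.2 ≠ 0) :
    ∃ (m : Type) (_ : Fintype m) (_ : DecidableEq m) (M : ι → Matrix m m k)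
      (hM : ∀ i, M i * M i = 0),
      ((rho M hM (ev W) : (Matrix m m k)[X]).coeff W.length).trace ≠ 0 := by
  have : NeZero W.length := ⟨by omega⟩
  let M : ι → Matrix (ZMod W.length) (ZMod W.length) k := fun i =>
    (Nat.castRingHom k).mapMatrix (NN W i)
  have hM : ∀ i, M i * M i = 0 := by
    intro i
    rw [← map_mul, NN_sq W hW h2, map_zero]
  refine ⟨ZMod W.length, inferInstance, inferInstance, M, hM, ?_⟩
  rw [coeff_ev_length, prod_smul_list, Matrix.trace_smul]
  have h1 : (W.map fun p => M p.1).prod =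
      (Nat.castRingHom k).mapMatrix (W.map fun p => NN W p.1).prod := by
    rw [map_list_prod, List.map_map]
    rfl
  have h3 : ((Nat.castRingHom k).mapMatrix (W.map fun p => NN W p.1).prod).trace =
      (((W.map fun p => NN W p.1).prod.trace : ℕ) : k) := by
    rw [Matrix.trace, Matrix.trace, Nat.cast_sum]
    rfl
  have h4 : 1 ≤ (W.map fun p => NN W p.1).prod.trace := by
    have h5 := one_le_entry W W.length le_rfl
    rw [List.take_length, ZMod.natCast_self] at h5
    refine h5.trans ?_
    rw [Matrix.trace]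
    exact Finset.single_le_sum (f := fun s => Matrix.diag (W.map fun p => NN W p.1).prod s)
      (fun _ _ => Nat.zero_le _) (Finset.mem_univ 0)
  rw [h1, h3, zsmul_eq_mul]
  refine mul_ne_zero ?_ ?_
  · rw [Int.cast_ne_zero]
    intro h5
    obtain ⟨p, hp, hp'⟩ := List.mem_map.1 (List.prod_eq_zero_iff.1 h5)
    exact h0 p hp hp'
  · rw [Nat.cast_ne_zero]
    omega

/-! ### syllable lists -/

lemma exists_ev (x : FreeGroup ι) : ∃ L, ev L = x := by
  induction x using FreeGroup.induction_on with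
  | C1 => exact ⟨[], rfl⟩
  | of i => exact ⟨[(i, 1)], by simp [ev]⟩
  | inv_of i _ => exact ⟨[(i, -1)], by simp [ev]⟩
  | mul x y hx hy =>
    obtain ⟨L, rfl⟩ := hx
    obtain ⟨L', rfl⟩ := hy
    exact ⟨L ++ L', ev_append L L'⟩

lemma exists_min (P : List (ι × ℤ) → Prop) (hP : ∃ L, P L) :
    ∃ L, P L ∧ ∀ L', P L' → L.length ≤ L'.length := by
  obtain ⟨L, hL⟩ := hP
  obtain ⟨L', h1, h2⟩ := (measure (List.length (α := ι × ℤ))).wf.has_min {L | P L} ⟨L, hL⟩
  refine ⟨L', h1, fun L'' h => ?_⟩
  have := h2 L'' h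
  exact not_lt.1 this

lemma ev_drop (l₁ l₂ : List (ι × ℤ)) (p : ι × ℤ) (hp : p.2 = 0) :
    ev (l₁ ++ p :: l₂) = ev (l₁ ++ l₂) := by
  rw [ev_append, ev_append, ev_cons, hp, zpow_zero, one_mul]

lemma ev_merge (l₁ l₂ : List (ι × ℤ)) (p q : ι × ℤ) (hp : p.1 = q.1) :
    ev (l₁ ++ p :: q :: l₂) = ev (l₁ ++ (p.1, p.2 + q.2) :: l₂) := by
  rw [ev_append, ev_append, ev_cons, ev_cons, ev_cons, hp, zpow_add]
  simp only [mul_assoc]

lemma isConj_mul_comm {G : Type} [Group G] (x y : G) : IsConj (x * y) (y * x) :=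
  isConj_iff.2 ⟨x⁻¹, by group⟩

lemma exists_cyc (x : FreeGroup ι) :
    ∃ L, IsConj (ev L) x ∧ (∀ p ∈ L, p.2 ≠ 0) ∧ (2 ≤ L.length → Cyc L) := by
  obtain ⟨L, h1, hmin⟩ := exists_min (fun L => IsConj (ev L) x)
    (by obtain ⟨L, rfl⟩ := exists_ev x; exact ⟨L, IsConj.refl _⟩)
  refine ⟨L, h1, ?_, ?_⟩
  · intro p hp h0
    obtain ⟨l₁, l₂, rfl⟩ := List.append_of_mem hp
    rw [ev_drop l₁ l₂ p h0] at h1
    have := hmin _ h1
    simp only [List.length_append, List.length_cons] at this
    omega
  · intro h2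
    rw [Cyc, List.isChain_iff_forall_rel_of_append_cons_cons]
    intro a b l₁ l₂ h hab
    rcases List.eq_nil_or_concat' l₂ with rfl | ⟨l₃, c, rfl⟩
    · obtain ⟨p, L', rfl⟩ : ∃ p L', L = p :: L' := by
        cases L with
        | nil => simp at h2
        | cons p L' => exact ⟨p, L', rfl⟩
      have h3 : (p :: L') ++ [p] = (l₁ ++ [a]) ++ [b] := by
        simpa using h
      obtain ⟨h4, h5⟩ := List.append_inj' h3 rfl
      obtain ⟨l₁', rfl⟩ : ∃ l₁', l₁ = p :: l₁' := by
        cases l₁ with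
        | nil => simp at h4; rw [h4.2] at h2; simp at h2
        | cons q l₁' => simp at h4; exact ⟨l₁', by rw [h4.1]⟩
      have h6 : b = p := by simpa using h5.symm
      rw [h4] at h1 hmin
      have h7 : IsConj (ev ((p.1, a.2 + p.2) :: l₁')) x := by
        refine IsConj.trans ?_ h1
        have e1 : ev ((p.1, a.2 + p.2) :: l₁') = FreeGroup.of a.1 ^ a.2 * ev (p :: l₁') := by
          rw [ev_cons, ev_cons, hab, h6, zpow_add, mul_assoc]
        have e2 : ev (p :: l₁' ++ [a]) = ev (p :: l₁') * FreeGroup.of a.1 ^ a.2 := by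
          rw [ev_append, ev_cons a, ev_nil, mul_one]
        rw [e1, e2]
        exact isConj_mul_comm _ _
      have := hmin _ h7
      simp only [List.length_append, List.length_cons, List.length_nil] at this
      omega
    · have h3 : L ++ L.take 1 = (l₁ ++ a :: b :: l₃) ++ [c] := by
        simpa using h
      obtain ⟨h4, h5⟩ := List.append_inj' h3 (by
        rw [List.length_take, List.length_singleton]; omega)
      rw [h4, ev_merge _ _ _ _ hab] at h1
      have := hmin _ h1
      rw [h4] at this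
      simp only [List.length_append, List.length_cons] at this
      omega

lemma exists_strip (u : FreeGroup ι) (i j : ι) :
    ∃ (a b : ℤ) (L : List (ι × ℤ)), u = FreeGroup.of i ^ a * ev L * FreeGroup.of j ^ b ∧
      (∀ p ∈ L, p.2 ≠ 0) ∧
      (L ≠ [] → ((i, 1) :: (L ++ [(j, 1)])).IsChain (fun p q : ι × ℤ => p.1 ≠ q.1)) := by
  obtain ⟨L, ⟨a, b, h1⟩, hmin⟩ := exists_min (fun L => ∃ a b : ℤ,
      u = FreeGroup.of i ^ a * ev L * FreeGroup.of j ^ b)
    (by obtain ⟨L, rfl⟩ := exists_ev u; exact ⟨L, 0, 0, by simp⟩)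
  refine ⟨a, b, L, h1, ?_, ?_⟩
  · intro p hp h0
    obtain ⟨l₁, l₂, rfl⟩ := List.append_of_mem hp
    rw [ev_drop l₁ l₂ p h0] at h1
    have := hmin _ ⟨a, b, h1⟩
    simp only [List.length_append, List.length_cons] at this
    omega
  · intro hL
    rw [List.isChain_iff_forall_rel_of_append_cons_cons]
    intro p q l₁ l₂ h hpq
    cases l₁ with
    | nil =>
      obtain ⟨c, L', rfl⟩ := List.exists_cons_of_ne_nil hL
      simp only [List.cons_append, List.nil_append, List.cons.injEq] at h
      obtain ⟨h3, h4, h5⟩ := h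
      rw [← h3, ← h4] at hpq
      simp only at hpq
      have h7 : u = FreeGroup.of i ^ (a + c.2) * ev L' * FreeGroup.of j ^ b := by
        rw [h1, ev_cons, ← hpq, zpow_add]
        simp only [mul_assoc]
      have := hmin _ ⟨_, _, h7⟩
      simp only [List.length_cons] at this
      omega
    | cons d l₁ =>
      simp only [List.cons_append, List.cons.injEq] at h
      obtain ⟨-, h⟩ := h
      rcases List.eq_nil_or_concat' l₂ with rfl | ⟨l₃, c, rfl⟩
      · have h3 : L ++ [(j, 1)] = (l₁ ++ [p]) ++ [q] := by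
          simpa using h
        obtain ⟨h4, h5⟩ := List.append_inj' h3 rfl
        have h6 : q = (j, 1) := by simpa using h5.symm
        have h7 : u = FreeGroup.of i ^ a * ev l₁ * FreeGroup.of j ^ (p.2 + b) := by
          rw [h1, h4, ev_append, ev_cons, ev_nil, hpq, h6, zpow_add]
          simp only [mul_assoc, mul_one]
        have := hmin _ ⟨_, _, h7⟩
        rw [h4] at this
        simp only [List.length_append, List.length_cons] at this
        omega
      · have h3 : L ++ [(j, 1)] = (l₁ ++ p :: q :: l₃) ++ [c] := by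
          simpa using h
        obtain ⟨h4, h5⟩ := List.append_inj' h3 rfl
        rw [h4, ev_merge _ _ _ _ hpq] at h1
        have := hmin _ ⟨a, b, h1⟩
        rw [h4] at this
        simp only [List.length_append, List.length_cons] at this
        omega

/-- the inverse list -/
def invL (L : List (ι × ℤ)) : List (ι × ℤ) := (L.map fun p => (p.1, -p.2)).reverse

lemma ev_invL (L : List (ι × ℤ)) : ev (invL L) = (ev L)⁻¹ := by
  induction L with
  | nil => simp [invL, ev]
  | cons p L ih =>
    rw [ev_cons, mul_inv_rev, ← ih]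
    have : invL (p :: L) = invL L ++ [(p.1, -p.2)] := by simp [invL]
    rw [this, ev_append, ev_cons, ev_nil, mul_one, zpow_neg]

lemma cyc_W (i j : ι) (L : List (ι × ℤ))
    (h : ((i, 1) :: (L ++ [(j, 1)])).IsChain (fun p q : ι × ℤ => p.1 ≠ q.1)) :
    Cyc ((i, 1) :: (L ++ (j, 1) :: invL L)) := by
  have h2 : ((j, 1) :: (invL L ++ [(i, 1)])).IsChain (fun p q : ι × ℤ => p.1 ≠ q.1) := by
    have h3 : ((i, 1) :: (L ++ [(j, 1)])).reverse.IsChain (fun p q : ι × ℤ => p.1 ≠ q.1) := by
      rw [List.isChain_reverse]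
      exact h.imp fun a b hab => hab.symm
    have h4 : ((i, 1) :: (L ++ [(j, 1)])).reverse = (j, 1) :: (L.reverse ++ [((i, 1) : ι × ℤ)]) := by
      simp
    rw [h4] at h3
    have h5 := (List.isChain_map (R := fun a b : ι => a ≠ b) Prod.fst).2 h3
    rw [← List.isChain_map (R := fun a b : ι => a ≠ b) Prod.fst]
    have h6 : List.map Prod.fst ((j, 1) :: (invL L ++ [((i, 1) : ι × ℤ)])) =
        List.map Prod.fst ((j, 1) :: (L.reverse ++ [((i, 1) : ι × ℤ)])) := by
      simp [invL]
    rw [h6]
    exact h5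
  rw [Cyc]
  have h7 : ((i, 1) :: (L ++ (j, 1) :: invL L)) ++ ((i, 1) :: (L ++ (j, 1) :: invL L)).take 1 =
      ((i, 1) :: L) ++ ((j, 1) :: (invL L ++ [(i, 1)])) := by
    simp
  rw [h7, List.isChain_split]
  exact ⟨h, h2⟩

/-! ### the conclusion -/

/-- `h` preserves all our class functions -/
def Good (k : Type) [Field k] (h : MulAut (FreeGroup ι)) : Prop :=
  (∀ (m : Type) [Fintype m] [DecidableEq m] (M : ι → Matrix m m k) (hM : ∀ i, M i * M i = 0)
    (j : ℕ) (x : FreeGroup ι), ((rho M hM (h x) : (Matrix m m k)[X]).coeff j).trace =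
      ((rho M hM x : (Matrix m m k)[X]).coeff j).trace) ∧
  ∀ (c : ι → k) (x : FreeGroup ι), es c (h x) = es c x

lemma trace_conj {m : Type} [Fintype m] [DecidableEq m] (M : ι → Matrix m m k)
    (hM : ∀ i, M i * M i = 0) (j : ℕ) (x y : FreeGroup ι) (hxy : IsConj x y) :
    ((rho M hM x : (Matrix m m k)[X]).coeff j).trace =
      ((rho M hM y : (Matrix m m k)[X]).coeff j).trace := by
  obtain ⟨c, rfl⟩ := isConj_iff.1 hxy
  rw [map_mul, Units.val_mul, trace_coeff_mul_comm, ← Units.val_mul, ← map_mul]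
  congr 4
  group

lemma es_conj (c : ι → k) (x y : FreeGroup ι) (hxy : IsConj x y) : es c x = es c y := by
  obtain ⟨g, rfl⟩ := isConj_iff.1 hxy
  rw [map_mul, map_mul, map_inv, mul_comm (es c g), mul_inv_cancel_right]

lemma isConj_conj (g : FreeGroup ι) (x : FreeGroup ι) : IsConj (MulAut.conj g x) x :=
  (isConj_iff.2 ⟨g, by simp [MulAut.conj_apply]⟩ : IsConj x (MulAut.conj g x)).symm

lemma Good.conj {h : MulAut (FreeGroup ι)} (hg : Good k h) (g : FreeGroup ι) :
    Good k (MulAut.conj g * h) := by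
  refine ⟨?_, ?_⟩
  · intro m _ _ M hM j x
    rw [MulAut.mul_apply, trace_conj M hM j _ _ (isConj_conj g (h x)), hg.1]
  · intro c x
    rw [MulAut.mul_apply, es_conj c _ _ (isConj_conj g (h x)), hg.2]

lemma Good.noshort [CharZero k] {h : MulAut (FreeGroup ι)} (hg : Good k h)
    (L W : List (ι × ℤ)) (hc : IsConj (h (ev L)) (ev W)) (hlt : L.length < W.length)
    (h2 : 2 ≤ W.length) (hW : Cyc W) (h0 : ∀ p ∈ W, p.2 ≠ 0) : False := by
  obtain ⟨m, _, _, M, hM, h3⟩ := key (k := k) W hW h2 h0
  apply h3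
  rw [← trace_conj M hM W.length _ _ hc, hg.1, coeff_ev_lt M hM L _ hlt, Matrix.trace_zero]

lemma es_of (c : ι → k) (i : ι) : es c (FreeGroup.of i) = Multiplicative.ofAdd (c i) := by
  simp [es]

lemma Good.stepa [CharZero k] {h : MulAut (FreeGroup ι)} (hg : Good k h) (i : ι) :
    ∃ g, h (FreeGroup.of i) = g * FreeGroup.of i * g⁻¹ := by
  classical
  obtain ⟨L, h1, h0, h2⟩ := exists_cyc (h (FreeGroup.of i))
  have hev : ev [(i, (1 : ℤ))] = FreeGroup.of i := by simp [ev]
  by_cases h3 : 2 ≤ L.length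
  · exfalso
    exact hg.noshort [(i, 1)] L (by rw [hev]; exact h1.symm) (by simp; omega) h3 (h2 h3) h0
  · have h4 : ∀ c : ι → k, es c (ev L) = Multiplicative.ofAdd (c i) := by
      intro c
      rw [es_conj c _ _ h1, hg.2, es_of]
    rcases L with _ | ⟨p, _ | ⟨q, L⟩⟩
    · exfalso
      have := h4 fun _ => 1
      rw [ev_nil, map_one] at this
      have h5 := congrArg Multiplicative.toAdd this
      simp at h5
    · have h5 := h4 (Pi.single i 1)
      rw [ev_cons, ev_nil, mul_one, map_zpow, es_of] at h5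
      have h6 := congrArg Multiplicative.toAdd h5
      rw [toAdd_zpow, toAdd_ofAdd, toAdd_ofAdd, Pi.single_eq_same] at h6
      by_cases h7 : p.1 = i
      · rw [h7, Pi.single_eq_same, zsmul_eq_mul, mul_one, Int.cast_eq_one] at h6
        have h8 : ev [p] = FreeGroup.of i := by
          rw [ev_cons, ev_nil, mul_one, h6, h7, zpow_one]
        rw [h8] at h1
        obtain ⟨g, hg'⟩ := isConj_iff.1 h1
        exact ⟨g, hg'.symm⟩
      · rw [Pi.single_eq_of_ne h7, smul_zero] at h6
        exact absurd h6 (by simp)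
    · simp at h3

lemma Good.stepb [CharZero k] {h : MulAut (FreeGroup ι)} (hg : Good k h) (i j : ι)
    (hi : h (FreeGroup.of i) = FreeGroup.of i) :
    ∃ a : ℤ, h (FreeGroup.of j) =
      FreeGroup.of i ^ a * FreeGroup.of j * (FreeGroup.of i ^ a)⁻¹ := by
  obtain ⟨g, h1⟩ := hg.stepa j
  obtain ⟨a, b, L, h2, h0, h3⟩ := exists_strip g i j
  refine ⟨a, ?_⟩
  have hcomm : FreeGroup.of j ^ b * FreeGroup.of j * (FreeGroup.of j ^ b)⁻¹ = FreeGroup.of j := by
    group
  have h4 : h (FreeGroup.of j) = FreeGroup.of i ^ a * (ev L * FreeGroup.of j * (ev L)⁻¹) *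
      (FreeGroup.of i ^ a)⁻¹ := by
    rw [h1, h2]
    group
  by_cases hL : L = []
  · rw [h4, hL, ev_nil]; group
  · exfalso
    have hev : ev [(i, (1 : ℤ)), (j, 1)] = FreeGroup.of i * FreeGroup.of j := by simp [ev]
    refine hg.noshort [(i, 1), (j, 1)] ((i, 1) :: (L ++ (j, 1) :: invL L)) ?_ ?_ ?_
      (cyc_W i j L (h3 hL)) ?_
    · rw [hev, map_mul, hi, h4, ev_cons, ev_append, ev_cons, ev_invL]
      refine isConj_iff.2 ⟨(FreeGroup.of i ^ a)⁻¹, ?_⟩
      group
    · have : L.length ≠ 0 := fun h => hL (List.length_eq_zero_iff.1 h)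
      simp only [List.length_cons, List.length_append, List.length_nil]
      omega
    · simp only [List.length_cons, List.length_append]
      omega
    · intro p hp
      simp only [invL, List.mem_cons, List.mem_append, List.mem_reverse, List.mem_map] at hp
      rcases hp with rfl | hp | rfl | ⟨q, hq, rfl⟩
      · simp
      · exact h0 p hp
      · simp
      · simpa using h0 q hq

lemma Good.stepc [CharZero k] {h : MulAut (FreeGroup ι)} (hg : Good k h) (i j l : ι)
    (hij : i ≠ j) (hil : i ≠ l)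
    (hi : h (FreeGroup.of i) = FreeGroup.of i) (hj : h (FreeGroup.of j) = FreeGroup.of j) :
    h (FreeGroup.of l) = FreeGroup.of l := by
  obtain ⟨a, h1⟩ := hg.stepb i l hi
  by_cases ha : a = 0
  · rw [h1, ha]; simp
  · exfalso
    have hev : ev [(j, (1 : ℤ)), (l, 1)] = FreeGroup.of j * FreeGroup.of l := by simp [ev]
    refine hg.noshort [(j, 1), (l, 1)] [(j, 1), (i, a), (l, 1), (i, -a)] ?_ (by simp) (by simp)
      ?_ ?_
    · rw [hev, map_mul, hj, h1]
      have : ev [(j, (1 : ℤ)), (i, a), (l, 1), (i, -a)] =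
          FreeGroup.of j * (FreeGroup.of i ^ a * FreeGroup.of l * (FreeGroup.of i ^ a)⁻¹) := by
        simp [ev, mul_assoc]
      rw [this]
    · rw [Cyc]
      simp [hij, hij.symm, hil, hil.symm]
    · intro p hp
      simp only [List.mem_cons, List.not_mem_nil, or_false] at hp
      rcases hp with rfl | rfl | rfl | rfl
      · simp
      · exact ha
      · simp
      · simpa using ha

lemma eq_one_of_fix (h : MulAut (FreeGroup ι)) (hf : ∀ i, h (FreeGroup.of i) = FreeGroup.of i) :
    h = 1 := by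
  have h1 : (h : FreeGroup ι ≃* FreeGroup ι).toMonoidHom = MonoidHom.id _ := by
    ext i : 1
    exact hf i
  ext x : 1
  exact DFunLike.congr_fun h1 x

theorem Good.inner [CharZero k] {h : MulAut (FreeGroup ι)} (hg : Good k h) :
    ∃ y, h = MulAut.conj y := by
  by_cases hι : Nonempty ι
  · obtain ⟨i⟩ := hι
    obtain ⟨g, h1⟩ := hg.stepa i
    have hg' := hg.conj g⁻¹
    have hi : (MulAut.conj g⁻¹ * h) (FreeGroup.of i) = FreeGroup.of i := by
      rw [MulAut.mul_apply, h1, MulAut.conj_apply]; group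
    by_cases hj : ∃ j, j ≠ i
    · obtain ⟨j, hj⟩ := hj
      obtain ⟨a, ha⟩ := hg'.stepb i j hi
      have hg'' := hg'.conj (FreeGroup.of i ^ a)⁻¹
      have hi' : (MulAut.conj (FreeGroup.of i ^ a)⁻¹ * (MulAut.conj g⁻¹ * h)) (FreeGroup.of i) =
          FreeGroup.of i := by
        rw [MulAut.mul_apply, hi, MulAut.conj_apply]; group
      have hj' : (MulAut.conj (FreeGroup.of i ^ a)⁻¹ * (MulAut.conj g⁻¹ * h)) (FreeGroup.of j) =
          FreeGroup.of j := by
        rw [MulAut.mul_apply, ha, MulAut.conj_apply]; group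
      have h3 := eq_one_of_fix _ (fun l => by
        by_cases h4 : l = i
        · rw [h4]; exact hi'
        · by_cases h5 : l = j
          · rw [h5]; exact hj'
          · exact hg''.stepc i j l (Ne.symm hj) (Ne.symm h4) hi' hj')
      refine ⟨g * FreeGroup.of i ^ a, ?_⟩
      rw [← mul_assoc, ← map_mul, ← mul_inv_rev, map_inv, inv_mul_eq_one] at h3
      exact h3.symm
    · push Not at hj
      have h3 := eq_one_of_fix _ (fun l => by rw [hj l]; exact hi)
      refine ⟨g, ?_⟩
      rw [map_inv, inv_mul_eq_one] at h3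
      exact h3.symm
  · refine ⟨1, ?_⟩
    rw [map_one]
    exact eq_one_of_fix _ fun i => absurd ⟨i⟩ hι

end Pool.Agent.H371.SB.SB10x

namespace Pool.Agent.H371.SB

theorem inner_of_cyc (k : Type) [Field k] [CharZero k] (n : ℕ) (h : MulAut (FreeGroup (Fin n)))
    (hh : ∀ (K : ℕ) (x : FreeGroup (Fin n)),
      MonoidAlgebra.of k _ (h x) - MonoidAlgebra.of k _ x ∈
        (aug k (FreeGroup (Fin n))) ^ (K + 1) ⊔ cm k (FreeGroup (Fin n))) :
    ∃ y, h = MulAut.conj y :=
  SB10x.Good.inner (k := k) ⟨fun _ _ _ M hM j x => SB10x.trace_eq M hM h hh j x,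
    fun c x => SB10x.es_eq c h hh x⟩

end Pool.Agent.H371.SB
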