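import Pool.Agent.H371.SB.Defs
import Pool.Agent.H371.SA.TR2

/-!
TASK SB-2: free products with `ℤ` and with free groups.
-/

set_option autoImplicit false

namespace Pool.Agent.H371.SB

open Pool.Agent.H371.SA

namespace SB2x

open Polynomial Pool.Agent.H371.SA.R2x

/-- subgroups (injective preimages) -/
theorem GR_sub (p : ℕ) [Fact p.Prime] (c : ℕ) (G H : Type) [Group G] [Group H] (f : H →* G)
    (hf : Function.Injective f) (hG : GR p c G) : GR p c H := by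
  obtain ⟨A, iR, iA, iF, iM, P, k, φ, χ, hk, hP, hχ, hc, h0, hs⟩ := hG
  refine ⟨A, iR, iA, iF, iM, P, k, φ.comp f, χ, hk, hP, hχ, hc, h0, ?_⟩
  intro g hg
  obtain ⟨l, B, jR, jA, jF, jM, ψ, h1, h2⟩ := hs (f g) (by
    intro h
    apply hg
    apply hf
    rw [h, map_one])
  exact ⟨l, B, jR, jA, jF, jM, ψ.comp f, fun h hh => h1 (f h) hh, h2⟩

/-- one homomorphism which separates finitely many elements -/
theorem combine (p : ℕ) [Fact p.Prime] {G A : Type} [Group G] [Ring A] (P : Subgroup Aˣ)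
    (φ : G →* P)
    (hs : ∀ g : G, g ≠ 1 → ∃ (l : ℕ) (B : Type) (_ : Ring B) (_ : Algebra ℤ_[p] B)
      (_ : Module.Free ℤ_[p] B) (_ : Module.Finite ℤ_[p] B) (ψ : G →* Bˣ),
      (∀ h : G, (∃ a : A, ((φ h : Aˣ) : A) = 1 + (p : A) ^ l * a) →
        ∃ b : B, (ψ h : B) = 1 + (p : B) ^ 2 * b) ∧ ψ g ≠ 1) (S : List G) :
    ∃ (l : ℕ) (B : Type) (_ : Ring B) (_ : Algebra ℤ_[p] B)
      (_ : Module.Free ℤ_[p] B) (_ : Module.Finite ℤ_[p] B) (ψ : G →* Bˣ),
      (∀ h : G, (∃ a : A, ((φ h : Aˣ) : A) = 1 + (p : A) ^ l * a) →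
        ∃ b : B, (ψ h : B) = 1 + (p : B) ^ 2 * b) ∧ ∀ g ∈ S, g ≠ 1 → ψ g ≠ 1 := by
  induction S with
  | nil =>
    refine ⟨0, ℤ_[p], inferInstance, inferInstance, inferInstance, inferInstance, 1, ?_, ?_⟩
    · intro h _
      exact ⟨0, by simp⟩
    · intro g hg
      simp at hg
  | cons g S ih =>
    by_cases hg : g = 1
    · obtain ⟨l, B, jR, jA, jF, jM, ψ, h1, h2⟩ := ih
      refine ⟨l, B, jR, jA, jF, jM, ψ, h1, ?_⟩
      intro g' hg' hg1
      rcases List.mem_cons.1 hg' with h | h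
      · exact absurd (h.trans hg) hg1
      · exact h2 g' h hg1
    · obtain ⟨l, B, jR, jA, jF, jM, ψ, h1, h2⟩ := ih
      obtain ⟨l', B', jR', jA', jF', jM', ψ', h1', h2'⟩ := hs g hg
      refine ⟨max l l', B × B', inferInstance, inferInstance, inferInstance, inferInstance,
        MulEquiv.prodUnits.symm.toMonoidHom.comp (ψ.prod ψ'), ?_, ?_⟩
      · rintro h ⟨a, ha⟩
        obtain ⟨b, hb⟩ := h1 h ⟨(p : A) ^ (max l l' - l) * a, by
          rw [← mul_assoc, ← pow_add, Nat.add_sub_cancel' (le_max_left l l')]; exact ha⟩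
        obtain ⟨b', hb'⟩ := h1' h ⟨(p : A) ^ (max l l' - l') * a, by
          rw [← mul_assoc, ← pow_add, Nat.add_sub_cancel' (le_max_right l l')]; exact ha⟩
        refine ⟨(b, b'), ?_⟩
        apply Prod.ext
        · change ((ψ h : Bˣ) : B) = _
          rw [hb]
          simp
        · change ((ψ' h : B'ˣ) : B') = _
          rw [hb']
          simp
      · intro g' hg' hg1 h3
        have h4 : (ψ g', ψ' g') = (1, 1) := by
          apply MulEquiv.prodUnits.symm.injective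
          rw [show ((1 : Bˣ), (1 : B'ˣ)) = 1 from rfl, map_one]
          exact h3
        rw [Prod.mk.injEq] at h4
        rcases List.mem_cons.1 hg' with h | h
        · subst h
          exact h2' h4.2
        · exact h2 g' h hg1 h4.1

section matrix
variable {R n : Type} [CommRing R] [IsDomain R] [CharZero R] [Fintype n] [DecidableEq n]

theorem mv_PD' {G : Type} [Group G] (Γ : G → Matrix n n R) (v ψ : n → R) (L : List (ℤ × G))
    (hL : Red L) (hne : L ≠ []) (hψ : ∀ g, Matrix.vecMul ψ (Γ g) ≠ 0)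
    (hv : ∀ a ∈ L, a.2 ≠ 1 → ψ ⬝ᵥ (Matrix.mulVec (Γ a.2) v) ≠ 0) :
    ∃ (c : R) (χ : n → R), c ≠ 0 ∧ χ ≠ 0 ∧
      PD L.length (fun τ => mv Γ v ψ τ L) (c • Matrix.vecMulVec v χ) := by
  induction L with
  | nil => exact absurd rfl hne
  | cons a L ih =>
    obtain ⟨m, g⟩ := a
    have hm : (m : R) ≠ 0 := by
      have := hL.head
      simpa using this
    have hfun : ∀ τ, mv Γ v ψ τ ((m, g) :: L) =
        (Γ g + τ • ((m : R) • (Matrix.vecMulVec v ψ * Γ g))) * mv Γ v ψ τ L := by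
      intro τ
      rw [mv, add_mul, one_mul, Matrix.smul_mul, mul_comm (m : R) τ, mul_smul]
    simp only [hfun, List.length_cons]
    cases L with
    | nil =>
      refine ⟨m, Matrix.vecMul ψ (Γ g), hm, hψ g, ?_⟩
      have h1 := (PD.one (R := R) (n := n)).step (Γ g) ((m : R) • (Matrix.vecMulVec v ψ * Γ g))
      rw [mul_one] at h1
      rw [← Matrix.vecMulVec_mul]
      exact h1
    | cons b L =>
      obtain ⟨c, χ, hc, hχ, hPD⟩ := ih hL.tail (by simp)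
        (fun a ha => hv a (List.mem_cons_of_mem _ ha))
      have hg : g ≠ 1 := hL.2.1
      refine ⟨(m : R) * c * (ψ ⬝ᵥ (Matrix.mulVec (Γ g) v)), χ,
        mul_ne_zero (mul_ne_zero hm hc) (hv (m, g) (List.mem_cons_self) hg), hχ, ?_⟩
      have h1 := hPD.step (Γ g) ((m : R) • (Matrix.vecMulVec v ψ * Γ g))
      convert h1 using 1
      rw [Matrix.smul_mul, Matrix.mul_smul, Matrix.mul_vecMulVec, ← Matrix.mulVec_mulVec,
        Matrix.vecMulVec_mulVec]
      ext i j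
      simp only [Matrix.smul_apply, Matrix.vecMulVec_apply, smul_eq_mul, Pi.smul_apply,
        op_smul_eq_smul]
      ring

end matrix

/-- choice of the parameter -/
theorem exists_tau' (p : ℕ) [Fact p.Prime] {n : Type} [Fintype n] [DecidableEq n] {G : Type}
    [Group G] (Γ : G → Matrix n n ℤ_[p]) (v ψ : n → ℤ_[p])
    (hψ : ∀ g, Matrix.vecMul ψ (Γ g) ≠ 0) (hΓ : ∀ g, Matrix.mulVec (Γ g) v ≠ 0)
    (c : ℤ_[p]) (hc : c ≠ 0) (g : G) (L : List (ℤ × G)) (hL : Red L) (hne : L ≠ [])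
    (hv : ∀ a ∈ L, a.2 ≠ 1 → ψ ⬝ᵥ (Matrix.mulVec (Γ a.2) v) ≠ 0) :
    ∃ t : ℤ_[p], Γ g * mv Γ v ψ (c * t) L ≠ 1 := by
  have key : ∃ P : ℤ_[p][X], P ≠ 0 ∧ ∀ τ, Γ g * mv Γ v ψ τ L = 1 → P.eval τ = 0 := by
    obtain ⟨c, χ, hc, hχ, hPD⟩ := mv_PD' Γ v ψ L hL hne hψ hv
    have h1 := hPD.mul_left (Γ g)
    rw [Matrix.mul_smul, Matrix.mul_vecMulVec] at h1
    obtain ⟨a, ha⟩ := Function.ne_iff.1 (hΓ g)
    obtain ⟨b, hb⟩ := Function.ne_iff.1 hχ
    obtain ⟨P, -, hP2, hP3⟩ := h1 a b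
    refine ⟨P - Polynomial.C ((1 : Matrix n n ℤ_[p]) a b), ?_, ?_⟩
    · intro h0
      have h2 : (P - Polynomial.C ((1 : Matrix n n ℤ_[p]) a b)).coeff L.length = 0 := by
        rw [h0, Polynomial.coeff_zero]
      have h3 : 0 < L.length := List.length_pos_iff.2 hne
      rw [Polynomial.coeff_sub, hP2, Polynomial.coeff_C, if_neg h3.ne', sub_zero,
        Matrix.smul_apply, Matrix.vecMulVec_apply, smul_eq_mul] at h2
      exact mul_ne_zero hc (mul_ne_zero ha hb) h2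
    · intro τ hτ
      rw [Polynomial.eval_sub, Polynomial.eval_C, ← hP3]
      change (Γ g * mv Γ v ψ τ L) a b - _ = 0
      rw [hτ, sub_self]
  obtain ⟨P, hP0, hP⟩ := key
  obtain ⟨t, ht⟩ := exists_avoid p (fun _ : Unit => P) (fun _ => hP0) c hc
  exact ⟨t, fun h => ht () (hP _ h)⟩

section construction
variable {p : ℕ} [Fact p.Prime] {A : Type} [Ring A] [Algebra ℤ_[p] A] [Module.Free ℤ_[p] A]
  [Module.Finite ℤ_[p] A]

/-- vectors -/
theorem exists_vectors' {G : Type} [Group G] (φ : G →* Aˣ) {S : Type} [Countable S] (s : S → G)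
    (hφ : ∀ i, φ (s i) ≠ 1) : ∃ v ψ : J p A → ℤ_[p], ψ ⬝ᵥ v = 0 ∧
      (∀ g, Matrix.vecMul ψ (Ga (φ g : A)) ≠ 0) ∧ (∀ g, Matrix.mulVec (Ga (φ g : A)) v ≠ 0) ∧
      (∀ i, ψ ⬝ᵥ (Matrix.mulVec (Ga (φ (s i) : A)) v) ≠ 0) := by
  have h1 : ∀ g : S, lr (p := p) (φ (s g) : A) - 1 ≠ 0 := by
    intro g h
    apply hφ g
    apply Units.ext
    apply lr_injective (p := p)
    rw [sub_eq_zero] at h
    rw [h, Units.val_one, map_one]
  have h2 : ∀ g : S, ∃ i, (lr (p := p) (φ (s g) : A) - 1) i ≠ 0 := by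
    intro g
    by_contra hcon
    push Not at hcon
    apply h1 g
    ext i j
    rw [hcon i]; rfl
  choose i hi using h2
  obtain ⟨v0, hv0⟩ := exists_vec p (fun g : S =>
    (lr (p := p) (φ (s g) : A) - 1) (i g)) hi
  have h3 : ∀ g : S, Matrix.mulVec (lr (p := p) (φ (s g) : A) - 1) v0 ≠ 0 := by
    intro g h
    exact hv0 g (congrFun h (i g))
  obtain ⟨ψ0, hψ0⟩ := exists_vec p (fun g : S =>
    Matrix.mulVec (lr (p := p) (φ (s g) : A) - 1) v0) h3
  have hinv : ∀ g, Ga (p := p) (φ g : A) * Ga (φ g⁻¹ : A) = 1 := by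
    intro g
    rw [← map_mul, ← Units.val_mul, ← map_mul, mul_inv_cancel, map_one, Units.val_one, map_one]
  have hinv' : ∀ g, Ga (p := p) (φ g⁻¹ : A) * Ga (φ g : A) = 1 := by
    intro g
    rw [← map_mul, ← Units.val_mul, ← map_mul, inv_mul_cancel, map_one, Units.val_one, map_one]
  refine ⟨Sum.elim v0 ![1, 0], Sum.elim ψ0 ![-(ψ0 ⬝ᵥ v0), 1], ?_, ?_, ?_, ?_⟩
  · rw [sumElim_dotProduct_sumElim]
    simp
  · intro g h
    have h4 := congrArg (fun w => Matrix.vecMul w (Ga (p := p) (φ g⁻¹ : A))) h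
    simp only [Matrix.vecMul_vecMul, hinv, Matrix.vecMul_one, Matrix.zero_vecMul] at h4
    have h5 := congrFun h4 (Sum.inr 1)
    simp at h5
  · intro g h
    have h4 := congrArg (fun w => Matrix.mulVec (Ga (p := p) (φ g⁻¹ : A)) w) h
    simp only [Matrix.mulVec_mulVec, hinv', Matrix.one_mulVec, Matrix.mulVec_zero] at h4
    have h5 := congrFun h4 (Sum.inr 0)
    simp at h5
  · intro g
    change (Sum.elim ψ0 ![-(ψ0 ⬝ᵥ v0), 1]) ⬝ᵥ (Matrix.mulVec
      (Matrix.fromBlocks (lr (φ (s g) : A)) 0 0 1) (Sum.elim v0 ![1, 0])) ≠ 0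
    rw [Matrix.fromBlocks_mulVec, sumElim_dotProduct_sumElim]
    have h4 := hψ0 g
    have h5 : ∑ i, Matrix.mulVec (lr (p := p) (φ (s g) : A) - 1) v0 i * ψ0 i =
        ψ0 ⬝ᵥ (Matrix.mulVec (lr (p := p) (φ (s g) : A)) v0) - ψ0 ⬝ᵥ v0 := by
      rw [Matrix.sub_mulVec, Matrix.one_mulVec, ← dotProduct_sub, dotProduct]
      exact Finset.sum_congr rfl fun i _ => mul_comm _ _
    rw [h5] at h4
    intro h6
    apply h4
    rw [← h6]
    simp
    ring

/-- the separating homomorphism of the free product for one word -/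
theorem exists_hom {G : Type} [Group G] (ψ0 : G →* Aˣ) (g : G) (L : List (ℤ × G)) (hL : Red L)
    (hne : L ≠ []) (hS : ∀ a ∈ L, a.2 ≠ 1 → ψ0 a.2 ≠ 1) :
    ∃ Ψ : Monoid.Coprod G (Multiplicative ℤ) →* (A × Matrix (J p A) (J p A) ℤ_[p])ˣ,
      (∀ h, (∃ b : A, ((ψ0 (Monoid.Coprod.fst h) : Aˣ) : A) = 1 + (p : A) ^ 2 * b) →
        ∃ b : A × Matrix (J p A) (J p A) ℤ_[p],
          ((Ψ h : (A × Matrix (J p A) (J p A) ℤ_[p])ˣ) : A × Matrix (J p A) (J p A) ℤ_[p]) =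
            1 + (p : A × Matrix (J p A) (J p A) ℤ_[p]) ^ 2 * b) ∧
      Ψ (ev g L) ≠ 1 := by
  obtain ⟨v, ψ, hψv, h1, h2, h3'⟩ := exists_vectors' (p := p) ψ0
    (S := {i : Fin L.length // (L.get i).2 ≠ 1}) (fun i => (L.get i.1).2)
    (fun i => hS _ (L.get_mem i.1) i.2)
  have h3 : ∀ a ∈ L, a.2 ≠ 1 → ψ ⬝ᵥ (Matrix.mulVec (Ga ((ψ0 a.2 : Aˣ) : A)) v) ≠ 0 := by
    intro a ha ha1
    obtain ⟨i, hi⟩ := List.get_of_mem ha
    subst hi
    exact h3' ⟨i, ha1⟩
  have hp0 : (p : ℤ_[p]) ≠ 0 := Nat.cast_ne_zero.2 (Fact.out : p.Prime).ne_zero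
  obtain ⟨t, ht⟩ := exists_tau' p (fun g => Ga (p := p) ((ψ0 g : Aˣ) : A)) v ψ h1 h2
    ((p : ℤ_[p]) ^ 2) (pow_ne_zero 2 hp0) g L hL hne h3
  set τ := (p : ℤ_[p]) ^ 2 * t with hτ
  have hN : Matrix.vecMulVec v ψ * Matrix.vecMulVec v ψ = 0 := by
    rw [Matrix.vecMulVec_mul_vecMulVec, hψv, zero_smul, Matrix.vecMulVec_zero]
  let P : Subgroup Aˣ := ⊤
  let Φ1 : G →* PP p P := ((gh (p := p)).comp ψ0).codRestrict (PP p P)
    (fun g => gh_mem _ (Subgroup.mem_top _))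
  let Φ2 : Multiplicative ℤ →* PP p P := (zh (Matrix.vecMulVec v ψ) hN τ).codRestrict (PP p P)
    (fun n => zh_mem _ _ _ n)
  let Φ : Monoid.Coprod G (Multiplicative ℤ) →* PP p P := Monoid.Coprod.lift Φ1 Φ2
  have hev : ∀ (g : G) (L : List (ℤ × G)),
      (((Φ (ev g L) : PP p P) : (A × Matrix (J p A) (J p A) ℤ_[p])ˣ) :
        A × Matrix (J p A) (J p A) ℤ_[p]).2 =
      Ga ((ψ0 g : Aˣ) : A) * mv (fun g => Ga (p := p) ((ψ0 g : Aˣ) : A)) v ψ τ L := by
    intro g L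
    rw [ev, map_mul]
    have h4 : Φ (Monoid.Coprod.inl g) = Φ1 g := Monoid.Coprod.lift_apply_inl _ _ _
    rw [h4]
    have h5 : ∀ L : List (ℤ × G), (((Φ ((L.map fun a => Monoid.Coprod.inr
        (Multiplicative.ofAdd a.1) * Monoid.Coprod.inl a.2).prod) : PP p P) :
        (A × Matrix (J p A) (J p A) ℤ_[p])ˣ) : A × Matrix (J p A) (J p A) ℤ_[p]).2 =
        mv (fun g => Ga (p := p) ((ψ0 g : Aˣ) : A)) v ψ τ L := by
      intro L
      induction L with
      | nil => simp [mv]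
      | cons a L ih =>
        rw [List.map_cons, List.prod_cons, map_mul, Subgroup.coe_mul, Units.val_mul, Prod.snd_mul,
          ih, mv, map_mul, Subgroup.coe_mul, Units.val_mul, Prod.snd_mul]
        have h6 : Φ (Monoid.Coprod.inl a.2) = Φ1 a.2 := Monoid.Coprod.lift_apply_inl _ _ _
        have h7 : Φ (Monoid.Coprod.inr (Multiplicative.ofAdd a.1)) =
          Φ2 (Multiplicative.ofAdd a.1) := Monoid.Coprod.lift_apply_inr _ _ _
        rw [h6, h7]
        rfl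
    rw [Subgroup.coe_mul, Units.val_mul, Prod.snd_mul, h5]
    rfl
  -- the first component
  have hfst : (MonoidHom.comp (Units.map (MonoidHom.fst A (Matrix (J p A) (J p A) ℤ_[p])))
      ((PP p P).subtype.comp Φ)) = ψ0.comp Monoid.Coprod.fst := by
    apply Monoid.Coprod.hom_ext
    · ext x
      change ((((Φ (Monoid.Coprod.inl x) : PP p P) : (A × Matrix (J p A) (J p A) ℤ_[p])ˣ) :
        A × Matrix (J p A) (J p A) ℤ_[p])).1 = ((ψ0 (Monoid.Coprod.fst (Monoid.Coprod.inl x :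
          Monoid.Coprod G (Multiplicative ℤ))) : Aˣ) : A)
      have h4 : Φ (Monoid.Coprod.inl x) = Φ1 x := Monoid.Coprod.lift_apply_inl _ _ _
      rw [h4]
      have h5 : Monoid.Coprod.fst (Monoid.Coprod.inl x : Monoid.Coprod G (Multiplicative ℤ)) = x :=
        Monoid.Coprod.fst_apply_inl x
      rw [h5]
      rfl
    · ext
      have h4 : Φ (Monoid.Coprod.inr (Multiplicative.ofAdd (1 : ℤ))) =
          Φ2 (Multiplicative.ofAdd (1 : ℤ)) := Monoid.Coprod.lift_apply_inr _ _ _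
      have h5 : Monoid.Coprod.fst (Monoid.Coprod.inr (Multiplicative.ofAdd (1 : ℤ)) :
        Monoid.Coprod G (Multiplicative ℤ)) = 1 := Monoid.Coprod.fst_apply_inr _
      change ((((Φ (Monoid.Coprod.inr (Multiplicative.ofAdd (1 : ℤ))) : PP p P) :
        (A × Matrix (J p A) (J p A) ℤ_[p])ˣ) : A × Matrix (J p A) (J p A) ℤ_[p])).1 =
        ((ψ0 (Monoid.Coprod.fst (Monoid.Coprod.inr (Multiplicative.ofAdd (1 : ℤ)))) : Aˣ) : A)
      rw [h4, h5, map_one ψ0]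
      rfl
  refine ⟨(PP p P).subtype.comp Φ, ?_, ?_⟩
  · rintro h ⟨b, hb⟩
    obtain ⟨-, c, hc⟩ := (Φ h).2
    have h4 : (((Φ h : PP p P) : (A × Matrix (J p A) (J p A) ℤ_[p])ˣ) :
        A × Matrix (J p A) (J p A) ℤ_[p]).1 = 1 + ((p ^ 2 : ℕ) : A) * b := by
      have h5 := congrArg (fun F : Monoid.Coprod G (Multiplicative ℤ) →* Aˣ =>
        ((F h : Aˣ) : A)) hfst
      rw [Nat.cast_pow, ← hb]
      exact h5
    rw [h4] at hc
    have h8 : Ga (p := p) (A := A) (1 + ((p ^ 2 : ℕ) : A) * b) =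
        1 + ((p ^ 2 : ℕ) : ℤ_[p]) • Matrix.fromBlocks (lr b) 0 0 0 := by
      change Matrix.fromBlocks (lr _) 0 0 1 = _
      rw [Matrix.fromBlocks_smul, ← Matrix.fromBlocks_one, Matrix.fromBlocks_add, map_add,
        map_one, map_mul, map_natCast, ← nsmul_eq_mul, Nat.cast_smul_eq_nsmul]
      simp
    refine ⟨(b, Matrix.fromBlocks (lr b) 0 0 0 + c), ?_⟩
    apply Prod.ext
    · change (((Φ h : PP p P) : (A × Matrix (J p A) (J p A) ℤ_[p])ˣ) :
        A × Matrix (J p A) (J p A) ℤ_[p]).1 = _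
      rw [h4]
      simp
    · change (((Φ h : PP p P) : (A × Matrix (J p A) (J p A) ℤ_[p])ˣ) :
        A × Matrix (J p A) (J p A) ℤ_[p]).2 = _
      rw [hc, h8, Prod.snd_add, Prod.snd_one, ← Nat.cast_pow, ← Nat.cast_pow, Prod.snd_mul,
        Prod.snd_natCast, ← nsmul_eq_mul, Nat.cast_smul_eq_nsmul, Nat.cast_smul_eq_nsmul, smul_add,
        add_assoc]
  · intro h
    apply ht
    rw [← hev]
    change ((((PP p P).subtype.comp Φ) (ev g L) : (A × Matrix (J p A) (J p A) ℤ_[p])ˣ) :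
      A × Matrix (J p A) (J p A) ℤ_[p]).2 = 1
    rw [h]
    rfl

end construction

end SB2x

open SB2x Pool.Agent.H371.SA.R2x in
theorem GR.coprod_int (p : ℕ) [Fact p.Prime] (c : ℕ) (G : Type) [Group G] (hG : GR p c G) :
    GR p c (Monoid.Coprod G (Multiplicative ℤ)) := by
  obtain ⟨A, iR, iA, iF, iM, P, k, φ, f, hk, hP, hf, hc, h0, hs⟩ := hG
  refine ⟨A, iR, iA, iF, iM, P, k, φ.comp Monoid.Coprod.fst, f, hk, hP, hf, hc, h0, ?_⟩
  intro x hx
  obtain ⟨g, L, hL, rfl⟩ := exists_word x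
  by_cases hne : L = []
  · subst hne
    have h4 : ev g [] = Monoid.Coprod.inl g := by simp [ev]
    rw [h4] at hx ⊢
    obtain ⟨l, B, jR, jA, jF, jM, ψ, h1, h2⟩ := hs g (by
      intro h
      apply hx
      rw [h, map_one])
    refine ⟨l, B, jR, jA, jF, jM, ψ.comp Monoid.Coprod.fst, fun h hh => h1 _ hh, ?_⟩
    rw [MonoidHom.comp_apply, Monoid.Coprod.fst_apply_inl]
    exact h2
  · obtain ⟨l, B, jR, jA, jF, jM, ψ0, h1, h2⟩ := combine p P φ hs (L.map Prod.snd)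
    obtain ⟨Ψ, h3, h4⟩ := exists_hom (p := p) ψ0 g L hL hne
      (fun a ha => h2 a.2 (List.mem_map_of_mem ha))
    refine ⟨l, B × Matrix (J p B) (J p B) ℤ_[p], inferInstance, inferInstance, inferInstance,
      inferInstance, Ψ, ?_, h4⟩
    intro h hh
    exact h3 h (h1 _ hh)

open SB2x Pool.Agent.H371.SA.R2x in
theorem GR.coprod_free (p : ℕ) [Fact p.Prime] (c : ℕ) (G : Type) [Group G] (m : ℕ)
    (hG : GR p c G) : GR p c (Monoid.Coprod G (FreeGroup (Fin m))) := by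
  induction m with
  | zero => exact GR_sub p c _ _ (zeroIso G).symm.toMonoidHom (zeroIso G).symm.injective hG
  | succ m ih =>
    exact GR_sub p c _ _ (splitIso G m).symm.toMonoidHom (splitIso G m).symm.injective
      (GR.coprod_int p c _ ih)

end Pool.Agent.H371.SB
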