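import Pool.Agent.H371.SB.Defs
import Pool.Agent.H371.SA.TO
import Pool.Agent.H371.SA.TP
import Pool.Agent.H371.SA.TQ

/-! TASK SB-6: the virtual character of `GL_n(ℤ_p)`. -/

set_option autoImplicit false

namespace Pool.Agent.H371.SB

open Pool.Agent.H371.SA

namespace SB6x

/-- the product character -/
theorem prod_mem (p : ℕ) [Fact p.Prime] {A : Type} [Ring A] (P : Subgroup Aˣ) (K : ℕ)
    (g : ℕ → P → ℤ_[p]) (hg : ∀ j, g j ∈ AC p P) :
    (fun u => ∏ j ∈ Finset.range K, g j u) ∈ AC p P := by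
  induction K with
  | zero =>
    have := AC.const p P 1
    simpa using this
  | succ K ih =>
    have := AC.mul p P ih (hg K)
    have e : (fun u => ∏ j ∈ Finset.range (K + 1), g j u) =
        (fun u => ∏ j ∈ Finset.range K, g j u) * g K := by
      funext u
      rw [Finset.prod_range_succ, Pi.mul_apply]
    rw [e]; exact this

end SB6x

open SB6x in
theorem gl_char (p : ℕ) [Fact p.Prime] (n : ℕ) :
    ∃ f : (⊤ : Subgroup (Matrix (Fin n) (Fin n) ℤ_[p])ˣ) → ℤ_[p],
      f ∈ AC p (⊤ : Subgroup (Matrix (Fin n) (Fin n) ℤ_[p])ˣ) ∧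
      f 1 = ((p ^ (n / (p - 1)) * (n / (p - 1)).factorial : ℕ) : ℤ_[p]) ∧
      ∀ t : (⊤ : Subgroup (Matrix (Fin n) (Fin n) ℤ_[p])ˣ), t ≠ 1 → ∀ a : ℕ, t ^ (p ^ a) = 1 →
        f t = 0 := by
  have hp2 : 2 ≤ p := (Fact.out : p.Prime).two_le
  let K := n / (p - 1)
  let A := Matrix (Fin n) (Fin n) ℤ_[p]
  let P : Subgroup Aˣ := ⊤
  let g : ℕ → P → ℤ_[p] := fun j u =>
    (((u : Aˣ) : A)).trace - (((n : ℤ) - p * (j + 1) : ℤ) : ℤ_[p])
  have hg : ∀ j, g j ∈ AC p P := by
    intro j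
    exact (AC p P).sub_mem (AC.of_ringHom p P n (RingHom.id A)) (AC.const p P _)
  refine ⟨fun u => ∏ j ∈ Finset.range K, g j u, ?_, ?_, ?_⟩
  · exact prod_mem p P K g hg
  · have h1 : ∀ j ∈ Finset.range K, g j 1 = (p : ℤ_[p]) * ((j + 1 : ℕ) : ℤ_[p]) := by
      intro j _
      change ((1 : A)).trace - (((n : ℤ) - p * (j + 1) : ℤ) : ℤ_[p]) = _
      rw [Matrix.trace_one, Fintype.card_fin]
      push_cast
      ring
    change ∏ j ∈ Finset.range K, g j 1 = _
    rw [Finset.prod_congr rfl h1, Finset.prod_mul_distrib, Finset.prod_const, Finset.card_range,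
      ← Nat.cast_prod, Finset.prod_range_add_one_eq_factorial]
    push_cast
    rfl
  · intro t ht a hta
    have h1 : (((t : Aˣ) : A)) ^ (p ^ a) = 1 := by
      have := congrArg (fun u : P => ((u : Aˣ) : A)) hta
      simpa using this
    have h2 : (((t : Aˣ) : A)) ≠ 1 := by
      intro h
      apply ht
      apply Subtype.ext
      apply Units.ext
      exact h
    obtain ⟨k, hk1, hkm, htr⟩ := trace_torsion p n _ a h1 h2
    apply Finset.prod_eq_zero (i := k - 1)
    · rw [Finset.mem_range]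
      have : k ≤ K := (Nat.le_div_iff_mul_le (by omega)).2 hkm
      omega
    · change (((t : Aˣ) : A)).trace - (((n : ℤ) - p * ((k - 1 : ℕ) + 1) : ℤ) : ℤ_[p]) = 0
      rw [htr]
      have : ((k - 1 : ℕ) : ℤ) = k - 1 := by
        rw [Nat.cast_sub hk1]; simp
      rw [this]
      push_cast
      ring

end Pool.Agent.H371.SB
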