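import Pool.Agent.H371.SB.Defs
import Pool.Graph.R_pool_sql_team_668148b0.Helper160.NilpFG

/-!
Task SB-8 (project of helper371): residually torsion-free nilpotent groups with finitely
generated abelianization: powers of the augmentation ideal separate points.
The polynomial functions are those of the library file Helper160/NilpFG.lean.
-/

set_option autoImplicit false

namespace Pool.Agent.H371.SB

open Pool.Agent.Helper160.PolSep Pool.Agent.Helper160.NilpFG

namespace SB8x

open scoped commutatorElement

/-- generators of the abelianization of a nilpotent group generate the group -/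
theorem sup_lcs {Q : Type} [Group Q] (H : Subgroup Q)
    (h1 : H ⊔ (⊤ : Subgroup Q).lowerCentralSeries 1 = ⊤) (i : ℕ) :
    H ⊔ (⊤ : Subgroup Q).lowerCentralSeries (i + 1) = ⊤ := by
  induction i with
  | zero => exact h1
  | succ i ih =>
    have hN : ((⊤ : Subgroup Q).lowerCentralSeries (i + 1)).Normal := inferInstance
    have hN2 : ((⊤ : Subgroup Q).lowerCentralSeries (i + 2)).Normal := inferInstance
    have hle : (⊤ : Subgroup Q).lowerCentralSeries (i + 2) ≤
        (⊤ : Subgroup Q).lowerCentralSeries (i + 1) := Subgroup.lowerCentralSeries_antitone _ (by omega)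
    have hdec : ∀ q : Q, ∃ h ∈ H, ∃ c ∈ (⊤ : Subgroup Q).lowerCentralSeries (i + 1), h * c = q := by
      intro q
      have : q ∈ H ⊔ (⊤ : Subgroup Q).lowerCentralSeries (i + 1) := by rw [ih]; trivial
      rw [← SetLike.mem_coe, Subgroup.mul_normal] at this
      obtain ⟨h, hh, c, hc, e⟩ := Set.mem_mul.mp this
      exact ⟨h, hh, c, hc, e⟩
    have key : (⊤ : Subgroup Q).lowerCentralSeries (i + 1) ≤
        H ⊔ (⊤ : Subgroup Q).lowerCentralSeries (i + 2) := by
      conv_lhs => rw [Subgroup.lowerCentralSeries_succ]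
      rw [Subgroup.commutator_le]
      intro a ha q _
      obtain ⟨h, hh, c, hc, rfl⟩ := hdec a
      obtain ⟨h', hh', c', hc', rfl⟩ := hdec q
      -- work modulo the next term
      let π := QuotientGroup.mk' ((⊤ : Subgroup Q).lowerCentralSeries (i + 2))
      have hcen : ∀ c ∈ (⊤ : Subgroup Q).lowerCentralSeries (i + 1), ∀ g : Q,
          Commute (π c) (π g) := by
        intro c hc g
        have : ⁅c, g⁆ ∈ (⊤ : Subgroup Q).lowerCentralSeries (i + 2) := by
          rw [Subgroup.lowerCentralSeries_succ]
          exact Subgroup.commutator_mem_commutator hc (Subgroup.mem_top g)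
        have h2 : π ⁅c, g⁆ = 1 := (QuotientGroup.eq_one_iff _).mpr this
        rw [map_commutatorElement] at h2
        exact commutatorElement_eq_one_iff_commute.mp h2
      have e1 : π ⁅h * c, h' * c'⁆ = π ⁅h, h'⁆ := by
        rw [map_commutatorElement, map_commutatorElement, map_mul, map_mul]
        have c1 := hcen c hc h
        have c2 := hcen c hc h'
        have c3 := hcen c' hc' h
        have c4 := hcen c' hc' h'
        have c5 := hcen c hc c'
        simp only [commutatorElement_def, mul_inv_rev]
        calc π h * π c * (π h' * π c') * ((π c)⁻¹ * (π h)⁻¹) * ((π c')⁻¹ * (π h')⁻¹)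
            = π h * (π c * π h') * π c' * (π c)⁻¹ * (π h)⁻¹ * (π c')⁻¹ * (π h')⁻¹ := by group
          _ = π h * π h' * (π c * π c') * (π c)⁻¹ * (π h)⁻¹ * (π c')⁻¹ * (π h')⁻¹ := by
              rw [c2.eq]; group
          _ = π h * π h' * π c' * (π h)⁻¹ * (π c')⁻¹ * (π h')⁻¹ := by rw [c5.eq]; group
          _ = π h * π h' * (π c' * (π h)⁻¹) * (π c')⁻¹ * (π h')⁻¹ := by group
          _ = π h * π h' * (π h)⁻¹ * (π h')⁻¹ := by rw [(c3.inv_right).eq]; group
      have e2 : (⁅h, h'⁆)⁻¹ * ⁅h * c, h' * c'⁆ ∈ (⊤ : Subgroup Q).lowerCentralSeries (i + 2) := by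
        rw [← QuotientGroup.eq_one_iff]
        have : π ((⁅h, h'⁆)⁻¹ * ⁅h * c, h' * c'⁆) = 1 := by
          rw [map_mul, map_inv, e1, inv_mul_cancel]
        exact this
      have e3 : ⁅h, h'⁆ ∈ H := by
        rw [commutatorElement_def]
        exact H.mul_mem (H.mul_mem (H.mul_mem hh hh') (H.inv_mem hh)) (H.inv_mem hh')
      have e4 := Subgroup.mul_mem (H ⊔ (⊤ : Subgroup Q).lowerCentralSeries (i + 2))
        (Subgroup.mem_sup_left e3) (Subgroup.mem_sup_right e2)
      rwa [mul_inv_cancel_left] at e4
    have e5 : H ⊔ (⊤ : Subgroup Q).lowerCentralSeries (i + 1) ≤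
        H ⊔ (⊤ : Subgroup Q).lowerCentralSeries (i + 2) := sup_le le_sup_left key
    rw [ih] at e5
    exact top_le_iff.mp e5

theorem fg_of_ab {Q : Type} [Group Q] (hQ : Group.IsNilpotent Q)
    (hF : Group.FG (Abelianization Q)) : Group.FG Q := by
  classical
  obtain ⟨S', hS'⟩ := Group.fg_def.mp hF
  obtain ⟨c, hc⟩ := Subgroup.nilpotent_iff_lowerCentralSeries.mp hQ
  have hs : ∀ s : Abelianization Q, ∃ q : Q, Abelianization.of q = s := fun s =>
    QuotientGroup.mk_surjective s
  choose f hf using hs
  refine Group.fg_def.mpr ⟨S'.image f, ?_⟩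
  obtain ⟨H, hH⟩ : ∃ H, H = Subgroup.closure ((S'.image f : Finset Q) : Set Q) := ⟨_, rfl⟩
  rw [← hH]
  have h1 : H ⊔ (⊤ : Subgroup Q).lowerCentralSeries 1 = ⊤ := by
    rw [eq_top_iff]
    intro q _
    have h2 : Abelianization.of q ∈ H.map (Abelianization.of) := by
      have h3 : Abelianization.of q ∈ Subgroup.closure (S' : Set (Abelianization Q)) := by
        rw [hS']; trivial
      refine (Subgroup.closure_le _).mpr ?_ h3
      intro s hs
      refine ⟨f s, ?_, hf s⟩
      rw [hH]
      apply Subgroup.subset_closure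
      simp only [Finset.coe_image, Set.mem_image, Finset.mem_coe]
      exact ⟨s, hs, rfl⟩
    obtain ⟨h, hh, e⟩ := h2
    have h4 : h⁻¹ * q ∈ commutator Q := by
      rw [← Abelianization.ker_of]
      rw [MonoidHom.mem_ker, map_mul, map_inv, e, inv_mul_cancel]
    have h5 : h⁻¹ * q ∈ (⊤ : Subgroup Q).lowerCentralSeries 1 := by
      rw [Subgroup.top_lowerCentralSeries_one]; exact h4
    have h6 := Subgroup.mul_mem (H ⊔ (⊤ : Subgroup Q).lowerCentralSeries 1)
        (Subgroup.mem_sup_left hh) (Subgroup.mem_sup_right h5)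
    simpa using h6
  have h2 := sup_lcs H h1 c
  have h3 : (⊤ : Subgroup Q).lowerCentralSeries (c + 1) = ⊥ := by
    rw [eq_bot_iff, ← hc]
    exact Subgroup.lowerCentralSeries_antitone _ (by omega)
  rw [h3, sup_bot_eq] at h2
  exact h2

/-- the linear functional on the group algebra given by a rational function on the group -/
noncomputable def lam (k : Type) [Field k] {N : Type} [Group N] (F : N → ℚ) :
    MonoidAlgebra k N →+ k :=
  MonoidAlgebra.liftNC ((RingHom.id k : k →+* k) : k →+ k) fun x => ((F x : k))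

theorem lam_single (k : Type) [Field k] {N : Type} [Group N] (F : N → ℚ) (x : N) (a : k) :
    lam k F (MonoidAlgebra.single x a) = a * (F x : k) := by
  rw [lam, MonoidAlgebra.liftNC_single]; rfl

theorem lam_smul (k : Type) [Field k] {N : Type} [Group N] (F : N → ℚ) (c : k)
    (v : MonoidAlgebra k N) : lam k F (c • v) = c * lam k F v := by
  induction v using MonoidAlgebra.induction_on generalizing c with
  | of x =>
    rw [MonoidAlgebra.of_apply, MonoidAlgebra.smul_single, lam_single, lam_single, smul_eq_mul,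
      mul_one, one_mul]
  | add v w hv hw => rw [smul_add, map_add, map_add, hv, hw, mul_add]
  | smul r v hv => rw [smul_smul, hv, hv, mul_assoc]

theorem lam_of_mul (k : Type) [Field k] {N : Type} [Group N] (F : N → ℚ) (m : N)
    (v : MonoidAlgebra k N) :
    lam k F (MonoidAlgebra.of k N m * v) = lam k (T m F) v := by
  induction v using MonoidAlgebra.induction_on with
  | of x =>
    rw [← map_mul, MonoidAlgebra.of_apply, MonoidAlgebra.of_apply, lam_single, lam_single, T_apply]
  | add v w hv hw => rw [mul_add, map_add, map_add, hv, hw]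
  | smul c v hv => rw [mul_smul_comm, lam_smul, lam_smul, hv]

theorem lam_sub_left (k : Type) [Field k] [CharZero k] {N : Type} [Group N] (F G : N → ℚ)
    (v : MonoidAlgebra k N) : lam k (F - G) v = lam k F v - lam k G v := by
  induction v using MonoidAlgebra.induction_on with
  | of x =>
    rw [MonoidAlgebra.of_apply, lam_single, lam_single, lam_single, Pi.sub_apply]
    push_cast; ring
  | add v w hv hw => rw [map_add, map_add, map_add, hv, hw]; ring
  | smul c v hv => rw [lam_smul, lam_smul, lam_smul, hv]; ring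

theorem lam_zero_left (k : Type) [Field k] {N : Type} [Group N] (v : MonoidAlgebra k N) :
    lam k (0 : N → ℚ) v = 0 := by
  induction v using MonoidAlgebra.induction_on with
  | of x => rw [MonoidAlgebra.of_apply, lam_single]; simp
  | add v w hv hw => rw [map_add, hv, hw]; ring
  | smul c v hv => rw [lam_smul, hv]; ring

/-- functionals given by polynomial functions kill powers of the augmentation ideal -/
theorem lam_aug (k : Type) [Field k] [CharZero k] {N : Type} [Group N] (d : ℕ) :
    ∀ F : N → ℚ, F ∈ Pol (⊤ : Subgroup N) d → ∀ v ∈ (aug k N) ^ d, lam k F v = 0 := by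
  induction d with
  | zero =>
    intro F hF v _
    rw [mem_Pol_zero] at hF
    rw [hF, lam_zero_left]
  | succ d ih =>
    intro F hF v hv
    rw [pow_succ'] at hv
    refine Submodule.mul_induction_on hv ?_ ?_
    · intro a ha w hw
      rw [aug] at ha
      induction ha using Submodule.span_induction with
      | mem a ha =>
        obtain ⟨m, rfl⟩ := ha
        have h1 := ih _ (mem_Pol_succ.mp hF m (Subgroup.mem_top m)) w hw
        rw [lam_sub_left] at h1
        rw [sub_mul, one_mul, map_sub, lam_of_mul]
        exact h1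
      | zero => rw [zero_mul, map_zero]
      | add a b _ _ ha hb => rw [add_mul, map_add, ha, hb, add_zero]
      | smul c a _ ha => rw [smul_mul_assoc, lam_smul, ha, mul_zero]
    · intro a b ha hb
      rw [map_add, ha, hb, add_zero]

/-- the augmentation ideal maps to the augmentation ideal -/
theorem aug_map (k : Type) [Field k] {N Q : Type} [Group N] [Group Q] (f : N →* Q) (d : ℕ) :
    ∀ v ∈ (aug k N) ^ d, MonoidAlgebra.mapDomainAlgHom k k f v ∈ (aug k Q) ^ d := by
  have h1 : (aug k N).map (MonoidAlgebra.mapDomainAlgHom k k f).toLinearMap ≤ aug k Q := by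
    rw [Submodule.map_le_iff_le_comap, aug, Submodule.span_le]
    rintro _ ⟨x, rfl⟩
    rw [SetLike.mem_coe, Submodule.mem_comap]
    apply Submodule.subset_span
    refine ⟨f x, ?_⟩
    rw [AlgHom.toLinearMap_apply, map_sub, map_one]
    simp
  intro v hv
  have h2 : MonoidAlgebra.mapDomainAlgHom k k f v ∈
      ((aug k N) ^ d).map (MonoidAlgebra.mapDomainAlgHom k k f).toLinearMap := ⟨v, hv, rfl⟩
  rw [Submodule.map_pow] at h2
  exact pow_le_pow_left' h1 d h2

end SB8x

theorem dim_of_rtfn (k : Type) [Field k] [CharZero k] (N : Type) [Group N]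
    [Group.FG (Abelianization N)] (hN : RTFN N) (x : N) (hx : x ≠ 1) :
    ∃ K : ℕ, MonoidAlgebra.of k N x - 1 ∉ (aug k N) ^ (K + 1) := by
  obtain ⟨L, hL, hxL, hnil, htf⟩ := hN x hx
  have hab : Group.FG (Abelianization (N ⧸ L)) := by
    have hs : Function.Surjective (Abelianization.map (QuotientGroup.mk' L)) := by
      intro y
      obtain ⟨y, rfl⟩ := QuotientGroup.mk_surjective y
      obtain ⟨y, rfl⟩ := QuotientGroup.mk'_surjective L y
      exact ⟨Abelianization.of y, rfl⟩
    exact Group.fg_of_surjective hs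
  have hfg : Group.FG (N ⧸ L) := SB8x.fg_of_ab hnil hab
  have hTF : TF (N ⧸ L) := by
    intro g hg m hm h
    exact hg (htf g m (by omega) h)
  have hR := R_top hTF
  have hx1 : QuotientGroup.mk' L x ≠ 1 := fun h => hxL ((QuotientGroup.eq_one_iff x).mp h)
  obtain ⟨d, F, hF, hFx⟩ := hR (QuotientGroup.mk' L x) (Subgroup.mem_top _) hx1
  refine ⟨d, fun h => hFx ?_⟩
  have h1 := SB8x.aug_map k (QuotientGroup.mk' L) (d + 1) _ h
  have h2 := SB8x.lam_aug k (d + 1) F (Pol_le_succ _ _ hF) _ h1
  rw [map_sub, map_one, map_sub] at h2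
  have h3 : MonoidAlgebra.mapDomainAlgHom k k (QuotientGroup.mk' L) (MonoidAlgebra.of k N x) =
      MonoidAlgebra.single (QuotientGroup.mk' L x) 1 := by
    simp
  rw [h3, MonoidAlgebra.one_def, SB8x.lam_single, SB8x.lam_single, one_mul, one_mul, sub_eq_zero] at h2
  exact_mod_cast h2

end Pool.Agent.H371.SB
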