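import Pool.Agent.H371.SB.U0
import Pool.Agent.H371.SB.U1
import Pool.Agent.H371.SB.U2
import Pool.Agent.H371.SB.U3
import Pool.Agent.H371.SB.U4
import Pool.Agent.H371.SB.U6
import Pool.Agent.H371.SB.U8
import Pool.Agent.H371.SB.U10
import Pool.Agent.H371.SA.TT

/-!
The assembly: groups of automorphisms of residually torsion-free nilpotent groups, outer
automorphisms of free groups.
-/

set_option autoImplicit false

namespace Pool.Agent.H371.SB

open Filter Topology
open Pool.Agent.H371.SA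
open Pool.Agent.H80R2.BC (L2 GMat vdim kerA Coef act)
open Pool.Agent.W656.VA

/-! ### the relation -/

/-- for every prime `p`, `G` has data with a denominator whose `p`-part divides `d` -/
def CR (G : Type) [Group G] (d : ℕ) : Prop :=
  0 < d ∧ ∀ (p : ℕ) [Fact p.Prime], ∃ c : ℕ, GR p c G ∧ ∃ q : ℕ, ¬ p ∣ q ∧ c ∣ q * d

theorem CR.prod {G H : Type} [Group G] [Group H] {d e : ℕ} (hG : CR G d) (hH : CR H e) :
    CR (G × H) (d * e) := by
  refine ⟨Nat.mul_pos hG.1 hH.1, fun p _ => ?_⟩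
  obtain ⟨c, hc, q, hq, h⟩ := hG.2 p
  obtain ⟨c', hc', q', hq', h'⟩ := hH.2 p
  refine ⟨c * c', GR.prod p c c' G H hc hc', q * q', ?_, ?_⟩
  · intro h
    rcases (Fact.out : p.Prime).dvd_mul.1 h with h | h
    · exact hq h
    · exact hq' h
  · have := mul_dvd_mul h h'
    have e1 : q * d * (q' * e) = q * q' * (d * e) := by ring
    rwa [e1] at this

theorem CR.sub {G H : Type} [Group G] [Group H] {d : ℕ} (f : H →* G) (hf : Function.Injective f)
    (hG : CR G d) : CR H d := by
  refine ⟨hG.1, fun p _ => ?_⟩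
  obtain ⟨c, hc, q, hq, h⟩ := hG.2 p
  exact ⟨c, GR.sub p c G H f hf hc, q, hq, h⟩

theorem CR.free {G : Type} [Group G] {d : ℕ} (m : ℕ) (hG : CR G d) :
    CR (Monoid.Coprod G (FreeGroup (Fin m))) d := by
  refine ⟨hG.1, fun p _ => ?_⟩
  obtain ⟨c, hc, q, hq, h⟩ := hG.2 p
  exact ⟨c, GR.coprod_free p c G m hc, q, hq, h⟩

theorem CR.mul {G : Type} [Group G] {d : ℕ} (e : ℕ) (he : 0 < e) (hG : CR G d) : CR G (d * e) := by
  refine ⟨Nat.mul_pos hG.1 he, fun p _ => ?_⟩
  obtain ⟨c, hc, q, hq, h⟩ := hG.2 p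
  refine ⟨c, hc, q, hq, h.trans ⟨e, by ring⟩⟩

theorem CR.main {G : Type} [Group G] {d : ℕ} (hG : CR G d) (v : ℝ)
    (hv : Val (⊤ : Subring ℂ) G v) : ∃ z : ℤ, (d : ℝ) * v = z := by
  refine base_change' (fun G _ d => CR G d) (fun G _ d h => h.1)
    (fun G H _ _ d e hG hH => CR.prod hG hH) (fun G _ m d hG => CR.free m hG)
    (Int.castRingHom ℂ).range ?_ ⊤ G d hG v hv
  intro G _ d hG v hv
  apply Tx.int_of_local
  intro p hp
  have : Fact p.Prime := ⟨hp⟩
  obtain ⟨c, hc, q, hq, e, he⟩ := hG.2 p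
  obtain ⟨q', hq', z, hz⟩ := GR.local p c G hc v hv
  refine ⟨q * q', ?_, e * z, ?_⟩
  · intro h
    rcases (Fact.out : p.Prime).dvd_mul.1 h with h | h
    · exact hq h
    · exact hq' h
  · have he' : (q : ℝ) * d = c * e := by exact_mod_cast he
    push_cast
    linear_combination (q' : ℝ) * v * he' + (e : ℝ) * hz

/-! ### the action on the abelianization -/

section ab
variable {N : Type} [Group N] {n : ℕ} (e : Abelianization N ≃* Multiplicative (Fin n → ℤ))

/-- the action on the abelianization -/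
noncomputable def abL (h : MulAut N) : (Fin n → ℤ) →ₗ[ℤ] (Fin n → ℤ) :=
  AddMonoidHom.toIntLinearMap (AddMonoidHom.toMultiplicative.symm
    (e.toMonoidHom.comp ((Abelianization.map h.toMonoidHom).comp e.symm.toMonoidHom)))

theorem abL_apply (h : MulAut N) (v : Fin n → ℤ) : abL e h v =
    Multiplicative.toAdd (e (Abelianization.map h.toMonoidHom (e.symm (Multiplicative.ofAdd v)))) :=
  rfl

theorem abL_of (h : MulAut N) (x : N) : abL e h (Multiplicative.toAdd (e (Abelianization.of x))) =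
    Multiplicative.toAdd (e (Abelianization.of (h x))) := by
  rw [abL_apply, ofAdd_toAdd, MulEquiv.symm_apply_apply, Abelianization.map_of]
  rfl

/-- the matrix of the action on the abelianization -/
noncomputable def abM : MulAut N →* Matrix (Fin n) (Fin n) ℤ where
  toFun h := LinearMap.toMatrix' (abL e h)
  map_one' := by
    have : abL e 1 = LinearMap.id := by
      refine LinearMap.ext fun v => ?_
      rw [abL_apply]
      have h1 : Abelianization.map (MulEquiv.toMonoidHom (1 : MulAut N)) = MonoidHom.id _ := by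
        ext x; rfl
      rw [h1, MonoidHom.id_apply, MulEquiv.apply_symm_apply]
      rfl
    rw [this, LinearMap.toMatrix'_id]
  map_mul' g h := by
    rw [← LinearMap.toMatrix'_comp]
    congr 1
    refine LinearMap.ext fun v => ?_
    rw [LinearMap.comp_apply, abL_apply, abL_apply, abL_apply, ofAdd_toAdd,
      MulEquiv.symm_apply_apply]
    have h1 : Abelianization.map (MulEquiv.toMonoidHom (g * h)) =
        (Abelianization.map g.toMonoidHom).comp (Abelianization.map h.toMonoidHom) := by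
      ext x; rfl
    rw [h1]
    rfl

/-- the same over the `p`-adic integers -/
noncomputable def abG (p : ℕ) [Fact p.Prime] : MulAut N →* (Matrix (Fin n) (Fin n) ℤ_[p])ˣ :=
  MonoidHom.toHomUnits
    ((RingHom.mapMatrix (Int.castRingHom ℤ_[p]) : Matrix (Fin n) (Fin n) ℤ →+* _).toMonoidHom.comp
      (abM e))

theorem abG_val (p : ℕ) [Fact p.Prime] (h : MulAut N) :
    ((abG e p h : (Matrix (Fin n) (Fin n) ℤ_[p])ˣ) : Matrix (Fin n) (Fin n) ℤ_[p]) =
      (abM e h).map (Int.castRingHom ℤ_[p]) := rfl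

theorem trivAb_of (p : ℕ) [Fact p.Prime] (h : MulAut N)
    (hh : ∃ a : Matrix (Fin n) (Fin n) ℤ_[p],
      ((abG e p h : (Matrix (Fin n) (Fin n) ℤ_[p])ˣ) : Matrix (Fin n) (Fin n) ℤ_[p]) =
        1 + (p : Matrix (Fin n) (Fin n) ℤ_[p]) ^ 2 * a) : TrivAb (p ^ 2) h := by
  obtain ⟨a, ha⟩ := hh
  rw [abG_val] at ha
  have h1 : ∀ i j, ∃ m : ℤ, abM e h i j = (1 : Matrix (Fin n) (Fin n) ℤ) i j + (p : ℤ) ^ 2 * m := by
    intro i j
    have h2 := congrFun (congrFun ha i) j
    have h3 : ((p : Matrix (Fin n) (Fin n) ℤ_[p]) ^ 2 * a) i j = (p : ℤ_[p]) ^ 2 * a i j := by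
      rw [← Nat.cast_pow, ← nsmul_eq_mul, Matrix.smul_apply, nsmul_eq_mul, Nat.cast_pow]
    rw [Matrix.add_apply, h3, Matrix.map_apply] at h2
    have h4 : (((p : ℕ) ^ 2 : ℕ) : ℤ) ∣ abM e h i j - (1 : Matrix (Fin n) (Fin n) ℤ) i j := by
      rw [Nat.cast_pow, ← PadicInt.pow_p_dvd_int_iff]
      refine ⟨a i j, ?_⟩
      rw [Int.cast_sub]
      have h5 : (((1 : Matrix (Fin n) (Fin n) ℤ) i j : ℤ) : ℤ_[p]) =
          (1 : Matrix (Fin n) (Fin n) ℤ_[p]) i j := by
        rw [Matrix.one_apply, Matrix.one_apply]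
        split_ifs <;> simp
      rw [h5]
      change (Int.castRingHom ℤ_[p]) (abM e h i j) - _ = _
      rw [h2]
      ring
    obtain ⟨m, hm⟩ := h4
    refine ⟨m, ?_⟩
    rw [Nat.cast_pow] at hm
    rw [← hm]; ring
  choose M hM using h1
  intro x
  set v : Fin n → ℤ := Multiplicative.toAdd (e (Abelianization.of x)) with hv
  obtain ⟨y, hy⟩ := QuotientGroup.mk_surjective (s := commutator N) (e.symm (Multiplicative.ofAdd
    (Matrix.mulVec (Matrix.of M) v)))
  refine ⟨y, ?_⟩
  apply e.injective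
  apply Multiplicative.toAdd.injective
  rw [← abL_of e h x]
  have hy' : Abelianization.of y = e.symm (Multiplicative.ofAdd (Matrix.mulVec (Matrix.of M) v)) :=
    hy
  rw [map_mul, map_pow, hy', map_mul, map_pow, MulEquiv.apply_symm_apply, toAdd_mul, toAdd_pow,
    toAdd_ofAdd]
  have h5 : abL e h v = Matrix.mulVec (abM e h) v := by
    change _ = Matrix.mulVec (LinearMap.toMatrix' (abL e h)) v
    rw [LinearMap.toMatrix'_mulVec]
  rw [← hv, h5]
  have h6 : abM e h = 1 + (p ^ 2 : ℕ) • (Matrix.of M) := by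
    ext i j
    rw [Matrix.add_apply, Matrix.smul_apply, hM i j, nsmul_eq_mul, Nat.cast_pow]
    rfl
  rw [h6, Matrix.add_mulVec, Matrix.one_mulVec, Matrix.smul_mulVec]

end ab

/-! ### automorphism groups -/

/-- `d` is a common multiple of the orders of the finite subgroups of `GL_n(ℤ)` -/
def Mink (n d : ℕ) : Prop :=
  ∀ H : Subgroup (Matrix.GeneralLinearGroup (Fin n) ℤ), Finite H → Nat.card H ∣ d

/-- the local denominators -/
noncomputable def cc (p n : ℕ) : ℕ := p ^ (n / (p - 1)) * (n / (p - 1)).factorial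

theorem cc_dvd (p n d : ℕ) [Fact p.Prime] (h : Mink n d) : cc p n ∣ d := by
  obtain ⟨H, hH, hc⟩ := exists_finite_subgroup p n (n / (p - 1)) (Fact.out : p.Prime).two_le
    (Nat.div_mul_le_self _ _)
  rw [cc, ← hc]
  exact h H hH

theorem aug_mul (k : Type) [Field k] {N : Type} [Group N] (K : ℕ) (a : MonoidAlgebra k N) (y : N)
    (ha : a ∈ (aug k N) ^ (K + 1)) : a * MonoidAlgebra.of k N y ∈ (aug k N) ^ (K + 1) := by
  rw [pow_succ] at ha ⊢
  refine Submodule.mul_induction_on ha ?_ ?_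
  · intro m hm b hb
    rw [mul_assoc]
    apply Submodule.mul_mem_mul hm
    refine Submodule.span_induction ?_ ?_ ?_ ?_ hb
    · rintro _ ⟨x, rfl⟩
      have : (MonoidAlgebra.of k N x - 1) * MonoidAlgebra.of k N y =
          (MonoidAlgebra.of k N (x * y) - 1) - (MonoidAlgebra.of k N y - 1) := by
        rw [map_mul]; noncomm_ring
      change (MonoidAlgebra.of k N x - 1) * MonoidAlgebra.of k N y ∈ _
      rw [this]
      exact sub_mem (Submodule.subset_span ⟨_, rfl⟩) (Submodule.subset_span ⟨_, rfl⟩)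
    · rw [zero_mul]; exact zero_mem _
    · intro a b _ _ ha hb
      rw [add_mul]; exact add_mem ha hb
    · intro c a _ ha
      rw [smul_mul_assoc]; exact Submodule.smul_mem _ _ ha
  · intro a b ha hb
    rw [add_mul]; exact add_mem ha hb

theorem fg_ab {N : Type} [Group N] {n : ℕ} (e : Abelianization N ≃* Multiplicative (Fin n → ℤ)) :
    Group.FG (Abelianization N) := by
  have h1 : AddGroup.FG (Fin n → ℤ) := (Module.Finite.iff_addGroup_fg).1 inferInstance
  have h2 : Group.FG (Multiplicative (Fin n → ℤ)) := (AddGroup.fg_iff_mul_fg).1 h1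
  exact Group.fg_of_surjective (f := e.symm.toMonoidHom) e.symm.surjective

theorem GR.aut (p : ℕ) [Fact p.Prime] {N : Type} [Group N] {n : ℕ}
    (e : Abelianization N ≃* Multiplicative (Fin n → ℤ)) (hN : RTFN N) {G : Type} [Group G]
    (α : G →* MulAut N) (hα : Function.Injective α) : GR p (cc p n) G := by
  have hFG := fg_ab e
  obtain ⟨f, hf, hf1, hf0⟩ := gl_char p n
  have hp1 : 1 < p := (Fact.out : p.Prime).one_lt
  refine ⟨Matrix (Fin n) (Fin n) ℤ_[p], inferInstance, inferInstance, inferInstance,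
    inferInstance, ⊤, 2, ((abG e p).comp α).codRestrict ⊤ (fun _ => trivial), f, by nlinarith,
    fun _ _ => trivial, hf, hf1, hf0, ?_⟩
  intro g hg
  have h1 : ∃ x : N, α g x ≠ x := by
    by_contra hcon
    push Not at hcon
    apply hg
    apply hα
    rw [map_one]
    exact MulEquiv.ext hcon
  obtain ⟨x, hx⟩ := h1
  obtain ⟨K, hK⟩ := dim_of_rtfn ℚ_[p] N hN (α g x * x⁻¹) (by
    intro h
    exact hx (mul_inv_eq_one.1 h))
  obtain ⟨B, i1, i2, i3, i4, ψ, h2, h3⟩ := exists_rep p N K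
  refine ⟨2, B, i1, i2, i3, i4, ψ.comp α, ?_, ?_⟩
  · intro h hh
    exact h2 _ (trivAb_of e p _ hh)
  · intro h
    apply hK
    have h4 := aug_mul _ K _ x⁻¹ (h3 _ h x)
    rw [sub_mul, ← map_mul, ← map_mul, mul_inv_cancel, map_one] at h4
    exact h4

/-! ### outer automorphisms of free groups -/

/-- the abelianization of the free group -/
noncomputable def eF (n : ℕ) : Abelianization (FreeGroup (Fin n)) ≃* Multiplicative (Fin n → ℤ) :=
  AddEquiv.toMultiplicativeRight
    ((FreeAbelianGroup.equivFinsupp (Fin n)).trans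
      (Finsupp.linearEquivFunOnFinite ℤ ℤ (Fin n)).toAddEquiv)

theorem abG_inn (p : ℕ) [Fact p.Prime] {N : Type} [Group N] {n : ℕ}
    (e : Abelianization N ≃* Multiplicative (Fin n → ℤ)) (h : MulAut N) (hh : h ∈ innS N) :
    abG e p h = 1 := by
  obtain ⟨y, rfl⟩ := hh
  have h1 : abM e (MulAut.conj y) = 1 := by
    rw [← map_one (abM e)]
    change LinearMap.toMatrix' (abL e _) = LinearMap.toMatrix' (abL e _)
    congr 1
    refine LinearMap.ext fun v => ?_
    rw [abL_apply, abL_apply]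
    have h2 : Abelianization.map (MulEquiv.toMonoidHom (MulAut.conj y)) =
        Abelianization.map (MulEquiv.toMonoidHom (1 : MulAut N)) := by
      ext x
      simp only [MonoidHom.coe_comp, Function.comp_apply, Abelianization.map_of]
      change Abelianization.of (y * x * y⁻¹) = Abelianization.of x
      rw [map_mul, map_mul, map_inv, mul_comm (Abelianization.of y), mul_inv_cancel_right]
    rw [h2]
  apply Units.ext
  rw [abG_val, h1]
  simp

/-- the action of the outer automorphism group on the abelianization -/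
noncomputable def outG (p : ℕ) [Fact p.Prime] {N : Type} [Group N] {n : ℕ}
    (e : Abelianization N ≃* Multiplicative (Fin n → ℤ)) :
    (MulAut N ⧸ innS N) →* (Matrix (Fin n) (Fin n) ℤ_[p])ˣ :=
  QuotientGroup.lift (innS N) (abG e p) (fun h hh => abG_inn p e h hh)

theorem GR.out (p : ℕ) [Fact p.Prime] (n : ℕ) {G : Type} [Group G]
    (α : G →* (MulAut (FreeGroup (Fin n)) ⧸ innS (FreeGroup (Fin n))))
    (hα : Function.Injective α) : GR p (cc p n) G := by
  have hFG := fg_ab (eF n)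
  obtain ⟨f, hf, hf1, hf0⟩ := gl_char p n
  have hp1 : 1 < p := (Fact.out : p.Prime).one_lt
  refine ⟨Matrix (Fin n) (Fin n) ℤ_[p], inferInstance, inferInstance, inferInstance,
    inferInstance, ⊤, 2, ((outG p (eF n)).comp α).codRestrict ⊤ (fun _ => trivial), f,
    by nlinarith, fun _ _ => trivial, hf, hf1, hf0, ?_⟩
  intro g hg
  obtain ⟨h, hh⟩ := QuotientGroup.mk_surjective (α g)
  have h1 : ¬ ∃ y, h = MulAut.conj y := by
    rintro ⟨y, rfl⟩
    apply hg
    apply hα
    rw [map_one, ← hh, QuotientGroup.eq_one_iff]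
    exact ⟨y, rfl⟩
  have h2 : ∃ (K : ℕ) (x : FreeGroup (Fin n)),
      MonoidAlgebra.of ℚ_[p] _ (h x) - MonoidAlgebra.of ℚ_[p] _ x ∉
        (aug ℚ_[p] (FreeGroup (Fin n))) ^ (K + 1) ⊔ cm ℚ_[p] (FreeGroup (Fin n)) := by
    by_contra hcon
    push Not at hcon
    exact h1 (inner_of_cyc ℚ_[p] n h hcon)
  obtain ⟨K, x, hKx⟩ := h2
  obtain ⟨B, i1, i2, i3, i4, ψ, h3, h4, h5⟩ := exists_rep_out p (FreeGroup (Fin n)) K
  refine ⟨2, B, i1, i2, i3, i4, (QuotientGroup.lift (innS (FreeGroup (Fin n))) ψ (by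
    rintro _ ⟨y, rfl⟩
    exact h4 y)).comp α, ?_, ?_⟩
  · intro g' hg'
    obtain ⟨h', hh'⟩ := QuotientGroup.mk_surjective (α g')
    rw [MonoidHom.comp_apply, ← hh', QuotientGroup.lift_mk]
    apply h3
    apply trivAb_of (eF n) p
    obtain ⟨a, ha⟩ := hg'
    refine ⟨a, ?_⟩
    rw [← ha]
    change _ = ((outG p (eF n) (α g') : (Matrix (Fin n) (Fin n) ℤ_[p])ˣ) :
      Matrix (Fin n) (Fin n) ℤ_[p])
    rw [← hh']
    rfl
  · intro h6
    rw [MonoidHom.comp_apply, ← hh, QuotientGroup.lift_mk] at h6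
    exact hKx (h5 h h6 x)

theorem CR.aut {N : Type} [Group N] {n d : ℕ} (hd : 0 < d) (hm : Mink n d)
    (e : Abelianization N ≃* Multiplicative (Fin n → ℤ)) (hN : RTFN N) {G : Type} [Group G]
    (α : G →* MulAut N) (hα : Function.Injective α) : CR G d :=
  ⟨hd, fun p _ => ⟨cc p n, GR.aut p e hN α hα, 1, (Fact.out : p.Prime).one_lt.ne' ∘ Nat.dvd_one.1,
    by rw [one_mul]; exact cc_dvd p n d hm⟩⟩

theorem CR.out {n d : ℕ} (hd : 0 < d) (hm : Mink n d) {G : Type} [Group G]
    (α : G →* (MulAut (FreeGroup (Fin n)) ⧸ innS (FreeGroup (Fin n))))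
    (hα : Function.Injective α) : CR G d :=
  ⟨hd, fun p _ => ⟨cc p n, GR.out p n α hα, 1, (Fact.out : p.Prime).one_lt.ne' ∘ Nat.dvd_one.1,
    by rw [one_mul]; exact cc_dvd p n d hm⟩⟩

end Pool.Agent.H371.SB
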